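import Mathlib

/-!
# Antichains of permutations can have arbitrarily large upper growth rates

Take a path of `m + 1` blocks arranged like an increasing oscillation: every block is inverted with
the next one and with no other block. The two end blocks are decreasing sequences of length
`2 k + 1`; every interior block is `τ ⊕ id` with `τ ∈ S_k` arbitrary, and has the same length. In an
embedding of one such permutation into another one, the image of an end block meets an end block,
two end blocks do not meet the same end block, and neighbouring blocks go to neighbouring blocks. So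
the image of the path has at least as many blocks as the target. Hence all these permutations form
an antichain, which has at least `(k!)^(m-1)` members of length `(m + 1) (2 k + 1)`.
-/

set_option autoImplicit false

namespace Pool.Agent.K6.H23.AntichainGrowth

open Filter Function
open scoped ENNReal

/-- The permutation `τ` contains the permutation `σ`: deleting some entries of `τ` leaves a sequence
(at the positions `f 0 < f 1 < ⋯`) with the same relative order as `σ`. -/
def Contains {k n : ℕ} (τ : Equiv.Perm (Fin n)) (σ : Equiv.Perm (Fin k)) : Prop :=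
  ∃ f : Fin k → Fin n, StrictMono f ∧ ∀ i j, σ i < σ j ↔ τ (f i) < τ (f j)

/-- The set of all permutations of all finite lengths. -/
abbrev AllPerms : Type := Σ n : ℕ, Equiv.Perm (Fin n)

/-- `X` is an antichain of permutations: no member contains a different member. -/
def IsPermAntichain (X : Set AllPerms) : Prop :=
  ∀ p ∈ X, ∀ q ∈ X, p ≠ q → ¬ Contains p.2 q.2

/-- The number `|X ∩ S_n|` of the members of length `n`. -/
noncomputable def level (X : Set AllPerms) (n : ℕ) : ℕ :=
  {π : Equiv.Perm (Fin n) | (⟨n, π⟩ : AllPerms) ∈ X}.ncard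

/-- The upper growth rate `limsup |X ∩ S_n|^(1/n)`, a value in `[0, ∞]`. -/
noncomputable def upperGrowth (X : Set AllPerms) : ℝ≥0∞ :=
  limsup (fun n : ℕ => ((level X n : ℕ) : ℝ≥0∞) ^ ((1 : ℝ) / (n : ℝ))) atTop

/-! ### Basic facts on containment -/

theorem contains_le {k n : ℕ} {σ : Equiv.Perm (Fin k)} {τ : Equiv.Perm (Fin n)}
    (h : Contains τ σ) : k ≤ n := by
  obtain ⟨f, hf, _⟩ := h
  simpa using Fintype.card_le_of_injective f hf.injective

theorem perm_ext_lt {n : ℕ} {σ τ : Equiv.Perm (Fin n)} (h : ∀ i j, σ i < σ j ↔ τ i < τ j) :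
    σ = τ := by
  have h1 : StrictMono (fun i => σ (τ.symm i)) := by
    intro i j hij
    exact (h (τ.symm i) (τ.symm j)).2 (by simpa using hij)
  have h2 : (fun i => σ (τ.symm i)) = id := by
    have h3 : Set.range (fun i => σ (τ.symm i)) = Set.range (id : Fin n → Fin n) := by
      rw [Set.range_id, Set.range_eq_univ]
      exact (σ.surjective.comp τ.symm.surjective)
    exact (StrictMono.range_inj h1 strictMono_id).1 h3
  ext i
  have := congrFun h2 (τ i)
  simp only [Equiv.symm_apply_apply, id] at this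
  rw [this]

theorem eq_of_contains_same {n : ℕ} {σ τ : Equiv.Perm (Fin n)} (h : Contains τ σ) : σ = τ := by
  obtain ⟨f, hf, hf'⟩ := h
  have h3 : Set.range f = Set.range (id : Fin n → Fin n) := by
    rw [Set.range_id, Set.range_eq_univ]
    exact Finite.surjective_of_injective hf.injective
  have h4 : f = id := (StrictMono.range_inj hf strictMono_id).1 h3
  subst h4
  exact perm_ext_lt hf'

/-- The permutation `π` of `Fin n` is the permutation of the points with the coordinates
`x`, `y`. -/
def Realizes {n : ℕ} {α : Type*} (π : Equiv.Perm (Fin n)) (x y : α → ℤ) : Prop :=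
  ∃ e : Fin n ≃ α, (∀ i j, i < j ↔ x (e i) < x (e j)) ∧ ∀ i j, π i < π j ↔ y (e i) < y (e j)

theorem exists_rank {α : Type*} [Fintype α] (x : α → ℤ) (hx : Injective x) {n : ℕ}
    (hn : Fintype.card α = n) :
    ∃ e : Fin n ≃ α, ∀ i j, i < j ↔ x (e i) < x (e j) := by
  classical
  let _ : LinearOrder α := LinearOrder.lift' x hx
  let e := Fintype.orderIsoFinOfCardEq α hn
  refine ⟨e.toEquiv, fun i j => ?_⟩
  have : e i < e j ↔ i < j := e.lt_iff_lt
  exact this.symm

theorem exists_realizes {α : Type*} [Fintype α] (x y : α → ℤ) (hx : Injective x)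
    (hy : Injective y) {n : ℕ} (hn : Fintype.card α = n) :
    ∃ π : Equiv.Perm (Fin n), Realizes π x y := by
  obtain ⟨e, he⟩ := exists_rank x hx hn
  obtain ⟨e', he'⟩ := exists_rank y hy hn
  refine ⟨e.trans e'.symm, e, he, fun i j => ?_⟩
  rw [he']
  simp

/-- an embedding of permutations gives an embedding of the point sets -/
theorem map_of_contains {k n : ℕ} {α β : Type*} {σ : Equiv.Perm (Fin k)}
    {τ : Equiv.Perm (Fin n)} {x y : α → ℤ} {x' y' : β → ℤ}
    (h : Realizes σ x y) (h' : Realizes τ x' y') (hc : Contains τ σ) :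
    ∃ f : α → β, (∀ a b, x a < x b → x' (f a) < x' (f b)) ∧
      ∀ a b, y a < y b → y' (f a) < y' (f b) := by
  obtain ⟨e, he1, he2⟩ := h
  obtain ⟨e', he1', he2'⟩ := h'
  obtain ⟨f, hf, hf'⟩ := hc
  refine ⟨fun a => e' (f (e.symm a)), fun a b hab => ?_, fun a b hab => ?_⟩
  · rw [← he1']
    apply hf
    rw [he1]
    simpa using hab
  · rw [← he2', ← hf', he2]
    simpa using hab

/-- the order of the points is determined by the permutation and the first coordinates -/
theorem order_unique {n : ℕ} {α : Type*} {π : Equiv.Perm (Fin n)} {x y y' : α → ℤ}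
    (h : Realizes π x y) (h' : Realizes π x y') (a b : α) : y a < y b ↔ y' a < y' b := by
  obtain ⟨e, he1, he2⟩ := h
  obtain ⟨e', he1', he2'⟩ := h'
  have hmono : StrictMono (fun i => e'.symm (e i)) := by
    intro i j hij
    show e'.symm (e i) < e'.symm (e j)
    rw [he1']
    simpa using (he1 i j).1 hij
  have hid : (fun i => e'.symm (e i)) = id := by
    have h3 : Set.range (fun i => e'.symm (e i)) = Set.range (id : Fin n → Fin n) := by
      rw [Set.range_id, Set.range_eq_univ]
      exact e'.symm.surjective.comp e.surjective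
    exact (StrictMono.range_inj hmono strictMono_id).1 h3
  have hee : ∀ i, e i = e' i := by
    intro i
    have := congrFun hid i
    simp only [id] at this
    exact (Equiv.symm_apply_eq e').1 this
  have ha := he2 (e.symm a) (e.symm b)
  have hb := he2' (e.symm a) (e.symm b)
  rw [← hee, ← hee] at hb
  simp only [Equiv.apply_symm_apply] at ha hb
  rw [← ha, hb]

/-! ### The path of blocks -/

/-- first coordinate of block `j` -/
def X (j : ℕ) : ℤ := if Even j then (j : ℤ) - 1 else (j : ℤ) + 1

/-- second coordinate of block `j` -/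
def Y (j : ℕ) : ℤ := if Even j then (j : ℤ) + 1 else (j : ℤ) - 1

theorem X_far {i j : ℕ} (h : i + 2 ≤ j) : X i < X j := by
  unfold X
  split_ifs with h1 h2 h2
  · omega
  · omega
  · rcases Nat.lt_or_ge (i + 2) j with h3 | h3
    · omega
    · exfalso
      have : j = i + 2 := by omega
      subst this
      rw [Nat.even_add] at h2
      exact h1 (h2.2 (by decide))
  · omega

theorem Y_far {i j : ℕ} (h : i + 2 ≤ j) : Y i < Y j := by
  unfold Y
  split_ifs with h1 h2 h2
  · omega
  · rcases Nat.lt_or_ge (i + 2) j with h3 | h3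
    · omega
    · exfalso
      have : j = i + 2 := by omega
      subst this
      rw [Nat.even_add] at h2
      exact h2 ⟨fun _ => by decide, fun _ => h1⟩
  · omega
  · omega

theorem XY_next (j : ℕ) :
    (X j < X (j + 1) ∧ Y (j + 1) < Y j) ∨ (X (j + 1) < X j ∧ Y j < Y (j + 1)) := by
  unfold X Y
  by_cases h : Even j
  · have h' : ¬ Even (j + 1) := by
      rw [Nat.even_add_one]
      simpa using h
    simp only [h, h', if_true, if_false]
    left
    push_cast
    omega
  · have h' : Even (j + 1) := by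
      rw [Nat.even_add_one]
      exact h
    simp only [h, h', if_true, if_false]
    right
    push_cast
    omega

theorem X_inj : Injective X := by
  intro i j h
  rcases lt_trichotomy i j with hij | hij | hij
  · rcases Nat.lt_or_ge (i + 1) j with h2 | h2
    · exact absurd h (X_far h2).ne
    · have : j = i + 1 := by omega
      subst this
      rcases XY_next i with h3 | h3
      · exact absurd h h3.1.ne
      · exact absurd h h3.1.ne'
  · exact hij
  · rcases Nat.lt_or_ge (j + 1) i with h2 | h2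
    · exact absurd h (X_far h2).ne'
    · have : i = j + 1 := by omega
      subst this
      rcases XY_next j with h3 | h3
      · exact absurd h h3.1.ne'
      · exact absurd h h3.1.ne

theorem Y_inj : Injective Y := by
  intro i j h
  rcases lt_trichotomy i j with hij | hij | hij
  · rcases Nat.lt_or_ge (i + 1) j with h2 | h2
    · exact absurd h (Y_far h2).ne
    · have : j = i + 1 := by omega
      subst this
      rcases XY_next i with h3 | h3
      · exact absurd h h3.2.ne'
      · exact absurd h h3.2.ne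
  · exact hij
  · rcases Nat.lt_or_ge (j + 1) i with h2 | h2
    · exact absurd h (Y_far h2).ne'
    · have : i = j + 1 := by omega
      subst this
      rcases XY_next j with h3 | h3
      · exact absurd h h3.2.ne
      · exact absurd h h3.2.ne'

section blocks

variable {K m n : ℕ}

/-- comparison of `K * u + a` for `a < K` -/
theorem lex_lt {K : ℕ} {u v : ℤ} (a b : Fin K) (h : u < v) :
    (K : ℤ) * u + (a : ℕ) < K * v + (b : ℕ) := by
  have ha : ((a : ℕ) : ℤ) < K := by exact_mod_cast a.2
  have hb : (0 : ℤ) ≤ ((b : ℕ) : ℤ) := by positivity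
  have h1 : (K : ℤ) * (u + 1) ≤ K * v := mul_le_mul_of_nonneg_left (by omega) (by positivity)
  linarith

/-- first coordinate of the point `a` of block `j` -/
def xc (m K : ℕ) (p : Fin (m + 1) × Fin K) : ℤ := (K : ℤ) * X p.1 + ((p.2 : ℕ) : ℤ)

/-- second coordinate of the point `a` of block `j` -/
def yc {m K : ℕ} (ρ : Fin (m + 1) → Equiv.Perm (Fin K)) (p : Fin (m + 1) × Fin K) : ℤ :=
  (K : ℤ) * Y p.1 + (((ρ p.1) p.2 : Fin K) : ℕ)

theorem xc_lt_of_block {p q : Fin (m + 1) × Fin K} (h : X p.1 < X q.1) :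
    xc m K p < xc m K q := lex_lt _ _ h

theorem yc_lt_of_block {ρ : Fin (m + 1) → Equiv.Perm (Fin K)} {p q : Fin (m + 1) × Fin K}
    (h : Y p.1 < Y q.1) : yc ρ p < yc ρ q := lex_lt _ _ h

theorem xc_lt_same {j : Fin (m + 1)} {a b : Fin K} : xc m K (j, a) < xc m K (j, b) ↔ a < b := by
  unfold xc
  simp

theorem yc_lt_same {ρ : Fin (m + 1) → Equiv.Perm (Fin K)} {j : Fin (m + 1)} {a b : Fin K} :
    yc ρ (j, a) < yc ρ (j, b) ↔ ρ j a < ρ j b := by
  unfold yc
  simp

theorem xc_inj : Injective (xc m K) := by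
  rintro ⟨i, a⟩ ⟨j, b⟩ h
  rcases lt_trichotomy (X i) (X j) with h1 | h1 | h1
  · exact absurd h (xc_lt_of_block (p := (i, a)) (q := (j, b)) h1).ne
  · have h2 : i = j := Fin.ext (X_inj h1)
    subst h2
    unfold xc at h
    simp only [add_right_inj, Nat.cast_inj] at h
    rw [Fin.ext h]
  · exact absurd h (xc_lt_of_block (p := (j, b)) (q := (i, a)) h1).ne'

theorem yc_inj (ρ : Fin (m + 1) → Equiv.Perm (Fin K)) : Injective (yc ρ) := by
  rintro ⟨i, a⟩ ⟨j, b⟩ h
  rcases lt_trichotomy (Y i) (Y j) with h1 | h1 | h1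
  · exact absurd h (yc_lt_of_block (p := (i, a)) (q := (j, b)) h1).ne
  · have h2 : i = j := Fin.ext (Y_inj h1)
    subst h2
    unfold yc at h
    simp only [add_right_inj, Nat.cast_inj] at h
    rw [(ρ i).injective (Fin.ext h)]
  · exact absurd h (yc_lt_of_block (p := (j, b)) (q := (i, a)) h1).ne'

/-- `p` is to the left of and above `q` -/
def D (ρ : Fin (m + 1) → Equiv.Perm (Fin K)) (p q : Fin (m + 1) × Fin K) : Prop :=
  xc m K p < xc m K q ∧ yc ρ q < yc ρ p

/-- inverted points are in neighbouring blocks or in the same block -/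
theorem D_near {ρ : Fin (m + 1) → Equiv.Perm (Fin K)} {p q : Fin (m + 1) × Fin K}
    (h : D ρ p q) : (p.1 : ℕ) ≤ q.1 + 1 ∧ (q.1 : ℕ) ≤ p.1 + 1 := by
  constructor
  · by_contra hc
    exact absurd h.1 (not_lt.2 (xc_lt_of_block (X_far (by omega))).le)
  · by_contra hc
    exact absurd h.2 (not_lt.2 (yc_lt_of_block (Y_far (by omega))).le)

/-- points of neighbouring blocks are inverted -/
theorem D_next (ρ : Fin (m + 1) → Equiv.Perm (Fin K)) {p q : Fin (m + 1) × Fin K}
    (h : (q.1 : ℕ) = p.1 + 1) : D ρ p q ∨ D ρ q p := by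
  rcases XY_next (p.1 : ℕ) with h1 | h1
  · left
    rw [← h] at h1
    exact ⟨xc_lt_of_block h1.1, yc_lt_of_block h1.2⟩
  · right
    rw [← h] at h1
    exact ⟨xc_lt_of_block h1.1, yc_lt_of_block h1.2⟩

/-- all decreasing subsequences of `σ` have length at most `k` -/
def Small (k : ℕ) (σ : Equiv.Perm (Fin K)) : Prop :=
  ∀ S : Finset (Fin K), (∀ a ∈ S, ∀ b ∈ S, a < b → σ b < σ a) → S.card ≤ k

/-- the end blocks are decreasing, the others have only short decreasing subsequences -/
def Good (k : ℕ) (ρ : Fin (m + 1) → Equiv.Perm (Fin K)) : Prop :=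
  (∀ a b, a < b → ρ 0 b < ρ 0 a) ∧ (∀ a b, a < b → ρ (Fin.last m) b < ρ (Fin.last m) a) ∧
    ∀ j, j ≠ 0 → j ≠ Fin.last m → Small k (ρ j)

/-- a decreasing sequence of length `2 k + 1` meets an end block -/
theorem meets_end {k : ℕ} {ρ : Fin (m + 1) → Equiv.Perm (Fin K)} (hρ : Good k ρ)
    (hK : 2 * k < K) (g : Fin K → Fin (m + 1) × Fin K) (hg : ∀ a b, a < b → D ρ (g a) (g b)) :
    ∃ a, (g a).1 = 0 ∨ (g a).1 = Fin.last m := by
  by_contra hcon
  push Not at hcon
  have hK0 : 0 < K := by omega
  have hne : (Finset.univ : Finset (Fin K)).Nonempty := ⟨⟨0, hK0⟩, Finset.mem_univ _⟩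
  obtain ⟨a₀, -, ha₀⟩ := Finset.exists_min_image Finset.univ (fun a => ((g a).1 : ℕ)) hne
  -- the bound for the number of elements of one block
  have hcard : ∀ j : Fin (m + 1), j ≠ 0 → j ≠ Fin.last m →
      (Finset.univ.filter (fun a => (g a).1 = j)).card ≤ k := by
    intro j hj0 hjm
    have hsm := hρ.2.2 j hj0 hjm
    set S := Finset.univ.filter (fun a => (g a).1 = j) with hS
    have hpair : ∀ a ∈ S, ∀ b ∈ S, a < b → (g a).2 < (g b).2 ∧ ρ j (g b).2 < ρ j (g a).2 := by
      intro a ha b hb hab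
      rw [hS, Finset.mem_filter] at ha hb
      have h1 := hg a b hab
      have ea : g a = (j, (g a).2) := Prod.ext ha.2 rfl
      have eb : g b = (j, (g b).2) := Prod.ext hb.2 rfl
      rw [ea, eb] at h1
      exact ⟨xc_lt_same.1 h1.1, yc_lt_same.1 h1.2⟩
    have hinj : Set.InjOn (fun a => (g a).2) (S : Set (Fin K)) := by
      intro a ha b hb hab
      rcases lt_trichotomy a b with h | h | h
      · exact absurd hab (hpair a ha b hb h).1.ne
      · exact h
      · exact absurd hab (hpair b hb a ha h).1.ne'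
    rw [← Finset.card_image_of_injOn hinj]
    apply hsm
    intro u hu v hv huv
    obtain ⟨a, ha, rfl⟩ := Finset.mem_image.1 hu
    obtain ⟨b, hb, rfl⟩ := Finset.mem_image.1 hv
    rcases lt_trichotomy a b with h | h | h
    · exact (hpair a ha b hb h).2
    · subst h
      exact absurd huv (lt_irrefl _)
    · exact absurd huv (not_lt.2 (hpair b hb a ha h).1.le)
  -- all elements are in two blocks
  have hnear : ∀ a, ((g a).1 : ℕ) = (g a₀).1 ∨ ((g a).1 : ℕ) = (g a₀).1 + 1 := by
    intro a
    have h1 := ha₀ a (Finset.mem_univ _)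
    rcases lt_trichotomy a a₀ with h | h | h
    · have := D_near (hg a a₀ h)
      omega
    · subst h
      left; rfl
    · have := D_near (hg a₀ a h)
      omega
  by_cases hex : ∃ b, ((g b).1 : ℕ) = (g a₀).1 + 1
  · obtain ⟨b, hb⟩ := hex
    have hsub : (Finset.univ : Finset (Fin K)) ⊆
        Finset.univ.filter (fun a => (g a).1 = (g a₀).1) ∪
          Finset.univ.filter (fun a => (g a).1 = (g b).1) := by
      intro a _
      rw [Finset.mem_union, Finset.mem_filter, Finset.mem_filter]
      rcases hnear a with h | h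
      · left
        exact ⟨Finset.mem_univ _, Fin.ext h⟩
      · right
        exact ⟨Finset.mem_univ _, Fin.ext (by omega)⟩
    have h1 := Finset.card_le_card hsub
    have h2 := h1.trans (Finset.card_union_le _ _)
    have h3 := hcard _ (hcon a₀).1 (hcon a₀).2
    have h4 := hcard _ (hcon b).1 (hcon b).2
    rw [Finset.card_univ, Fintype.card_fin] at h2
    omega
  · push Not at hex
    have hsub : (Finset.univ : Finset (Fin K)) ⊆
        Finset.univ.filter (fun a => (g a).1 = (g a₀).1) := by
      intro a _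
      rw [Finset.mem_filter]
      rcases hnear a with h | h
      · exact ⟨Finset.mem_univ _, Fin.ext h⟩
      · exact absurd h (hex a)
    have h2 := Finset.card_le_card hsub
    have h3 := hcard _ (hcon a₀).1 (hcon a₀).2
    rw [Finset.card_univ, Fintype.card_fin] at h2
    omega

/-- two different points of the same end block are inverted -/
theorem D_end {k : ℕ} {ρ : Fin (m + 1) → Equiv.Perm (Fin K)} (hρ : Good k ρ)
    {p q : Fin (m + 1) × Fin K} (h : (p.1 = 0 ∧ q.1 = 0) ∨ (p.1 = Fin.last m ∧ q.1 = Fin.last m))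
    (hx : xc m K p < xc m K q) : yc ρ q < yc ρ p := by
  obtain ⟨i, a⟩ := p
  obtain ⟨j, b⟩ := q
  rcases h with ⟨h1, h2⟩ | ⟨h1, h2⟩
  · simp only at h1 h2
    subst h1
    subst h2
    exact yc_lt_same.2 (hρ.1 a b (xc_lt_same.1 hx))
  · simp only at h1 h2
    subst h1
    subst h2
    exact yc_lt_same.2 (hρ.2.1 a b (xc_lt_same.1 hx))

/-- the number of blocks does not drop in an embedding -/
theorem blocks_le {k : ℕ} {ρ : Fin (m + 1) → Equiv.Perm (Fin K)}
    {ρ' : Fin (n + 1) → Equiv.Perm (Fin K)} (hρ : Good k ρ) (hρ' : Good k ρ') (hm : 2 ≤ m)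
    (hK : 2 * k < K) (f : Fin (m + 1) × Fin K → Fin (n + 1) × Fin K)
    (hx : ∀ p q, xc m K p < xc m K q → xc n K (f p) < xc n K (f q))
    (hy : ∀ p q, yc ρ p < yc ρ q → yc ρ' (f p) < yc ρ' (f q)) : n ≤ m := by
  have hD : ∀ p q, D ρ p q → D ρ' (f p) (f q) := fun p q h => ⟨hx p q h.1, hy q p h.2⟩
  have hK0 : 0 < K := by omega
  obtain ⟨a, ha⟩ := meets_end hρ' hK (fun a => f (0, a)) (fun a b hab =>
    hD _ _ ⟨xc_lt_same.2 hab, yc_lt_same.2 (hρ.1 a b hab)⟩)
  obtain ⟨b, hb⟩ := meets_end hρ' hK (fun a => f (Fin.last m, a)) (fun a b hab =>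
    hD _ _ ⟨xc_lt_same.2 hab, yc_lt_same.2 (hρ.2.1 a b hab)⟩)
  -- the path of points
  let r : ℕ → Fin (m + 1) × Fin K := fun j =>
    if h0 : j = 0 then (0, a) else if h : j < m then (⟨j, by omega⟩, ⟨0, hK0⟩) else (Fin.last m, b)
  have hr0 : r 0 = (0, a) := by simp [r]
  have hrm : r m = (Fin.last m, b) := by
    have : m ≠ 0 := by omega
    simp [r, this]
  have hrb : ∀ j, j ≤ m → ((r j).1 : ℕ) = j := by
    intro j hj
    simp only [r]
    split_ifs with h1 h2
    · simp [h1]
    · rfl
    · simp only [Fin.val_last]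
      omega
  have hstep : ∀ j, j + 1 ≤ m →
      ((f (r (j + 1))).1 : ℕ) ≤ (f (r j)).1 + 1 ∧ ((f (r j)).1 : ℕ) ≤ (f (r (j + 1))).1 + 1 := by
    intro j hj
    have h1 : ((r (j + 1)).1 : ℕ) = (r j).1 + 1 := by
      rw [hrb _ hj, hrb _ (by omega)]
    rcases D_next ρ h1 with h2 | h2
    · have h3 := D_near (hD _ _ h2)
      omega
    · have h3 := D_near (hD _ _ h2)
      omega
  have hwalk : ∀ j, j ≤ m →
      ((f (r j)).1 : ℕ) ≤ (f (r 0)).1 + j ∧ ((f (r 0)).1 : ℕ) ≤ (f (r j)).1 + j := by
    intro j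
    induction j with
    | zero => intro _; omega
    | succ j ih =>
      intro hj
      have h1 := ih (by omega)
      have h2 := hstep j hj
      omega
  have hend := hwalk m le_rfl
  rw [hr0, hrm] at hend
  -- the two ends go to different ends
  have hdiff : ¬ ((((f (0, a)).1 = 0 ∧ (f (Fin.last m, b)).1 = 0)) ∨
      ((f (0, a)).1 = Fin.last n ∧ (f (Fin.last m, b)).1 = Fin.last n)) := by
    intro h
    have hx1 : xc m K (0, a) < xc m K (Fin.last m, b) := by
      apply xc_lt_of_block
      apply X_far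
      simp only [Fin.val_zero, Fin.val_last]
      omega
    have hy1 : yc ρ (0, a) < yc ρ (Fin.last m, b) := by
      apply yc_lt_of_block
      apply Y_far
      simp only [Fin.val_zero, Fin.val_last]
      omega
    exact absurd (hy _ _ hy1) (not_lt.2 (D_end hρ' h (hx _ _ hx1)).le)
  have ha' : (f (0, a)).1 = 0 ∨ (f (0, a)).1 = Fin.last n := ha
  have hb' : (f (Fin.last m, b)).1 = 0 ∨ (f (Fin.last m, b)).1 = Fin.last n := hb
  rcases ha' with h1 | h1 <;> rcases hb' with h2 | h2
  · exact absurd (Or.inl ⟨h1, h2⟩) hdiff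
  · rw [h1, h2] at hend
    simp only [Fin.val_zero, Fin.val_last] at hend
    omega
  · rw [h1, h2] at hend
    simp only [Fin.val_zero, Fin.val_last] at hend
    omega
  · exact absurd (Or.inr ⟨h1, h2⟩) hdiff

end blocks

/-! ### The antichain -/

/-- the antichain -/
def chainSet (k : ℕ) : Set AllPerms :=
  {p | ∃ m : ℕ, 2 ≤ m ∧ ∃ ρ : Fin (m + 1) → Equiv.Perm (Fin (2 * k + 1)), Good k ρ ∧
    p.1 = (m + 1) * (2 * k + 1) ∧ Realizes p.2 (xc m (2 * k + 1)) (yc ρ)}

theorem chainSet_antichain (k : ℕ) : IsPermAntichain (chainSet k) := by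
  rintro ⟨N, π⟩ ⟨m, hm, ρ, hρ, hN, hπ⟩ ⟨N', π'⟩ ⟨m', hm', ρ', hρ', hN', hπ'⟩ hne hc
  simp only at hN hN' hπ hπ' hc
  obtain ⟨f, hf1, hf2⟩ := map_of_contains hπ' hπ hc
  have h1 : m ≤ m' := blocks_le hρ' hρ hm' (by omega) f hf1 hf2
  have h2 : N' ≤ N := contains_le hc
  have h3 : m' + 1 ≤ m + 1 := by
    rw [hN, hN'] at h2
    exact Nat.le_of_mul_le_mul_right h2 (by omega)
  have h4 : m = m' := by omega
  subst h4
  have h5 : N = N' := by rw [hN, hN']
  subst h5
  exact hne (by rw [eq_of_contains_same hc])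

/-! ### Counting -/

/-- `τ ⊕ id` -/
noncomputable def ext (k : ℕ) (τ : Equiv.Perm (Fin k)) : Equiv.Perm (Fin (2 * k + 1)) :=
  τ.viaEmbedding (Fin.castLEEmb (show k ≤ 2 * k + 1 by omega))

theorem ext_small {k : ℕ} (hk : 1 ≤ k) (τ : Equiv.Perm (Fin k)) : Small k (ext k τ) := by
  intro S hS
  have hle : k ≤ 2 * k + 1 := by omega
  have hfix : ∀ a : Fin (2 * k + 1), k ≤ (a : ℕ) → ext k τ a = a := by
    intro a ha
    apply Equiv.Perm.viaEmbedding_apply_of_notMem
    rintro ⟨b, hb⟩
    have : (b : ℕ) = a := congrArg Fin.val hb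
    have := b.2
    omega
  have hlow : ∀ a : Fin (2 * k + 1), (a : ℕ) < k → ((ext k τ a : Fin (2 * k + 1)) : ℕ) < k := by
    intro a ha
    have h1 : ext k τ ((Fin.castLEEmb hle) ⟨a, ha⟩) = _ :=
      Equiv.Perm.viaEmbedding_apply τ (Fin.castLEEmb hle) ⟨a, ha⟩
    have h2 : (Fin.castLEEmb hle) ⟨a, ha⟩ = a := rfl
    rw [h2] at h1
    rw [h1]
    exact (τ ⟨a, ha⟩).2
  by_cases hex : ∃ a ∈ S, k ≤ (a : ℕ)
  · -- then `S` has at most one element
    obtain ⟨a, haS, hak⟩ := hex
    have : S.card ≤ 1 := by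
      rw [Finset.card_le_one]
      have key : ∀ b ∈ S, b = a := by
        intro b hb
        rcases lt_trichotomy a b with h | h | h
        · have h1 := hS a haS b hb h
          rw [hfix a hak, hfix b (by have : (a : ℕ) < b := h; omega)] at h1
          exact absurd h1 (not_lt.2 h.le)
        · exact h.symm
        · have h1 := hS b hb a haS h
          rw [hfix a hak] at h1
          rcases Nat.lt_or_ge (b : ℕ) k with h2 | h2
          · have h3 := hlow b h2
            have h4 : (a : ℕ) < ext k τ b := h1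
            omega
          · rw [hfix b h2] at h1
            exact absurd h1 (not_lt.2 h.le)
      intro b hb c hc
      rw [key b hb, key c hc]
    omega
  · push Not at hex
    have hsub : S ⊆ Finset.univ.image (Fin.castLE hle) := by
      intro a ha
      rw [Finset.mem_image]
      exact ⟨⟨a, hex a ha⟩, Finset.mem_univ _, rfl⟩
    have h1 := Finset.card_le_card hsub
    have h2 : (Finset.univ.image (Fin.castLE hle)).card ≤ k := by
      refine Finset.card_image_le.trans ?_
      simp
    exact h1.trans h2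

theorem ext_inj (k : ℕ) : Injective (ext k) := by
  intro τ τ' h
  have := Equiv.Perm.viaEmbeddingHom_injective
    (Fin.castLEEmb (show k ≤ 2 * k + 1 by omega))
  exact this h

/-- the blocks -/
noncomputable def blocks (k m : ℕ) (τ : Fin (m - 1) → Equiv.Perm (Fin k)) :
    Fin (m + 1) → Equiv.Perm (Fin (2 * k + 1)) := fun j =>
  if h : 0 < (j : ℕ) ∧ (j : ℕ) < m then ext k (τ ⟨j - 1, by omega⟩) else Fin.revPerm

theorem blocks_good {k m : ℕ} (hk : 1 ≤ k) (τ : Fin (m - 1) → Equiv.Perm (Fin k)) :
    Good k (blocks k m τ) := by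
  refine ⟨?_, ?_, ?_⟩
  · intro a b hab
    simp only [blocks, Fin.val_zero, lt_irrefl, false_and]
    simpa using hab
  · intro a b hab
    simp only [blocks, Fin.val_last, lt_irrefl, and_false, dif_neg, not_false_eq_true]
    simpa using hab
  · intro j hj0 hjm
    have h1 : 0 < (j : ℕ) ∧ (j : ℕ) < m := by
      constructor
      · rcases Nat.eq_zero_or_pos (j : ℕ) with h | h
        · exact absurd (Fin.ext h) hj0
        · exact h
      · rcases Nat.lt_or_ge (j : ℕ) m with h | h
        · exact h
        · refine absurd (Fin.ext ?_) hjm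
          simp only [Fin.val_last]
          have := j.2
          omega
    simp only [blocks, h1, and_self, dif_pos]
    exact ext_small hk _

theorem blocks_inj {k m : ℕ} (τ τ' : Fin (m - 1) → Equiv.Perm (Fin k))
    (h : blocks k m τ = blocks k m τ') : τ = τ' := by
  funext i
  have hi := i.2
  have h1 := congrFun h ⟨i + 1, by omega⟩
  have h2 : 0 < (i : ℕ) + 1 ∧ (i : ℕ) + 1 < m := by omega
  simp only [blocks, h2, and_self, dif_pos] at h1
  have h3 := ext_inj k h1
  simpa using h3

theorem level_ge {k m : ℕ} (hk : 1 ≤ k) (hm : 2 ≤ m) :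
    k.factorial ^ (m - 1) ≤ level (chainSet k) ((m + 1) * (2 * k + 1)) := by
  classical
  have hcard : Fintype.card (Fin (m + 1) × Fin (2 * k + 1)) = (m + 1) * (2 * k + 1) := by simp
  have hex : ∀ τ : Fin (m - 1) → Equiv.Perm (Fin k),
      ∃ π : Equiv.Perm (Fin ((m + 1) * (2 * k + 1))),
        Realizes π (xc m (2 * k + 1)) (yc (blocks k m τ)) := fun τ =>
    exists_realizes _ _ xc_inj (yc_inj _) hcard
  choose F hF using hex
  have hinj : Injective F := by
    intro τ τ' h
    apply blocks_inj
    funext j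
    apply perm_ext_lt
    intro a b
    have h1 := hF τ
    rw [h] at h1
    have h2 := order_unique h1 (hF τ') (j, a) (j, b)
    rwa [yc_lt_same, yc_lt_same] at h2
  have hmem : Set.range F ⊆ {π | (⟨_, π⟩ : AllPerms) ∈ chainSet k} := by
    rintro _ ⟨τ, rfl⟩
    exact ⟨m, hm, blocks k m τ, blocks_good hk τ, rfl, hF τ⟩
  have h1 : (Set.range F).ncard = k.factorial ^ (m - 1) := by
    rw [← Set.image_univ, Set.ncard_image_of_injective _ hinj, Set.ncard_univ]
    simp [Fintype.card_perm]
  rw [← h1]
  exact Set.ncard_le_ncard hmem (Set.toFinite _)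

/-- a good parameter -/
theorem exists_k (B : ℕ) : ∃ k : ℕ, 1 ≤ k ∧ B ^ (2 * (2 * k + 1)) ≤ k.factorial := by
  have h := FloorSemiring.tendsto_pow_div_factorial_atTop ((B : ℝ) ^ 4)
  have h2 : Tendsto (fun n : ℕ => (B : ℝ) ^ 2 * (((B : ℝ) ^ 4) ^ n / (n.factorial : ℝ))) atTop
      (nhds ((B : ℝ) ^ 2 * 0)) := h.const_mul _
  rw [mul_zero] at h2
  have h3 := (h2.eventually (gt_mem_nhds (show (0 : ℝ) < 1 by norm_num))).and
    (eventually_ge_atTop 1)
  obtain ⟨k, hk1, hk2⟩ := h3.exists
  refine ⟨k, hk2, ?_⟩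
  have h4 : (0 : ℝ) < k.factorial := by positivity
  have h5 : (B : ℝ) ^ 2 * ((B : ℝ) ^ 4) ^ k < k.factorial := by
    rw [← mul_div_assoc, div_lt_one h4] at hk1
    exact hk1
  have h6 : (B : ℝ) ^ (2 * (2 * k + 1)) ≤ k.factorial := by
    have : (B : ℝ) ^ (2 * (2 * k + 1)) = (B : ℝ) ^ 2 * ((B : ℝ) ^ 4) ^ k := by ring
    rw [this]
    exact h5.le
  exact_mod_cast h6

theorem growth_ge (B : ℕ) : ∃ X : Set AllPerms, IsPermAntichain X ∧ (B : ℝ≥0∞) ≤ upperGrowth X := by
  rcases Nat.eq_zero_or_pos B with hB | hB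
  · exact ⟨∅, fun p hp => absurd hp (Set.notMem_empty p), by simp [hB]⟩
  obtain ⟨k, hk, hB2⟩ := exists_k B
  refine ⟨chainSet k, chainSet_antichain k, ?_⟩
  unfold upperGrowth
  refine le_limsup_of_frequently_le ?_ (by isBoundedDefault)
  · rw [frequently_atTop]
    intro a
    have hm3 : 3 ≤ a + 3 := by omega
    refine ⟨(a + 3 + 1) * (2 * k + 1), ?_, ?_⟩
    · nlinarith
    · set m := a + 3 with hm
      set N := (m + 1) * (2 * k + 1) with hN
      have h1 : B ^ N ≤ level (chainSet k) N := by
        refine le_trans ?_ (level_ge hk (by omega : 2 ≤ m))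
        calc B ^ N ≤ B ^ (2 * (2 * k + 1) * (m - 1)) := by
              apply Nat.pow_le_pow_right hB
              rw [hN]
              have : m + 1 ≤ 2 * (m - 1) := by omega
              nlinarith
          _ = (B ^ (2 * (2 * k + 1))) ^ (m - 1) := by rw [pow_mul]
          _ ≤ k.factorial ^ (m - 1) := Nat.pow_le_pow_left hB2 _
      have hN0 : (N : ℝ) ≠ 0 := by
        have : 0 < N := by positivity
        positivity
      have h2 : ((B : ℝ≥0∞) ^ N) ≤ (level (chainSet k) N : ℝ≥0∞) := by exact_mod_cast h1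
      calc (B : ℝ≥0∞) = ((B : ℝ≥0∞) ^ (N : ℝ)) ^ ((1 : ℝ) / N) := by
            rw [← ENNReal.rpow_mul, mul_one_div_cancel hN0, ENNReal.rpow_one]
        _ = ((B : ℝ≥0∞) ^ N) ^ ((1 : ℝ) / N) := by rw [ENNReal.rpow_natCast]
        _ ≤ _ := ENNReal.rpow_le_rpow h2 (by positivity)

/-- **The supremum of the upper growth rates of antichains of permutations is `∞`.** -/
theorem result :
    (⨆ (X : Set AllPerms) (_ : IsPermAntichain X), upperGrowth X) = (⊤ : ℝ≥0∞) := by
  refine ENNReal.eq_top_of_forall_nnreal_le fun r => ?_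
  obtain ⟨B, hB⟩ := exists_nat_ge r
  obtain ⟨X, hX, h⟩ := growth_ge B
  refine le_trans ?_ (le_iSup₂_of_le X hX h)
  exact_mod_cast hB

end Pool.Agent.K6.H23.AntichainGrowth
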