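import Mathlib

set_option autoImplicit false
set_option linter.unusedVariables false

namespace Pool.Agent.K6.H23.HR

open Finset Equiv

/-- The number of `ω` with prescribed (consistent) values. -/
theorem card_omega {V ι : Type*} [Fintype V] [Fintype ι] [DecidableEq ι] (g : V → ι) (t : V → Bool)
    (h : ∀ v w, g v = g w → t v = t w) :
    (univ.filter fun ω : ι → Bool => ∀ v, ω (g v) = t v).card * 2 ^ (univ.image g).card
      = 2 ^ Fintype.card ι := by
  classical
  have key : (univ.filter fun ω : ι → Bool => ∀ v, ω (g v) = t v) =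
      Fintype.piFinset (fun i => if hi : ∃ v, g v = i then {t hi.choose} else univ) := by
    ext ω
    simp only [mem_filter, mem_univ, true_and, Fintype.mem_piFinset]
    constructor
    · intro hω i
      split_ifs with hi
      · rw [mem_singleton, ← hω, hi.choose_spec]
      · exact mem_univ _
    · intro hω v
      have h1 := hω (g v)
      have hi : ∃ w, g w = g v := ⟨v, rfl⟩
      rw [dif_pos hi, mem_singleton] at h1
      rw [h1]
      exact h _ _ hi.choose_spec
  rw [key, Fintype.card_piFinset]
  have h2 : ∀ i : ι, ((if hi : ∃ v, g v = i then {t hi.choose} else univ : Finset Bool)).card =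
      if i ∈ univ.image g then 1 else 2 := by
    intro i
    by_cases hi : ∃ v, g v = i
    · rw [dif_pos hi, if_pos (by simpa using hi)]; simp
    · rw [dif_neg hi, if_neg (by simpa using hi)]; simp
  simp_rw [h2]
  have h3 : 2 ^ (univ.image g).card = ∏ i : ι, (if i ∈ univ.image g then 2 else 1) := by
    rw [Finset.prod_ite_mem, univ_inter, Finset.prod_const]
  rw [h3, ← Finset.prod_mul_distrib]
  have h4 : ∀ i : ι, ((if i ∈ univ.image g then 1 else 2) * (if i ∈ univ.image g then 2 else 1)) = 2 := by
    intro i; split_ifs <;> rfl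
  simp_rw [h4]
  simp

/-- The Hamilton cycles of the complete graph, as permutations. -/
noncomputable def HC (n : ℕ) : Finset (Perm (Fin n)) := by
  classical exact univ.filter fun c => c.IsCycle ∧ c.support = univ

theorem card_HC {n : ℕ} (hn : 3 ≤ n) : (HC n).card = (n - 1).factorial := by
  have h := Equiv.Perm.card_of_cycleType_singleton (α := Fin n) (n := n) (by omega) (by simp)
  rw [Fintype.card_fin, Nat.choose_self, mul_one] at h
  rw [← h]
  congr 1
  ext c
  simp only [HC, mem_filter, mem_univ, true_and]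
  constructor
  · rintro ⟨h1, h2⟩
    rw [h1.cycleType, h2]; simp
  · intro h1
    have hc : c.IsCycle := by
      rw [← Equiv.Perm.card_cycleType_eq_one, h1]; simp
    refine ⟨hc, ?_⟩
    rw [hc.cycleType] at h1
    have h2 : c.support.card = n := by simpa using h1
    exact Finset.eq_univ_of_card _ (by rw [h2]; simp)

theorem HC_pow {n m : ℕ} {c : Perm (Fin n)} (hc : c ∈ HC n) {x : Fin n} (hx : (c ^ m) x = x) :
    n ∣ m := by
  simp only [HC, mem_filter, mem_univ, true_and] at hc
  have h1 : c x ≠ x := by
    have : x ∈ c.support := by rw [hc.2]; exact mem_univ _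
    exact Equiv.Perm.mem_support.1 this
  have h2 : c ^ m = 1 := (hc.1.pow_eq_one_iff' h1).2 hx
  have h3 := orderOf_dvd_of_pow_eq_one h2
  rwa [hc.1.orderOf, hc.2, Finset.card_univ, Fintype.card_fin] at h3

theorem HC_ne {n : ℕ} {c : Perm (Fin n)} (hc : c ∈ HC n) (x : Fin n) : c x ≠ x := by
  simp only [HC, mem_filter, mem_univ, true_and] at hc
  have : x ∈ c.support := by rw [hc.2]; exact mem_univ _
  exact Equiv.Perm.mem_support.1 this

theorem HC_two {n : ℕ} (hn : 3 ≤ n) {c : Perm (Fin n)} (hc : c ∈ HC n) {x y : Fin n}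
    (h1 : c x = y) (h2 : c y = x) : False := by
  have := HC_pow (m := 2) (x := x) hc (by rw [pow_two, Perm.mul_apply, h1, h2])
  have := Nat.le_of_dvd (by norm_num) this
  omega

theorem HC_four {n : ℕ} (hn : 5 ≤ n) {c : Perm (Fin n)} (hc : c ∈ HC n) {x y z w : Fin n}
    (h1 : c x = y) (h2 : c y = z) (h3 : c z = w) (h4 : c w = x) : False := by
  have := HC_pow (m := 4) (x := x) hc (by
    have e : c ^ 4 = c * (c * (c * c)) := by
      rw [pow_succ, pow_succ, pow_two]; simp only [mul_assoc]
    rw [e]
    simp only [Perm.mul_apply]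
    rw [h1, h2, h3, h4])
  have := Nat.le_of_dvd (by norm_num) this
  omega

theorem HC_conj {n : ℕ} {c : Perm (Fin n)} (hc : c ∈ HC n) (s : Perm (Fin n)) :
    s * c * s⁻¹ ∈ HC n := by
  simp only [HC, mem_filter, mem_univ, true_and] at hc ⊢
  refine ⟨hc.1.conj, ?_⟩
  rw [Perm.support_conj, hc.2]; simp

section main

variable {n : ℕ} {ι : Type*} [Fintype ι] [DecidableEq ι]

/-- The directions of the arcs of `c` do not contradict each other. -/
def Cons (p : Fin n → Fin n → ι) (r : Fin n → Fin n → Bool) (c : Perm (Fin n)) : Prop :=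
  ∀ v w, p v (c v) = p w (c w) → r v (c v) = r w (c w)

theorem exists_tournament (hn : 3 ≤ n) (p : Fin n → Fin n → ι) (r : Fin n → Fin n → Bool)
    (σ : Fin n → Fin n → Fin n)
    (hp : ∀ x y, p x y = p y x) (hr : ∀ x y, x ≠ y → r x y = !(r y x))
    (hσ : ∀ v w, w ≠ v → σ v w ≠ v ∧ σ v (σ v w) = w ∧ p v (σ v w) = p v w ∧
      r v (σ v w) = !(r v w))
    (J : Finset (Perm (Fin n)))
    (hJ : ∀ c ∈ J, c ∈ HC n ∧ Cons p r c ∧ ∃ v w, v ≠ w ∧ p v (c v) = p w (c w))
    (B : Finset (Perm (Fin n)))
    (hB : ∀ c ∈ HC n, ¬ Cons p r c → c ∈ B) (hBJ : B.card ≤ J.card) :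
    ∃ adj : Fin n → Fin n → Prop,
        (∀ v, ¬ adj v v) ∧
        (∀ v w, v ≠ w → (adj v w ↔ ¬ adj w v)) ∧
        (∀ v, {w : Fin n | adj v w}.ncard = (n - 1) / 2) ∧
        ((Nat.factorial (n - 1) : ℝ) / (2 : ℝ) ^ n ≤
          (({c : Equiv.Perm (Fin n) |
              c.IsCycle ∧ c.support = Finset.univ ∧ ∀ v, adj v (c v)}.ncard : ℕ) : ℝ)) := by
  classical
  -- the sum over the Hamilton cycles
  have hcount : ∀ c ∈ HC n,
      (if Cons p r c then 2 ^ Fintype.card ι else 0) + (if c ∈ J then 2 ^ Fintype.card ι else 0) ≤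
      (univ.filter fun ω : ι → Bool => ∀ v, ω (p v (c v)) = r v (c v)).card * 2 ^ n := by
    intro c hc
    by_cases hcons : Cons p r c
    · rw [if_pos hcons]
      have h1 : (univ.filter fun ω : ι → Bool => ∀ v, ω (p v (c v)) = r v (c v)).card *
          2 ^ (univ.image (fun v => p v (c v))).card = 2 ^ Fintype.card ι := by
        convert card_omega (fun v => p v (c v)) (fun v => r v (c v)) hcons
      have h2 : (univ.image (fun v => p v (c v))).card ≤ n := by
        calc _ ≤ (univ : Finset (Fin n)).card := Finset.card_image_le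
          _ = n := by simp
      by_cases hcJ : c ∈ J
      · rw [if_pos hcJ]
        obtain ⟨-, -, v, w, hvw, he⟩ := hJ c hcJ
        have h3 : (univ.image (fun v => p v (c v))).card < n := by
          refine lt_of_le_of_ne h2 ?_
          intro h4
          have h5 : (univ.image (fun v => p v (c v))).card = (univ : Finset (Fin n)).card := by
            rw [h4]; simp
          rw [Finset.card_image_iff] at h5
          exact hvw (h5 (by simp) (by simp) he)
        rw [← h1]
        rw [← mul_two, mul_assoc, ← pow_succ]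
        exact Nat.mul_le_mul_left _ (Nat.pow_le_pow_right (by norm_num) h3)
      · rw [if_neg hcJ, add_zero, ← h1]
        exact Nat.mul_le_mul_left _ (Nat.pow_le_pow_right (n := 2) (by norm_num) h2)
    · rw [if_neg hcons]
      have hcJ : c ∉ J := fun h => hcons (hJ c h).2.1
      rw [if_neg hcJ]; omega
  have hsum : (n - 1).factorial * 2 ^ Fintype.card ι ≤
      ∑ c ∈ HC n, (univ.filter fun ω : ι → Bool => ∀ v, ω (p v (c v)) = r v (c v)).card * 2 ^ n := by
    refine le_trans ?_ (Finset.sum_le_sum hcount)
    rw [Finset.sum_add_distrib, ← Finset.sum_filter, ← Finset.sum_filter, Finset.sum_const,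
      Finset.sum_const, smul_eq_mul, smul_eq_mul, ← add_mul]
    refine Nat.mul_le_mul_right _ ?_
    have h1 : (HC n).filter (fun c => c ∈ J) = J := by
      ext c; simp only [mem_filter]; exact ⟨fun h => h.2, fun h => ⟨(hJ c h).1, h⟩⟩
    rw [h1, ← card_HC hn]
    have h2 : ((HC n).filter fun c => ¬ Cons p r c) ⊆ B := by
      intro c hc
      rw [mem_filter] at hc
      exact hB c hc.1 hc.2
    have h3 := Finset.card_le_card h2
    have h4 := Finset.card_filter_add_card_filter_not (s := HC n) (fun c => Cons p r c)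
    omega
  -- exchange the sums
  have hex : ∑ c ∈ HC n, (univ.filter fun ω : ι → Bool => ∀ v, ω (p v (c v)) = r v (c v)).card =
      ∑ ω : ι → Bool, ((HC n).filter fun c => ∀ v, ω (p v (c v)) = r v (c v)).card := by
    simp_rw [Finset.card_filter]
    exact Finset.sum_comm
  obtain ⟨ω, hω⟩ : ∃ ω : ι → Bool, (n - 1).factorial ≤
      ((HC n).filter fun c => ∀ v, ω (p v (c v)) = r v (c v)).card * 2 ^ n := by
    by_contra hcon
    push Not at hcon
    rw [← Finset.sum_mul, hex, Finset.sum_mul] at hsum
    have h1 : ∑ ω : ι → Bool, ((HC n).filter fun c => ∀ v, ω (p v (c v)) = r v (c v)).card * 2 ^ n <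
        ∑ ω : ι → Bool, (n - 1).factorial := by
      refine Finset.sum_lt_sum_of_nonempty ⟨fun _ => true, mem_univ _⟩ (fun ω _ => hcon ω)
    rw [Finset.sum_const, Finset.card_univ, Fintype.card_fun, Fintype.card_bool, smul_eq_mul] at h1
    rw [mul_comm] at hsum
    omega
  refine ⟨fun x y => x ≠ y ∧ ω (p x y) = r x y, fun v h => h.1 rfl, ?_, ?_, ?_⟩
  · intro v w hvw
    show (v ≠ w ∧ ω (p v w) = r v w) ↔ ¬ (w ≠ v ∧ ω (p w v) = r w v)
    rw [hp w v]
    have h1 := hr v w hvw
    constructor
    · rintro ⟨_, h2⟩ ⟨_, h3⟩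
      rw [h2, h1] at h3
      cases h4 : r w v <;> rw [h4] at h3 <;> simp at h3
    · intro h2
      refine ⟨hvw, ?_⟩
      by_contra h3
      apply h2
      refine ⟨hvw.symm, ?_⟩
      rw [h1] at h3
      cases h4 : r w v <;> cases h5 : ω (p v w) <;> rw [h4, h5] at h3 <;> simp_all
  · intro v
    set O : Finset (Fin n) := univ.filter (fun w => v ≠ w ∧ ω (p v w) = r v w) with hO
    set I : Finset (Fin n) := univ.filter (fun w => v ≠ w ∧ ¬ (ω (p v w) = r v w)) with hI
    have h1 : {w : Fin n | v ≠ w ∧ ω (p v w) = r v w} = (O : Set (Fin n)) := by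
      ext w; simp [hO]
    rw [h1, Set.ncard_coe_finset]
    have h2 : O.card = I.card := by
      refine Finset.card_bij' (fun w _ => σ v w) (fun w _ => σ v w) ?_ ?_ ?_ ?_
      · intro w hw
        simp only [hO, mem_filter, mem_univ, true_and] at hw
        obtain ⟨e1, e2, e3, e4⟩ := hσ v w hw.1.symm
        simp only [hI, mem_filter, mem_univ, true_and]
        refine ⟨e1.symm, ?_⟩
        rw [e3, e4, hw.2]
        cases r v w <;> simp
      · intro w hw
        simp only [hI, mem_filter, mem_univ, true_and] at hw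
        obtain ⟨e1, e2, e3, e4⟩ := hσ v w hw.1.symm
        simp only [hO, mem_filter, mem_univ, true_and]
        refine ⟨e1.symm, ?_⟩
        rw [e3, e4]
        have := hw.2
        cases h5 : r v w <;> cases h6 : ω (p v w) <;> simp_all
      · intro w hw
        simp only [hO, mem_filter, mem_univ, true_and] at hw
        exact (hσ v w hw.1.symm).2.1
      · intro w hw
        simp only [hI, mem_filter, mem_univ, true_and] at hw
        exact (hσ v w hw.1.symm).2.1
    have h3 : O.card + I.card = n - 1 := by
      have h4 : O ∪ I = univ.erase v := by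
        ext w
        simp only [hO, hI, mem_union, mem_filter, mem_univ, true_and, mem_erase, and_true]
        constructor
        · rintro (h | h) <;> exact h.1.symm
        · intro h
          by_cases h5 : ω (p v w) = r v w
          · exact Or.inl ⟨h.symm, h5⟩
          · exact Or.inr ⟨h.symm, h5⟩
      have h5 : Disjoint O I := by
        rw [Finset.disjoint_left]
        intro w hw hw'
        simp only [hO, hI, mem_filter, mem_univ, true_and] at hw hw'
        exact hw'.2 hw.2
      rw [← Finset.card_union_of_disjoint h5, h4, Finset.card_erase_of_mem (mem_univ _)]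
      simp
    omega
  · have h1 : {c : Equiv.Perm (Fin n) | c.IsCycle ∧ c.support = Finset.univ ∧
        ∀ v, (v ≠ c v ∧ ω (p v (c v)) = r v (c v))} =
        (((HC n).filter fun c => ∀ v, ω (p v (c v)) = r v (c v) : Finset (Perm (Fin n))) :
          Set (Perm (Fin n))) := by
      ext c
      simp only [Set.mem_setOf_eq, coe_filter]
      constructor
      · rintro ⟨h2, h3, h4⟩
        refine ⟨?_, fun v => (h4 v).2⟩
        simp only [HC, mem_filter, mem_univ, true_and]
        exact ⟨h2, h3⟩
      · rintro ⟨h2, h3⟩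
        have h4 := h2
        simp only [HC, mem_filter, mem_univ, true_and] at h4
        exact ⟨h4.1, h4.2, fun v => ⟨(HC_ne h2 v).symm, h3 v⟩⟩
    rw [h1, Set.ncard_coe_finset, div_le_iff₀ (by positivity)]
    exact_mod_cast hω

end main

end Pool.Agent.K6.H23.HR
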