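import Mathlib

set_option autoImplicit false

namespace Pool.Agent.K6.H23.HR

/-- `(x + y) / 2` modulo the odd number `q`. -/
def mid (q x y : ℕ) : ℕ :=
  if x + y < q then (if (x + y) % 2 = 0 then (x + y) / 2 else (x + y + q) / 2)
  else (if (x + y - q) % 2 = 0 then (x + y - q) / 2 else (x + y) / 2)

/-- `2 z - x` modulo `q`. -/
def dbl (q z x : ℕ) : ℕ :=
  if 2 * z < x then 2 * z + q - x else if 2 * z - x < q then 2 * z - x else 2 * z - x - q

theorem mid_comm (q x y : ℕ) : mid q x y = mid q y x := by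
  unfold mid; rw [add_comm x y]

theorem mid_lt {q x y : ℕ} (hq : q % 2 = 1) (hx : x < q) (hy : y < q) : mid q x y < q := by
  unfold mid; split_ifs <;> omega

theorem dbl_lt {q z x : ℕ} (hz : z < q) (hx : x < q) : dbl q z x < q := by
  unfold dbl; split_ifs <;> omega

theorem dbl_mid {q x y : ℕ} (hq : q % 2 = 1) (hx : x < q) (hy : y < q) :
    dbl q (mid q x y) x = y := by
  unfold mid dbl; split_ifs <;> omega

theorem mid_dbl {q x z : ℕ} (hq : q % 2 = 1) (hx : x < q) (hz : z < q) :
    mid q x (dbl q z x) = z := by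
  unfold mid dbl; split_ifs <;> omega

theorem dbl_dbl {q x z : ℕ} (hx : x < q) (hz : z < q) :
    dbl q z (dbl q z x) = x := by
  unfold dbl; split_ifs <;> omega

theorem mid_ne {q x y : ℕ} (hq : q % 2 = 1) (hx : x < q) (hy : y < q) (h : x ≠ y) :
    mid q x y ≠ x := by
  unfold mid; split_ifs <;> omega

theorem dbl_ne {q x z : ℕ} (hq : q % 2 = 1) (hx : x < q) (hz : z < q) (h : z ≠ x) :
    dbl q z x ≠ x := by
  unfold dbl; split_ifs <;> omega

/-- Bose's construction on `3 q` points. -/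
def bose (q u v : ℕ) : ℕ :=
  if u % 3 = v % 3 then 3 * mid q (u / 3) (v / 3) + (u % 3 + 1) % 3
  else if v % 3 = (u % 3 + 1) % 3 then
    (if u / 3 = v / 3 then 3 * (u / 3) + (u % 3 + 2) % 3 else 3 * dbl q (v / 3) (u / 3) + u % 3)
  else
    (if u / 3 = v / 3 then 3 * (u / 3) + (v % 3 + 2) % 3 else 3 * dbl q (u / 3) (v / 3) + v % 3)

theorem bose_comm (q u v : ℕ) : bose q u v = bose q v u := by
  unfold bose
  rw [mid_comm q (u/3) (v/3)]
  split_ifs <;> omega

theorem bose_lt {q u v : ℕ} (hq : q % 2 = 1) (hu : u < 3 * q) (hv : v < 3 * q) :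
    bose q u v < 3 * q := by
  have h1 := mid_lt (x := u / 3) (y := v / 3) hq (by omega) (by omega)
  have h2 := dbl_lt (q := q) (x := u / 3) (z := v / 3) (by omega) (by omega)
  have h3 := dbl_lt (q := q) (x := v / 3) (z := u / 3) (by omega) (by omega)
  unfold bose; split_ifs <;> omega

theorem bose_ne {q u v : ℕ} (hq : q % 2 = 1) (hu : u < 3 * q) (hv : v < 3 * q) (h : u ≠ v) :
    bose q u v ≠ u := by
  have h2 : v / 3 ≠ u / 3 → dbl q (v / 3) (u / 3) ≠ u / 3 := fun h =>
    dbl_ne hq (by omega) (by omega) h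
  unfold bose; split_ifs <;> omega

theorem bose_same {q x y i : ℕ} (hi : i < 3) :
    bose q (3 * x + i) (3 * y + i) = 3 * mid q x y + (i + 1) % 3 := by
  have h1 : (3 * x + i) % 3 = i := by omega
  have h2 : (3 * y + i) % 3 = i := by omega
  have h3 : (3 * x + i) / 3 = x := by omega
  have h4 : (3 * y + i) / 3 = y := by omega
  unfold bose
  rw [h1, h2, h3, h4, if_pos rfl]

theorem bose_up {q x z i : ℕ} (hi : i < 3) :
    bose q (3 * x + i) (3 * z + (i + 1) % 3) =
      if x = z then 3 * x + (i + 2) % 3 else 3 * dbl q z x + i := by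
  have h1 : (3 * x + i) % 3 = i := by omega
  have h2 : (3 * z + (i + 1) % 3) % 3 = (i + 1) % 3 := by omega
  have h3 : (3 * x + i) / 3 = x := by omega
  have h4 : (3 * z + (i + 1) % 3) / 3 = z := by omega
  have h5 : ¬ (i = (i + 1) % 3) := by omega
  unfold bose
  rw [h1, h2, h3, h4, if_neg h5, if_pos rfl]

theorem bose_down {q x z i : ℕ} (hi : i < 3) :
    bose q (3 * x + i) (3 * z + (i + 2) % 3) =
      if x = z then 3 * x + (i + 1) % 3 else 3 * dbl q x z + (i + 2) % 3 := by
  have h1 : (3 * x + i) % 3 = i := by omega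
  have h2 : (3 * z + (i + 2) % 3) % 3 = (i + 2) % 3 := by omega
  have h3 : (3 * x + i) / 3 = x := by omega
  have h4 : (3 * z + (i + 2) % 3) / 3 = z := by omega
  have h5 : ¬ (i = (i + 2) % 3) := by omega
  have h6 : ¬ ((i + 2) % 3 = (i + 1) % 3) := by omega
  have h7 : ((i + 2) % 3 + 2) % 3 = (i + 1) % 3 := by omega
  unfold bose
  rw [h1, h2, h3, h4, if_neg h5, if_neg h6, h7]

theorem bose_invol {q u v : ℕ} (hq : q % 2 = 1) (hu : u < 3 * q) (hv : v < 3 * q) (h : u ≠ v) :
    bose q u (bose q u v) = v := by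
  obtain ⟨x, i, rfl, hi⟩ : ∃ x i, u = 3 * x + i ∧ i < 3 := ⟨u / 3, u % 3, by omega, by omega⟩
  obtain ⟨y, j, rfl, hj⟩ : ∃ y j, v = 3 * y + j ∧ j < 3 := ⟨v / 3, v % 3, by omega, by omega⟩
  have hx : x < q := by omega
  have hy : y < q := by omega
  have hij : j = i ∨ j = (i + 1) % 3 ∨ j = (i + 2) % 3 := by omega
  rcases hij with rfl | rfl | rfl
  · have hxy : x ≠ y := by omega
    rw [bose_same hi, bose_up hi, if_neg (fun h => mid_ne hq hx hy hxy h.symm), dbl_mid hq hx hy]
  · rw [bose_up hi]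
    split_ifs with hxy
    · rw [bose_down hi, if_pos rfl, hxy]
    · rw [bose_same hi, mid_dbl hq hx hy]
  · rw [bose_down hi]
    split_ifs with hxy
    · rw [bose_up hi, if_pos rfl, hxy]
    · rw [bose_down hi]
      have hne : dbl q x y ≠ x := by
        intro h'
        have := dbl_dbl (q := q) hy hx
        rw [h'] at this
        unfold dbl at this h'
        split_ifs at this h' <;> omega
      rw [if_neg (fun h => hne h.symm), dbl_dbl hy hx]

end Pool.Agent.K6.H23.HR
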