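import Pool.Agent.K6.H23.HRDesign

set_option autoImplicit false
set_option linter.unusedVariables false

namespace Pool.Agent.K6.H23.HR

def neg (q x : ℕ) : ℕ := if x = 0 then 0 else q - x

def tw (q i z : ℕ) : ℕ := if i = 2 then neg q z else z

theorem tw_lt {q i z : ℕ} (hz : z < q) : tw q i z < q := by
  unfold tw neg; split_ifs <;> omega

theorem tw_tw {q i z : ℕ} (hz : z < q) : tw q i (tw q i z) = z := by
  unfold tw neg; split_ifs <;> omega

theorem tw0 {q x : ℕ} : tw q 0 x = x := by simp [tw]

theorem tw1 {q x : ℕ} : tw q 1 x = x := by simp [tw]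

theorem tw2 {q x : ℕ} (hx : x ≠ 0) : tw q 2 x = q - x := by simp [tw, neg, hx]

theorem tw_zero {q i : ℕ} : tw q i 0 = 0 := by
  unfold tw neg; split_ifs <;> omega

theorem tw_eq_zero {q i z : ℕ} (hz : z < q) (h : tw q i z = 0) : z = 0 := by
  unfold tw neg at h; split_ifs at h <;> omega

def up5 (k q x z i : ℕ) : ℕ :=
  if tw q i z ≠ x then 3 * dbl q (tw q i z) x + i
  else if x = 0 then (i + 2) % 3
  else if (x ≤ k ↔ i ≠ 1) then 3 * q else 3 * q + 1

def inf5 (k q s v : ℕ) : ℕ :=
  if v / 3 = 0 then (if v % 3 = 0 then 3 * q + (1 - s) else 0)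
  else if (v / 3 ≤ k ↔ s = 0) then
    (if v % 3 = 0 then 3 * (v / 3) + 1 else if v % 3 = 1 then 3 * (v / 3) else 3 * (q - v / 3))
  else
    (if v % 3 = 0 then 3 * (q - v / 3) + 2 else if v % 3 = 1 then 3 * (v / 3) + 2
      else 3 * (v / 3) + 1)

/-- The construction on `6 k + 5` points, `q = 2 k + 1`. -/
def five (k q u v : ℕ) : ℕ :=
  if 3 * q ≤ u then (if 3 * q ≤ v then 0 else inf5 k q (u - 3 * q) v)
  else if 3 * q ≤ v then inf5 k q (v - 3 * q) u
  else if u % 3 = v % 3 then 3 * tw q (u % 3) (mid q (u / 3) (v / 3)) + (u % 3 + 1) % 3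
  else if v % 3 = (u % 3 + 1) % 3 then up5 k q (u / 3) (v / 3) (u % 3)
  else up5 k q (v / 3) (u / 3) (v % 3)

/-- The exceptional pairs: the edges of the 4-cycle. -/
def ex5 (q u v : ℕ) : Prop :=
  (3 * q ≤ u ∧ (v = 1 ∨ v = 2)) ∨ (3 * q ≤ v ∧ (u = 1 ∨ u = 2))

theorem five_comm {k q u v : ℕ} : five k q u v = five k q v u := by
  unfold five
  rw [mid_comm q (u/3) (v/3)]
  split_ifs with h1 h2 h3 h4 h5 h6 h7 <;> first | rfl | omega | (rw [h4])

theorem up5_lt {k q x z i : ℕ} (hi : i < 3) (hz : z < q) (hx : x < q) :
    up5 k q x z i < 3 * q + 2 := by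
  have := dbl_lt (tw_lt (i := i) hz) hx
  unfold up5; split_ifs <;> omega

theorem inf5_lt {k q s v : ℕ} (hs : s < 2) (hv : v < 3 * q) :
    inf5 k q s v < 3 * q + 2 := by
  unfold inf5; split_ifs <;> omega

theorem five_lt {k q u v : ℕ} (hq : q = 2 * k + 1) (hu : u < 3 * q + 2) (hv : v < 3 * q + 2) :
    five k q u v < 3 * q + 2 := by
  unfold five
  split_ifs with h1 h2 h3 h4
  · omega
  · exact inf5_lt (by omega) (by omega)
  · exact inf5_lt (by omega) (by omega)
  · have := tw_lt (i := u % 3) (@mid_lt q (u / 3) (v / 3) (by omega) (by omega) (by omega)); omega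
  · exact up5_lt (by omega) (by omega) (by omega)
  · exact up5_lt (by omega) (by omega) (by omega)

theorem f_same {k q x y i : ℕ} (hi : i < 3) (hx : x < q) (hy : y < q) :
    five k q (3 * x + i) (3 * y + i) = 3 * tw q i (mid q x y) + (i + 1) % 3 := by
  have h1 : (3 * x + i) % 3 = i := by omega
  have h2 : (3 * y + i) % 3 = i := by omega
  have h3 : (3 * x + i) / 3 = x := by omega
  have h4 : (3 * y + i) / 3 = y := by omega
  unfold five
  rw [if_neg (by omega), if_neg (by omega), h1, h2, h3, h4, if_pos rfl]

theorem f_up {k q x z i : ℕ} (hi : i < 3) (hx : x < q) (hz : z < q) :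
    five k q (3 * x + i) (3 * z + (i + 1) % 3) =
      if tw q i z ≠ x then 3 * dbl q (tw q i z) x + i
      else if x = 0 then (i + 2) % 3
      else if (x ≤ k ↔ i ≠ 1) then 3 * q else 3 * q + 1 := by
  have h1 : (3 * x + i) % 3 = i := by omega
  have h2 : (3 * z + (i + 1) % 3) % 3 = (i + 1) % 3 := by omega
  have h3 : (3 * x + i) / 3 = x := by omega
  have h4 : (3 * z + (i + 1) % 3) / 3 = z := by omega
  have h5 : ¬ (i = (i + 1) % 3) := by omega
  unfold five
  rw [if_neg (by omega), if_neg (by omega), h1, h2, h3, h4, if_neg h5, if_pos rfl, up5]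

theorem f_down {k q x z i : ℕ} (hi : i < 3) (hx : x < q) (hz : z < q) :
    five k q (3 * x + i) (3 * z + (i + 2) % 3) =
      if tw q ((i + 2) % 3) x ≠ z then 3 * dbl q (tw q ((i + 2) % 3) x) z + (i + 2) % 3
      else if z = 0 then (i + 1) % 3
      else if (z ≤ k ↔ (i + 2) % 3 ≠ 1) then 3 * q else 3 * q + 1 := by
  have h1 : (3 * x + i) % 3 = i := by omega
  have h2 : (3 * z + (i + 2) % 3) % 3 = (i + 2) % 3 := by omega
  have h3 : (3 * x + i) / 3 = x := by omega
  have h4 : (3 * z + (i + 2) % 3) / 3 = z := by omega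
  have h5 : ¬ (i = (i + 2) % 3) := by omega
  have h6 : ¬ ((i + 2) % 3 = (i + 1) % 3) := by omega
  have h7 : ((i + 2) % 3 + 2) % 3 = (i + 1) % 3 := by omega
  unfold five
  rw [if_neg (by omega), if_neg (by omega), h1, h2, h3, h4, if_neg h5, if_neg h6, up5, h7]

theorem f_infl {k q s x i : ℕ} (hi : i < 3) (hx : x < q) (hs : s < 2) :
    five k q (3 * q + s) (3 * x + i) =
      if x = 0 then (if i = 0 then 3 * q + (1 - s) else 0)
      else if (x ≤ k ↔ s = 0) then
        (if i = 0 then 3 * x + 1 else if i = 1 then 3 * x else 3 * (q - x))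
      else
        (if i = 0 then 3 * (q - x) + 2 else if i = 1 then 3 * x + 2 else 3 * x + 1) := by
  have h1 : (3 * x + i) % 3 = i := by omega
  have h3 : (3 * x + i) / 3 = x := by omega
  unfold five
  rw [if_pos (by omega), if_neg (by omega), show 3 * q + s - 3 * q = s from by omega, inf5, h1, h3]

theorem f_infr {k q s x i : ℕ} (hi : i < 3) (hx : x < q) (hs : s < 2) :
    five k q (3 * x + i) (3 * q + s) =
      if x = 0 then (if i = 0 then 3 * q + (1 - s) else 0)
      else if (x ≤ k ↔ s = 0) then
        (if i = 0 then 3 * x + 1 else if i = 1 then 3 * x else 3 * (q - x))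
      else
        (if i = 0 then 3 * (q - x) + 2 else if i = 1 then 3 * x + 2 else 3 * x + 1) := by
  rw [five_comm, f_infl hi hx hs]

theorem f_inf {k q s t : ℕ} : five k q (3 * q + s) (3 * q + t) = 0 := by
  unfold five
  rw [if_pos (by omega), if_pos (by omega)]

/-- the main properties of the construction -/
theorem five_main {k q u v : ℕ} (hq : q = 2 * k + 1) (hu : u < 3 * q + 2) (hv : v < 3 * q + 2)
    (h : u ≠ v) (he : ¬ ex5 q u v) :
    five k q u v ≠ u ∧ five k q u (five k q u v) = v ∧ ¬ ex5 q u (five k q u v) := by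
  have hq2 : q % 2 = 1 := by omega
  by_cases hu6 : 3 * q ≤ u
  · obtain ⟨s, rfl, hs⟩ : ∃ s, u = 3 * q + s ∧ s < 2 := ⟨u - 3 * q, by omega, by omega⟩
    by_cases hv6 : 3 * q ≤ v
    · obtain ⟨t, rfl, ht⟩ : ∃ t, v = 3 * q + t ∧ t < 2 := ⟨v - 3 * q, by omega, by omega⟩
      rw [f_inf]
      have e := f_infl (k := k) (q := q) (s := s) (x := 0) (i := 0) (by omega) (by omega) hs
      simp only [if_true, mul_zero, add_zero] at e
      refine ⟨by omega, ?_, by unfold ex5; omega⟩
      rw [e]; omega
    · obtain ⟨y, j, rfl, hj⟩ : ∃ y j, v = 3 * y + j ∧ j < 3 := ⟨v / 3, v % 3, by omega, by omega⟩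
      have hy : y < q := by omega
      unfold ex5 at he
      rw [f_infl hj hy hs]
      by_cases hy0 : y = 0
      · subst hy0
        have hj0 : j = 0 := by omega
        subst hj0
        rw [if_pos rfl, if_pos rfl, f_inf]
        refine ⟨by omega, by omega, by unfold ex5; omega⟩
      · rw [if_neg hy0]
        have key : ∀ y' j', y' ≠ 0 → y' < q → j' < 3 →
            ((if y ≤ k ↔ s = 0 then
              (if j = 0 then 3 * y + 1 else if j = 1 then 3 * y else 3 * (q - y))
              else
              (if j = 0 then 3 * (q - y) + 2 else if j = 1 then 3 * y + 2 else 3 * y + 1))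
                = 3 * y' + j') → 
            (3 * y' + j' ≠ 3 * q + s ∧ five k q (3 * q + s) (3 * y' + j') = 3 * y + j ∧
              ¬ ex5 q (3 * q + s) (3 * y' + j')) := by
          intro y' j' hy'0 hy' hj' hh
          refine ⟨by omega, ?_, by unfold ex5; omega⟩
          rw [f_infl hj' hy' hs, if_neg hy'0]
          split_ifs at hh ⊢ <;> omega
        obtain ⟨y', j', h1, h2, h3, h4⟩ : ∃ y' j', y' ≠ 0 ∧ y' < q ∧ j' < 3 ∧
            ((if y ≤ k ↔ s = 0 then
              (if j = 0 then 3 * y + 1 else if j = 1 then 3 * y else 3 * (q - y))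
              else
              (if j = 0 then 3 * (q - y) + 2 else if j = 1 then 3 * y + 2 else 3 * y + 1))
                = 3 * y' + j') := by
          refine ⟨(if y ≤ k ↔ s = 0 then
              (if j = 0 then 3 * y + 1 else if j = 1 then 3 * y else 3 * (q - y))
              else
              (if j = 0 then 3 * (q - y) + 2 else if j = 1 then 3 * y + 2 else 3 * y + 1)) / 3,
              (if y ≤ k ↔ s = 0 then
              (if j = 0 then 3 * y + 1 else if j = 1 then 3 * y else 3 * (q - y))
              else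
              (if j = 0 then 3 * (q - y) + 2 else if j = 1 then 3 * y + 2 else 3 * y + 1)) % 3,
              ?_, ?_, ?_, ?_⟩
          · split_ifs <;> omega
          · split_ifs <;> omega
          · split_ifs <;> omega
          · split_ifs <;> omega
        rw [h4]
        exact key y' j' h1 h2 h3 h4
  obtain ⟨x, i, rfl, hi⟩ : ∃ x i, u = 3 * x + i ∧ i < 3 := ⟨u / 3, u % 3, by omega, by omega⟩
  have hx : x < q := by omega
  by_cases hv6 : 3 * q ≤ v
  · obtain ⟨s, rfl, hs⟩ : ∃ s, v = 3 * q + s ∧ s < 2 := ⟨v - 3 * q, by omega, by omega⟩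
    unfold ex5 at he
    rw [f_infr hi hx hs]
    by_cases hx0 : x = 0
    · subst hx0
      have hi0 : i = 0 := by omega
      subst hi0
      rw [if_pos rfl, if_pos rfl, f_infr (by omega) hx (by omega), if_pos rfl, if_pos rfl]
      refine ⟨by omega, by omega, by unfold ex5; omega⟩
    · rw [if_neg hx0]
      obtain rfl | rfl | rfl : i = 0 ∨ i = 1 ∨ i = 2 := by omega
      · simp only [if_true]
        split_ifs with h1
        · have e := f_up (k := k) (q := q) (x := x) (z := x) (i := 0) (by omega) hx hx
          simp only [zero_add, Nat.one_mod, Nat.reduceMod, tw0] at e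
          refine ⟨by omega, ?_, by unfold ex5; omega⟩
          rw [e]
          split_ifs <;> omega
        · have e := f_down (k := k) (q := q) (x := x) (z := q - x) (i := 0) (by omega) hx (by omega)
          simp only [zero_add, Nat.reduceMod, tw2 hx0] at e
          refine ⟨by omega, ?_, by unfold ex5; omega⟩
          rw [e]
          split_ifs <;> omega
      · simp only [one_ne_zero, if_false, if_true]
        split_ifs with h1
        · have e := f_down (k := k) (q := q) (x := x) (z := x) (i := 1) (by omega) hx hx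
          simp only [Nat.reduceMod, Nat.reduceAdd, tw0] at e
          refine ⟨by omega, ?_, by unfold ex5; omega⟩
          rw [add_zero] at e
          rw [e]
          split_ifs <;> omega
        · have e := f_up (k := k) (q := q) (x := x) (z := x) (i := 1) (by omega) hx hx
          simp only [Nat.reduceMod, Nat.reduceAdd] at e
          refine ⟨by omega, ?_, by unfold ex5; omega⟩
          rw [e]
          unfold tw
          split_ifs <;> omega
      · simp only [OfNat.ofNat_ne_zero, OfNat.ofNat_ne_one, if_false]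
        split_ifs with h1
        · have e := f_up (k := k) (q := q) (x := x) (z := q - x) (i := 2) (by omega) hx (by omega)
          simp only [Nat.reduceMod, Nat.reduceAdd, add_zero] at e
          refine ⟨by omega, ?_, by unfold ex5; omega⟩
          rw [e]
          unfold tw neg
          split_ifs <;> omega
        · have e := f_down (k := k) (q := q) (x := x) (z := x) (i := 2) (by omega) hx hx
          simp only [Nat.reduceMod, Nat.reduceAdd] at e
          refine ⟨by omega, ?_, by unfold ex5; omega⟩
          rw [e]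
          unfold tw
          split_ifs <;> omega
  obtain ⟨y, j, rfl, hj⟩ : ∃ y j, v = 3 * y + j ∧ j < 3 := ⟨v / 3, v % 3, by omega, by omega⟩
  have hy : y < q := by omega
  have hij : j = i ∨ j = (i + 1) % 3 ∨ j = (i + 2) % 3 := by omega
  rcases hij with rfl | rfl | rfl
  · have hxy : x ≠ y := by omega
    have hm := mid_lt hq2 hx hy
    have ht := tw_lt (i := j) hm
    rw [f_same hi hx hy]
    refine ⟨by omega, ?_, by unfold ex5; omega⟩
    rw [f_up hi hx ht, tw_tw hm, if_pos (mid_ne hq2 hx hy hxy), dbl_mid hq2 hx hy]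
  · rw [f_up hi hx hy]
    have ht := tw_lt (i := i) hy
    by_cases h1 : tw q i y ≠ x
    · have hd := dbl_lt ht hx
      rw [if_pos h1]
      refine ⟨?_, ?_, by unfold ex5; omega⟩
      · have := dbl_ne hq2 hx ht h1; omega
      · rw [f_same hi hx hd, mid_dbl hq2 hx ht, tw_tw hy]
    · rw [if_neg h1]
      have h1' := not_not.1 h1
      by_cases hx0 : x = 0
      · rw [if_pos hx0]
        subst hx0
        have hy0 := tw_eq_zero hy h1'
        subst hy0
        refine ⟨by omega, ?_, by unfold ex5; omega⟩
        have e := f_down (k := k) (q := q) (x := 0) (z := 0) (i := i) hi hx hy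
        rw [if_neg (not_not.2 tw_zero), if_pos rfl] at e
        simp only [mul_zero, zero_add] at e ⊢
        exact e
      · rw [if_neg hx0]
        have hf : ∀ s, s < 2 → (s = 0 ↔ (x ≤ k ↔ i ≠ 1)) →
            3 * q + s ≠ 3 * x + i ∧ five k q (3 * x + i) (3 * q + s) = 3 * y + (i + 1) % 3 ∧
              ¬ ex5 q (3 * x + i) (3 * q + s) := by
          intro s hs hsx
          refine ⟨by omega, ?_, by unfold ex5; omega⟩
          rw [f_infr hi hx hs, if_neg hx0]
          unfold tw neg at h1'
          split_ifs at h1' ⊢ <;> omega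
        split_ifs with h3
        · exact hf 0 (by omega) (by simp only [true_iff]; exact h3)
        · exact hf 1 (by omega) (by simp only [one_ne_zero, false_iff]; exact h3)
  · rw [f_down hi hx hy]
    set j := (i + 2) % 3 with hjdef
    have ht := tw_lt (i := j) hx
    by_cases h1 : tw q j x ≠ y
    · have hd := dbl_lt ht hy
      rw [if_pos h1]
      refine ⟨by omega, ?_, by unfold ex5; omega⟩
      have e := f_down (k := k) (q := q) (x := x) (z := dbl q (tw q j x) y) (i := i) hi hx hd
      rw [← hjdef, dbl_dbl hy ht] at e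
      rw [e, if_pos]
      intro h'
      have e2 := dbl_dbl (q := q) hy ht
      rw [← h'] at e2
      apply h1
      rw [← e2]
      unfold dbl; split_ifs <;> omega
    · rw [if_neg h1]
      have h1' := not_not.1 h1
      by_cases hy0 : y = 0
      · rw [if_pos hy0]
        subst hy0
        have hx0 := tw_eq_zero hx h1'
        subst hx0
        refine ⟨by omega, ?_, by unfold ex5; omega⟩
        have e := f_up (k := k) (q := q) (x := 0) (z := 0) (i := i) hi hx hy
        rw [if_neg (not_not.2 tw_zero), if_pos rfl] at e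
        simp only [mul_zero, zero_add] at e ⊢
        exact e
      · rw [if_neg hy0]
        have hx0 : x ≠ 0 := by
          rintro rfl
          rw [tw_zero] at h1'
          exact hy0 h1'.symm
        have hf : ∀ s, s < 2 → (s = 0 ↔ (y ≤ k ↔ j ≠ 1)) →
            3 * q + s ≠ 3 * x + i ∧ five k q (3 * x + i) (3 * q + s) = 3 * y + j ∧
              ¬ ex5 q (3 * x + i) (3 * q + s) := by
          intro s hs hsx
          refine ⟨by omega, ?_, by unfold ex5; omega⟩
          rw [f_infr hi hx hs, if_neg hx0]
          unfold tw neg at h1'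
          split_ifs at h1' ⊢ <;> omega
        split_ifs with h3
        · exact hf 0 (by omega) (by simp only [true_iff]; exact h3)
        · exact hf 1 (by omega) (by simp only [one_ne_zero, false_iff]; exact h3)

end Pool.Agent.K6.H23.HR
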