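import Mathlib

set_option autoImplicit false
set_option linter.unusedVariables false

namespace Pool.Agent.K6.H23.HR

/-- The half-idempotent commutative quasigroup of order `2 k`. -/
def hq (k x y : ℕ) : ℕ :=
  if x + y < 2 * k then (if (x + y) % 2 = 0 then (x + y) / 2 else (x + y) / 2 + k)
  else (if (x + y) % 2 = 0 then (x + y) / 2 - k else (x + y) / 2)

/-- The `y` with `hq k x y = z`. -/
def hd (k z x : ℕ) : ℕ :=
  if z < k then (if x ≤ 2 * z then 2 * z - x else 2 * z + 2 * k - x)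
  else (if x ≤ 2 * z - 2 * k + 1 then 2 * z - 2 * k + 1 - x else 2 * z + 1 - x)

theorem hq_comm (k x y : ℕ) : hq k x y = hq k y x := by
  unfold hq; rw [add_comm x y]

theorem hq_lt {k x y : ℕ} (hx : x < 2 * k) (hy : y < 2 * k) : hq k x y < 2 * k := by
  unfold hq; split_ifs <;> omega

theorem hd_lt {k z x : ℕ} (hz : z < 2 * k) (hx : x < 2 * k) : hd k z x < 2 * k := by
  unfold hd; split_ifs <;> omega

theorem hd_hq {k x y : ℕ} (hx : x < 2 * k) (hy : y < 2 * k) : hd k (hq k x y) x = y := by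
  unfold hq hd; split_ifs <;> omega

theorem hq_hd {k x z : ℕ} (hx : x < 2 * k) (hz : z < 2 * k) : hq k x (hd k z x) = z := by
  unfold hq hd; split_ifs <;> omega

theorem hd_hd {k x z : ℕ} (hx : x < 2 * k) (hz : z < 2 * k) : hd k z (hd k z x) = x := by
  unfold hd; split_ifs <;> omega

theorem hd_eq {k x z : ℕ} (hx : x < 2 * k) (hz : z < 2 * k) (h : hd k z x = x) :
    z < k ∧ (x = z ∨ x = z + k) := by
  unfold hd at h; split_ifs at h <;> omega

theorem hd_self1 {k z : ℕ} (hz : z < k) : hd k z z = z := by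
  unfold hd; split_ifs <;> omega

theorem hd_self2 {k z : ℕ} (hz : z < k) : hd k z (z + k) = z + k := by
  unfold hd; split_ifs <;> omega

def up (k x z i : ℕ) : ℕ :=
  if hd k z x ≠ x then 3 * hd k z x + i else if x < k then 3 * x + (i + 2) % 3 else 6 * k

def inf (k v : ℕ) : ℕ :=
  if v / 3 < k then 3 * (v / 3 + k) + (v % 3 + 2) % 3 else 3 * (v / 3 - k) + (v % 3 + 1) % 3

/-- Skolem's construction on `6 k + 1` points. -/
def skolem (k u v : ℕ) : ℕ :=
  if u = 6 * k then inf k v
  else if v = 6 * k then inf k u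
  else if u % 3 = v % 3 then 3 * hq k (u / 3) (v / 3) + (u % 3 + 1) % 3
  else if v % 3 = (u % 3 + 1) % 3 then up k (u / 3) (v / 3) (u % 3)
  else up k (v / 3) (u / 3) (v % 3)

theorem skolem_comm {k u v : ℕ} : skolem k u v = skolem k v u := by
  unfold skolem
  rw [hq_comm k (u/3) (v/3)]
  split_ifs with h1 h2 h3 h4 h5 h6 h7 <;> first | rfl | omega | (rw [h1, h2])

theorem inf_lt {k v : ℕ} (hv : v < 6 * k) : inf k v < 6 * k := by
  unfold inf; split_ifs <;> omega

theorem up_lt {k x z i : ℕ} (hi : i < 3) (hz : z < 2 * k) (hx : x < 2 * k) :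
    up k x z i < 6 * k + 1 := by
  have := hd_lt hz hx
  unfold up; split_ifs <;> omega

theorem skolem_lt {k u v : ℕ} (hu : u < 6 * k + 1) (hv : v < 6 * k + 1) (h : u ≠ v) :
    skolem k u v < 6 * k + 1 := by
  unfold skolem
  split_ifs with h1 h2 h3 h4
  · have := @inf_lt k v (by omega); omega
  · have := @inf_lt k u (by omega); omega
  · have := @hq_lt k (u / 3) (v / 3) (by omega) (by omega); omega
  · exact up_lt (by omega) (by omega) (by omega)
  · exact up_lt (by omega) (by omega) (by omega)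

theorem sk_same {k x y i : ℕ} (hi : i < 3) (hx : x < 2 * k) (hy : y < 2 * k) :
    skolem k (3 * x + i) (3 * y + i) = 3 * hq k x y + (i + 1) % 3 := by
  have h1 : (3 * x + i) % 3 = i := by omega
  have h2 : (3 * y + i) % 3 = i := by omega
  have h3 : (3 * x + i) / 3 = x := by omega
  have h4 : (3 * y + i) / 3 = y := by omega
  unfold skolem
  rw [if_neg (by omega), if_neg (by omega), h1, h2, h3, h4, if_pos rfl]

theorem sk_up {k x z i : ℕ} (hi : i < 3) (hx : x < 2 * k) (hz : z < 2 * k) :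
    skolem k (3 * x + i) (3 * z + (i + 1) % 3) =
      if hd k z x ≠ x then 3 * hd k z x + i else if x < k then 3 * x + (i + 2) % 3 else 6 * k := by
  have h1 : (3 * x + i) % 3 = i := by omega
  have h2 : (3 * z + (i + 1) % 3) % 3 = (i + 1) % 3 := by omega
  have h3 : (3 * x + i) / 3 = x := by omega
  have h4 : (3 * z + (i + 1) % 3) / 3 = z := by omega
  have h5 : ¬ (i = (i + 1) % 3) := by omega
  unfold skolem
  rw [if_neg (by omega), if_neg (by omega), h1, h2, h3, h4, if_neg h5, if_pos rfl, up]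

theorem sk_down {k x z i : ℕ} (hi : i < 3) (hx : x < 2 * k) (hz : z < 2 * k) :
    skolem k (3 * x + i) (3 * z + (i + 2) % 3) =
      if hd k x z ≠ z then 3 * hd k x z + (i + 2) % 3
      else if z < k then 3 * z + (i + 1) % 3 else 6 * k := by
  have h1 : (3 * x + i) % 3 = i := by omega
  have h2 : (3 * z + (i + 2) % 3) % 3 = (i + 2) % 3 := by omega
  have h3 : (3 * x + i) / 3 = x := by omega
  have h4 : (3 * z + (i + 2) % 3) / 3 = z := by omega
  have h5 : ¬ (i = (i + 2) % 3) := by omega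
  have h6 : ¬ ((i + 2) % 3 = (i + 1) % 3) := by omega
  have h7 : ((i + 2) % 3 + 2) % 3 = (i + 1) % 3 := by omega
  unfold skolem
  rw [if_neg (by omega), if_neg (by omega), h1, h2, h3, h4, if_neg h5, if_neg h6, up, h7]

theorem sk_inf_left {k x i : ℕ} (hi : i < 3) (hx : x < 2 * k) :
    skolem k (6 * k) (3 * x + i) =
      if x < k then 3 * (x + k) + (i + 2) % 3 else 3 * (x - k) + (i + 1) % 3 := by
  have h1 : (3 * x + i) % 3 = i := by omega
  have h3 : (3 * x + i) / 3 = x := by omega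
  unfold skolem
  rw [if_pos rfl, inf, h1, h3]

theorem sk_inf_right {k x i : ℕ} (hi : i < 3) (hx : x < 2 * k) :
    skolem k (3 * x + i) (6 * k) =
      if x < k then 3 * (x + k) + (i + 2) % 3 else 3 * (x - k) + (i + 1) % 3 := by
  rw [skolem_comm, sk_inf_left hi hx]

theorem skolem_ne {k u v : ℕ} (hu : u < 6 * k + 1) (hv : v < 6 * k + 1) (h : u ≠ v) :
    skolem k u v ≠ u := by
  by_cases hu6 : u = 6 * k
  · subst hu6
    obtain ⟨y, j, rfl, hj⟩ : ∃ y j, v = 3 * y + j ∧ j < 3 := ⟨v / 3, v % 3, by omega, by omega⟩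
    rw [sk_inf_left hj (by omega)]
    split_ifs <;> omega
  by_cases hv6 : v = 6 * k
  · subst hv6
    obtain ⟨x, i, rfl, hi⟩ : ∃ x i, u = 3 * x + i ∧ i < 3 := ⟨u / 3, u % 3, by omega, by omega⟩
    rw [sk_inf_right hi (by omega)]
    split_ifs <;> omega
  obtain ⟨x, i, rfl, hi⟩ : ∃ x i, u = 3 * x + i ∧ i < 3 := ⟨u / 3, u % 3, by omega, by omega⟩
  obtain ⟨y, j, rfl, hj⟩ : ∃ y j, v = 3 * y + j ∧ j < 3 := ⟨v / 3, v % 3, by omega, by omega⟩
  have hx : x < 2 * k := by omega
  have hy : y < 2 * k := by omega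
  have hij : j = i ∨ j = (i + 1) % 3 ∨ j = (i + 2) % 3 := by omega
  rcases hij with rfl | rfl | rfl
  · rw [sk_same hi hx hy]; omega
  · rw [sk_up hi hx hy]
    split_ifs <;> omega
  · rw [sk_down hi hx hy]
    split_ifs <;> omega

theorem skolem_invol {k u v : ℕ} (hu : u < 6 * k + 1) (hv : v < 6 * k + 1) (h : u ≠ v) :
    skolem k u (skolem k u v) = v := by
  by_cases hu6 : u = 6 * k
  · subst hu6
    obtain ⟨y, j, rfl, hj⟩ : ∃ y j, v = 3 * y + j ∧ j < 3 := ⟨v / 3, v % 3, by omega, by omega⟩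
    have hy : y < 2 * k := by omega
    rw [sk_inf_left hj hy]
    split_ifs with h1
    · rw [sk_inf_left (by omega) (by omega), if_neg (by omega)]; omega
    · rw [sk_inf_left (by omega) (by omega), if_pos (by omega)]; omega
  by_cases hv6 : v = 6 * k
  · subst hv6
    obtain ⟨x, i, rfl, hi⟩ : ∃ x i, u = 3 * x + i ∧ i < 3 := ⟨u / 3, u % 3, by omega, by omega⟩
    have hx : x < 2 * k := by omega
    rw [sk_inf_right hi (by omega)]
    split_ifs with h1
    · rw [sk_down hi hx (by omega), if_neg (not_not.2 (hd_self2 h1)), if_neg (by omega)]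
    · have e := hd_self2 (k := k) (z := x - k) (by omega)
      rw [show x - k + k = x from by omega] at e
      rw [sk_up hi hx (by omega), if_neg (not_not.2 e), if_neg h1]
  obtain ⟨x, i, rfl, hi⟩ : ∃ x i, u = 3 * x + i ∧ i < 3 := ⟨u / 3, u % 3, by omega, by omega⟩
  obtain ⟨y, j, rfl, hj⟩ : ∃ y j, v = 3 * y + j ∧ j < 3 := ⟨v / 3, v % 3, by omega, by omega⟩
  have hx : x < 2 * k := by omega
  have hy : y < 2 * k := by omega
  have hij : j = i ∨ j = (i + 1) % 3 ∨ j = (i + 2) % 3 := by omega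
  rcases hij with rfl | rfl | rfl
  · have hxy : x ≠ y := by omega
    rw [sk_same hi hx hy, sk_up hi hx (hq_lt hx hy), hd_hq hx hy, if_pos hxy.symm]
  · rw [sk_up hi hx hy]
    split_ifs with h1 h2
    · rw [sk_same hi hx (hd_lt hy hx), hq_hd hx hy]
    · have h3 := hd_eq hx hy (not_not.1 h1)
      have h4 : y = x := by omega
      subst h4
      rw [sk_down hi hx hx, if_neg (not_not.2 (hd_self1 h2)), if_pos h2]
    · have h3 := hd_eq hx hy (not_not.1 h1)
      rw [sk_inf_right hi hx, if_neg h2]; omega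
  · rw [sk_down hi hx hy]
    split_ifs with h1 h2
    · have hlt := hd_lt hx hy
      rw [sk_down hi hx hlt, hd_hd hy hx, if_pos h1.symm]
    · have h3 := hd_eq hy hx (not_not.1 h1)
      have h4 : y = x := by omega
      subst h4
      rw [sk_up hi hx hx, if_neg (not_not.2 (hd_self1 h2)), if_pos h2]
    · have h3 := hd_eq hy hx (not_not.1 h1)
      rw [sk_inf_right hi hx, if_pos h3.1]; omega

end Pool.Agent.K6.H23.HR
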