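import Pool.Agent.K6.H23.HRCount
import Pool.Agent.K6.H23.HRFive
import Pool.Agent.K6.H23.HRSkolem

set_option autoImplicit false
set_option linter.unusedVariables false

namespace Pool.Agent.K6.H23.HR

open Finset Equiv

section triples

variable {n : ℕ}

/-- the cyclic order of three points -/
def cyc (x y z : Fin n) : Bool := decide ((x < y ∧ y < z) ∨ (y < z ∧ z < x) ∨ (z < x ∧ x < y))

theorem cyc_rot (x y z : Fin n) : cyc y z x = cyc x y z := by
  unfold cyc; congr 1; apply propext; tauto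

theorem cyc_swap {x y z : Fin n} (h1 : x ≠ y) (h2 : y ≠ z) (h3 : x ≠ z) :
    cyc x y z = !(cyc y x z) := by
  unfold cyc
  rw [← decide_not, decide_eq_decide]
  rw [Fin.lt_def, Fin.lt_def, Fin.lt_def, Fin.lt_def, Fin.lt_def, Fin.lt_def]
  have h1' : (x : ℕ) ≠ y := fun h => h1 (Fin.ext h)
  have h2' : (y : ℕ) ≠ z := fun h => h2 (Fin.ext h)
  have h3' : (x : ℕ) ≠ z := fun h => h3 (Fin.ext h)
  omega

theorem cyc_swap' {v w o : Fin n} (h1 : v ≠ w) (h2 : o ≠ w) (h3 : o ≠ v) :
    cyc v o w = !(cyc v w o) := by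
  rw [cyc_rot w v o]
  exact cyc_swap h1.symm h3.symm h2.symm

/-- `op` gives the third point of the triple through two points which do not form an exceptional
pair. -/
def IsOp (E : Fin n → Fin n → Prop) (op : Fin n → Fin n → Fin n) : Prop :=
  ∀ x y, x ≠ y → ¬ E x y →
    op x y ≠ x ∧ op x y = op y x ∧ op x (op x y) = y ∧ ¬ E x (op x y)

variable {E : Fin n → Fin n → Prop} {op : Fin n → Fin n → Fin n}

theorem IsOp.ne2 (h : IsOp E op) (hE : ∀ x y, E x y → E y x) {x y : Fin n} (hxy : x ≠ y)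
    (he : ¬ E x y) : op x y ≠ y := by
  rw [(h x y hxy he).2.1]
  exact (h y x hxy.symm (fun h' => he (hE _ _ h'))).1

theorem IsOp.right (h : IsOp E op) (hE : ∀ x y, E x y → E y x) {x y : Fin n} (hxy : x ≠ y)
    (he : ¬ E x y) : op y (op x y) = x ∧ ¬ E y (op x y) := by
  rw [(h x y hxy he).2.1]
  have := h y x hxy.symm (fun h' => he (hE _ _ h'))
  exact ⟨this.2.2.1, this.2.2.2⟩

theorem IsOp.third (h : IsOp E op) (hE : ∀ x y, E x y → E y x) {x y : Fin n} (hxy : x ≠ y)
    (he : ¬ E x y) : op (op x y) x = y ∧ op (op x y) y = x := by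
  obtain ⟨h1, h2, h3, h4⟩ := h x y hxy he
  obtain ⟨h5, h6⟩ := h.right hE hxy he
  have h7 := h.ne2 hE hxy he
  constructor
  · rw [← (h x (op x y) h1.symm h4).2.1]; exact h3
  · rw [← (h y (op x y) h7.symm h6).2.1]; exact h5

/-- Two arcs of a Hamilton cycle in the same triple have the same direction. -/
theorem triple_cons (hn : 3 ≤ n) (h : IsOp E op) (hE : ∀ x y, E x y → E y x)
    {c : Perm (Fin n)} (hc : c ∈ HC n) {v w : Fin n} (hv : ¬ E v (c v))
    (he : ({v, c v, op v (c v)} : Finset (Fin n)) = {w, c w, op w (c w)}) :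
    cyc v (c v) (op v (c v)) = cyc w (c w) (op w (c w)) := by
  have hvc : v ≠ c v := (HC_ne hc v).symm
  have hwc : w ≠ c w := (HC_ne hc w).symm
  obtain ⟨h1, h2, h3, h4⟩ := h v (c v) hvc hv
  obtain ⟨h5, h6⟩ := h.right hE hvc hv
  obtain ⟨h8, h9⟩ := h.third hE hvc hv
  set z := op v (c v) with hz
  have hw : w ∈ ({v, c v, z} : Finset (Fin n)) := by rw [he]; simp
  have hcw : c w ∈ ({v, c v, z} : Finset (Fin n)) := by rw [he]; simp
  simp only [mem_insert, mem_singleton] at hw hcw
  rcases hw with rfl | rfl | rfl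
  · rfl
  · rcases hcw with h10 | h10 | h10
    · exact (HC_two hn hc rfl h10).elim
    · exact (hwc h10.symm).elim
    · rw [h10, h5]; exact (cyc_rot _ _ _).symm
  · rcases hcw with h10 | h10 | h10
    · rw [h10, h8]; exact cyc_rot _ _ _
    · exact (h1 (c.injective h10)).elim
    · exact (hwc h10.symm).elim

theorem card_triple {x y z : Fin n} (h1 : x ≠ y) (h2 : x ≠ z) (h3 : y ≠ z) :
    ({x, y, z} : Finset (Fin n)).card = 3 := by
  rw [Finset.card_eq_three]; exact ⟨x, y, z, h1, h2, h3, rfl⟩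

/-- the conclusion -/
def Concl (n : ℕ) : Prop :=
    ∃ adj : Fin n → Fin n → Prop,
        (∀ v, ¬ adj v v) ∧
        (∀ v w, v ≠ w → (adj v w ↔ ¬ adj w v)) ∧
        (∀ v, {w : Fin n | adj v w}.ncard = (n - 1) / 2) ∧
        ((Nat.factorial (n - 1) : ℝ) / (2 : ℝ) ^ n ≤
          (({c : Equiv.Perm (Fin n) |
              c.IsCycle ∧ c.support = Finset.univ ∧ ∀ v, adj v (c v)}.ncard : ℕ) : ℝ))

/-- Steiner triple systems. -/
theorem of_sts (hn : 3 ≤ n) (op : Fin n → Fin n → Fin n)
    (h : IsOp (fun _ _ => False) op) : Concl n := by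
  classical
  have hE : ∀ x y : Fin n, (fun _ _ : Fin n => False) x y → (fun _ _ : Fin n => False) y x :=
    fun x y h => h
  have hne2 : ∀ x y : Fin n, x ≠ y → op x y ≠ y := fun x y hxy => h.ne2 hE hxy (fun h => h)
  refine exists_tournament (ι := Finset (Fin n)) hn
    (fun x y => if x = y then {x} else {x, y, op x y}) (fun x y => cyc x y (op x y))
    op ?_ ?_ ?_ ∅ (by simp) ∅ ?_ le_rfl
  · intro x y
    by_cases hxy : x = y
    · subst hxy; rfl
    · rw [if_neg hxy, if_neg (Ne.symm hxy), (h x y hxy (fun h => h)).2.1]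
      ext a; simp only [mem_insert, mem_singleton]; tauto
  · intro x y hxy
    obtain ⟨h1, h2, h3, h4⟩ := h x y hxy (fun h => h)
    show cyc x y (op x y) = !(cyc y x (op y x))
    rw [← h2]
    exact cyc_swap hxy (hne2 x y hxy).symm h1.symm
  · intro v w hwv
    obtain ⟨h1, h2, h3, h4⟩ := h v w hwv.symm (fun h => h)
    refine ⟨h1, h3, ?_, ?_⟩
    · show (if v = op v w then _ else _) = (if v = w then _ else _)
      rw [if_neg h1.symm, if_neg hwv.symm, h3]
      ext a; simp only [mem_insert, mem_singleton]; tauto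
    · show cyc v (op v w) (op v (op v w)) = !(cyc v w (op v w))
      rw [h3]
      exact cyc_swap' hwv.symm (hne2 v w hwv.symm) h1
  · intro c hc hcons
    exfalso
    apply hcons
    intro v w he
    have h1 := (HC_ne hc v).symm
    have h2 := (HC_ne hc w).symm
    simp only [if_neg h1, if_neg h2] at he
    exact triple_cons hn h hE hc (fun h => h) he

/-- Triples and one 4-cycle `a b c' d`. -/
theorem of_four (hn : 5 ≤ n) (a b e d : Fin n) (hab : a ≠ b) (hae : a ≠ e) (had : a ≠ d)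
    (hbe : b ≠ e) (hbd : b ≠ d) (hed : e ≠ d)
    (F : Fin n → Fin n → Prop)
    (hF : ∀ x y, F x y ↔ (x = a ∧ y = b) ∨ (x = b ∧ y = e) ∨ (x = e ∧ y = d) ∨ (x = d ∧ y = a))
    (op : Fin n → Fin n → Fin n)
    (h : IsOp (fun x y => F x y ∨ F y x) op) : Concl n := by
  classical
  have hn3 : 3 ≤ n := by omega
  have hE : ∀ x y : Fin n, (fun x y => F x y ∨ F y x) x y → (fun x y => F x y ∨ F y x) y x :=
    fun x y h => Or.symm h
  have hne2 : ∀ x y : Fin n, x ≠ y → ¬ (F x y ∨ F y x) → op x y ≠ y :=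
    fun x y hxy he => h.ne2 hE hxy he
  have hFne : ∀ x y, F x y → x ≠ y := by
    intro x y hxy
    rw [hF] at hxy
    simp only [Fin.ext_iff, ne_eq] at *
    omega
  have hFas : ∀ x y, F x y → ¬ F y x := by
    intro x y hxy hyx
    rw [hF] at hxy hyx
    simp only [Fin.ext_iff, ne_eq] at *
    omega
  let p : Fin n → Fin n → Finset (Fin n) := fun x y =>
    if x = y then {x} else if F x y ∨ F y x then {a, b, e, d} else {x, y, op x y}
  let r : Fin n → Fin n → Bool := fun x y =>
    if F x y ∨ F y x then decide (F x y) else cyc x y (op x y)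
  let σ : Fin n → Fin n → Fin n := fun v w =>
    if F v w ∨ F w v then
      (if v = a ∨ v = e then (if w = b then d else b) else (if w = a then e else a))
    else op v w
  have hcard4 : ({a, b, e, d} : Finset (Fin n)).card = 4 := by
    rw [Finset.card_insert_of_notMem, card_triple hbe hbd hed]
    simp only [mem_insert, mem_singleton]
    tauto
  have hp4 : ∀ x y, (F x y ∨ F y x) → p x y = {a, b, e, d} := by
    intro x y hxy
    have hne : x ≠ y := by
      rcases hxy with h1 | h1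
      · exact hFne _ _ h1
      · exact (hFne _ _ h1).symm
    simp only [p]; rw [if_neg hne, if_pos hxy]
  have hp3 : ∀ x y, x ≠ y → ¬ (F x y ∨ F y x) → p x y = {x, y, op x y} := by
    intro x y hne hxy
    simp only [p]; rw [if_neg hne, if_neg hxy]
  have hp3c : ∀ x y, x ≠ y → ¬ (F x y ∨ F y x) → (p x y).card = 3 := by
    intro x y hne hxy
    rw [hp3 x y hne hxy]
    exact card_triple hne (h x y hne hxy).1.symm (hne2 x y hne hxy).symm
  -- the key facts about Hamilton cycles
  let T13 : Perm (Fin n) → Prop := fun c => (c a = b ∧ c d = e) ∨ (c e = d ∧ c b = a)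
  let T24 : Perm (Fin n) → Prop := fun c => (c b = e ∧ c a = d) ∨ (c d = a ∧ c e = b)
  let I13 : Perm (Fin n) → Prop := fun c => (c a = b ∧ c e = d) ∨ (c b = a ∧ c d = e)
  let I24 : Perm (Fin n) → Prop := fun c => (c b = e ∧ c d = a) ∨ (c e = b ∧ c a = d)
  have hbad : ∀ c ∈ HC n, ¬ Cons p r c → T13 c ∨ T24 c := by
    intro c hc hcons
    unfold Cons at hcons
    push Not at hcons
    obtain ⟨v, w, he, hne⟩ := hcons
    have hvc : v ≠ c v := (HC_ne hc v).symm
    have hwc : w ≠ c w := (HC_ne hc w).symm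
    by_cases hv : F v (c v) ∨ F (c v) v
    · by_cases hw : F w (c w) ∨ F (c w) w
      · have hrv : r v (c v) = decide (F v (c v)) := by simp only [r]; rw [if_pos hv]
        have hrw : r w (c w) = decide (F w (c w)) := by simp only [r]; rw [if_pos hw]
        -- two opposite directions
        have key : ∀ v w, F v (c v) → F (c w) w → T13 c ∨ T24 c := by
          intro v w h1 h2
          rw [hF] at h1 h2
          have two : ∀ x y, c x = y → c y = x → False := fun x y => HC_two hn3 hc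
          have inj : ∀ x y, c x = c y → x = y := fun x y h => c.injective h
          rcases h1 with ⟨rfl, h1⟩ | ⟨rfl, h1⟩ | ⟨rfl, h1⟩ | ⟨rfl, h1⟩ <;>
          rcases h2 with ⟨h2, rfl⟩ | ⟨h2, rfl⟩ | ⟨h2, rfl⟩ | ⟨h2, rfl⟩
          · exact (two _ _ h1 h2).elim
          · exact (hae (inj _ _ (h1.trans h2.symm))).elim
          · exact Or.inl (Or.inl ⟨h1, h2⟩)
          · exact (hbd (h1.symm.trans h2)).elim
          · exact (hae (h2.symm.trans h1)).elim
          · exact (two _ _ h1 h2).elim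
          · exact (hbd (inj _ _ (h1.trans h2.symm))).elim
          · exact Or.inr (Or.inl ⟨h1, h2⟩)
          · exact Or.inl (Or.inr ⟨h1, h2⟩)
          · exact (hbd (h2.symm.trans h1)).elim
          · exact (two _ _ h1 h2).elim
          · exact (hae (inj _ _ (h2.trans h1.symm))).elim
          · exact (hbd (inj _ _ (h2.trans h1.symm))).elim
          · exact Or.inr (Or.inr ⟨h1, h2⟩)
          · exact (hae (h1.symm.trans h2)).elim
          · exact (two _ _ h1 h2).elim
        by_cases h1 : F v (c v)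
        · have h2 : ¬ F w (c w) := by
            intro h2; apply hne; rw [hrv, hrw]; simp [h1, h2]
          exact key v w h1 (hw.resolve_left h2)
        · have h2 : F w (c w) := by
            by_contra h2; apply hne; rw [hrv, hrw]; simp [h1, h2]
          exact key w v h2 (hv.resolve_left h1)
      · exfalso
        have h1 := hp3c w (c w) hwc hw
        rw [← he, hp4 v (c v) hv, hcard4] at h1
        omega
    · by_cases hw : F w (c w) ∨ F (c w) w
      · exfalso
        have h1 := hp3c v (c v) hvc hv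
        rw [he, hp4 w (c w) hw, hcard4] at h1
        omega
      · exfalso
        apply hne
        have hrv : r v (c v) = cyc v (c v) (op v (c v)) := by simp only [r]; rw [if_neg hv]
        have hrw : r w (c w) = cyc w (c w) (op w (c w)) := by simp only [r]; rw [if_neg hw]
        rw [hrv, hrw]
        rw [hp3 v (c v) hvc hv, hp3 w (c w) hwc hw] at he
        exact triple_cons hn3 h hE hc hv he
  have hgood : ∀ c ∈ HC n, (I13 c ∨ I24 c) → Cons p r c := by
    intro c hc hI
    by_contra hcons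
    have two : ∀ x y, c x = y → c y = x → False := fun x y => HC_two hn3 hc
    have inj : ∀ x y, c x = c y → x = y := fun x y h => c.injective h
    rcases hbad c hc hcons with (⟨h1, h2⟩ | ⟨h1, h2⟩) | (⟨h1, h2⟩ | ⟨h1, h2⟩) <;>
    rcases hI with (⟨h3, h4⟩ | ⟨h3, h4⟩) | (⟨h3, h4⟩ | ⟨h3, h4⟩)
    · exact two _ _ h2 h4
    · exact two _ _ h1 h3
    · exact hbd (inj _ _ (h3.trans h2.symm))
    · exact hbd (h1.symm.trans h4)
    · exact two _ _ h3 h2
    · exact two _ _ h4 h1
    · exact hae (h2.symm.trans h3)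
    · exact hbd (h3.symm.trans h1)
    · exact hbd (h3.symm.trans h2)
    · exact hbd (inj _ _ (h1.trans h4.symm))
    · exact two _ _ h4 h2
    · exact two _ _ h1 h3
    · exact hae (inj _ _ (h3.trans h2.symm))
    · exact hae (h1.symm.trans h4)
    · exact two _ _ h3 h2
    · exact two _ _ h1 h4
  have hF1 : F a b := by rw [hF]; tauto
  have hF2 : F b e := by rw [hF]; tauto
  have hF3 : F e d := by rw [hF]; tauto
  have hF4 : F d a := by rw [hF]; tauto
  have hb' : ¬ (b = a ∨ b = e) := by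
    rintro (h | h)
    · exact hab h.symm
    · exact hbe h
  have hd' : ¬ (d = a ∨ d = e) := by
    rintro (h | h)
    · exact had h.symm
    · exact hed h.symm
  refine exists_tournament (ι := Finset (Fin n)) hn3 p r σ ?_ ?_ ?_
    ((HC n).filter fun c => I13 c ∨ I24 c) ?_ ((HC n).filter fun c => T13 c ∨ T24 c) ?_ ?_
  · intro x y
    by_cases hxy : x = y
    · subst hxy; rfl
    · by_cases hex : F x y ∨ F y x
      · rw [hp4 x y hex, hp4 y x hex.symm]
      · rw [hp3 x y hxy hex, hp3 y x (Ne.symm hxy) (fun h => hex h.symm), (h x y hxy hex).2.1]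
        ext a; simp only [mem_insert, mem_singleton]; tauto
  · intro x y hxy
    by_cases hex : F x y ∨ F y x
    · simp only [r]
      rw [if_pos hex, if_pos hex.symm, ← decide_not, decide_eq_decide]
      constructor
      · exact hFas x y
      · intro h1; exact hex.resolve_right h1
    · simp only [r]
      rw [if_neg hex, if_neg (fun h => hex (Or.symm h)), ← (h x y hxy hex).2.1]
      exact cyc_swap hxy (hne2 x y hxy hex).symm (h x y hxy hex).1.symm
  · intro v w hwv
    by_cases hex : F v w ∨ F w v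
    · have key : ∀ w', w' ≠ v → (F v w' ∨ F w' v) → (F v w' ↔ ¬ F v w) → σ v w = w' →
          σ v w' = w → σ v w ≠ v ∧ σ v (σ v w) = w ∧ p v (σ v w) = p v w ∧
            r v (σ v w) = !(r v w) := by
        intro w' h1 h2 h3 h4 h5
        rw [h4]
        refine ⟨h1, h5, ?_, ?_⟩
        · rw [hp4 v w hex, hp4 v w' h2]
        · simp only [r]
          rw [if_pos hex, if_pos h2, ← decide_not, decide_eq_decide]
          exact h3
      have hσE : ∀ w, (F v w ∨ F w v) → σ v w =
          (if v = a ∨ v = e then (if w = b then d else b) else (if w = a then e else a)) := by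
        intro w hw; simp only [σ]; rw [if_pos hw]
      have hex2 := hex
      rw [hF, hF] at hex2
      rcases hex2 with (⟨rfl, rfl⟩ | ⟨rfl, rfl⟩ | ⟨rfl, rfl⟩ | ⟨rfl, rfl⟩) |
        (⟨rfl, rfl⟩ | ⟨rfl, rfl⟩ | ⟨rfl, rfl⟩ | ⟨rfl, rfl⟩)
      · refine key d had.symm (Or.inr hF4) ?_ ?_ ?_
        · exact ⟨fun h1 => (hFas _ _ h1 hF4).elim, fun h1 => (h1 hF1).elim⟩
        · rw [hσE _ hex, if_pos (Or.inl rfl), if_pos rfl]
        · rw [hσE _ (Or.inr hF4), if_pos (Or.inl rfl), if_neg hbd.symm]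
      · refine key a hab (Or.inr hF1) ?_ ?_ ?_
        · exact ⟨fun h1 => (hFas _ _ h1 hF1).elim, fun h1 => (h1 hF2).elim⟩
        · rw [hσE _ hex, if_neg hb', if_neg hae.symm]
        · rw [hσE _ (Or.inr hF1), if_neg hb', if_pos rfl]
      · refine key b hbe (Or.inr hF2) ?_ ?_ ?_
        · exact ⟨fun h1 => (hFas _ _ h1 hF2).elim, fun h1 => (h1 hF3).elim⟩
        · rw [hσE _ hex, if_pos (Or.inr rfl), if_neg hbd.symm]
        · rw [hσE _ (Or.inr hF2), if_pos (Or.inr rfl), if_pos rfl]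
      · refine key e hed (Or.inr hF3) ?_ ?_ ?_
        · exact ⟨fun h1 => (hFas _ _ h1 hF3).elim, fun h1 => (h1 hF4).elim⟩
        · rw [hσE _ hex, if_neg hd', if_pos rfl]
        · rw [hσE _ (Or.inr hF3), if_neg hd', if_neg hae.symm]
      · refine key e hbe.symm (Or.inl hF2) ?_ ?_ ?_
        · exact ⟨fun _ h1 => hFas _ _ h1 hF1, fun _ => hF2⟩
        · rw [hσE _ hex, if_neg hb', if_pos rfl]
        · rw [hσE _ (Or.inl hF2), if_neg hb', if_neg hae.symm]
      · refine key d hed.symm (Or.inl hF3) ?_ ?_ ?_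
        · exact ⟨fun _ h1 => hFas _ _ h1 hF2, fun _ => hF3⟩
        · rw [hσE _ hex, if_pos (Or.inr rfl), if_pos rfl]
        · rw [hσE _ (Or.inl hF3), if_pos (Or.inr rfl), if_neg hbd.symm]
      · refine key a had (Or.inl hF4) ?_ ?_ ?_
        · exact ⟨fun _ h1 => hFas _ _ h1 hF3, fun _ => hF4⟩
        · rw [hσE _ hex, if_neg hd', if_neg hae.symm]
        · rw [hσE _ (Or.inl hF4), if_neg hd', if_pos rfl]
      · refine key b hab.symm (Or.inl hF1) ?_ ?_ ?_
        · exact ⟨fun _ h1 => hFas _ _ h1 hF4, fun _ => hF1⟩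
        · rw [hσE _ hex, if_pos (Or.inl rfl), if_neg hbd.symm]
        · rw [hσE _ (Or.inl hF1), if_pos (Or.inl rfl), if_pos rfl]
    · obtain ⟨h1, h2, h3, h4⟩ := h v w hwv.symm hex
      have hσ1 : σ v w = op v w := by simp only [σ]; rw [if_neg hex]
      have hσ2 : σ v (op v w) = op v (op v w) := by simp only [σ]; rw [if_neg h4]
      rw [hσ1, hσ2, h3]
      refine ⟨h1, rfl, ?_, ?_⟩
      · rw [hp3 v (op v w) h1.symm h4, hp3 v w hwv.symm hex, h3]
        ext a; simp only [mem_insert, mem_singleton]; tauto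
      · simp only [r]
        rw [if_neg hex, if_neg h4, h3]
        exact cyc_swap' hwv.symm (hne2 v w hwv.symm hex) h1
  · intro c hc
    rw [mem_filter] at hc
    refine ⟨hc.1, hgood c hc.1 hc.2, ?_⟩
    rcases hc.2 with (⟨h1, h2⟩ | ⟨h1, h2⟩) | (⟨h1, h2⟩ | ⟨h1, h2⟩)
    · exact ⟨a, e, hae, by rw [h1, h2, hp4 _ _ (Or.inl hF1), hp4 _ _ (Or.inl hF3)]⟩
    · exact ⟨b, d, hbd, by rw [h1, h2, hp4 _ _ (Or.inr hF1), hp4 _ _ (Or.inr hF3)]⟩
    · exact ⟨b, d, hbd, by rw [h1, h2, hp4 _ _ (Or.inl hF2), hp4 _ _ (Or.inl hF4)]⟩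
    · exact ⟨e, a, hae.symm, by rw [h1, h2, hp4 _ _ (Or.inr hF2), hp4 _ _ (Or.inr hF4)]⟩
  · intro c hc hcons
    rw [mem_filter]
    exact ⟨hc, hbad c hc hcons⟩
  · have e1 : ((HC n).filter fun c => T13 c ∨ T24 c).card ≤
        ((HC n).filter fun c => T13 c).card + ((HC n).filter fun c => T24 c).card := by
      rw [Finset.filter_or]; exact Finset.card_union_le _ _
    have e2 : ((HC n).filter fun c => T13 c).card ≤ ((HC n).filter fun c => I13 c).card := by
      refine Finset.card_le_card_of_injOn (fun c => swap e d * c * (swap e d)⁻¹) ?_ ?_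
      · intro c hc
        simp only [coe_filter, Set.mem_setOf_eq] at hc ⊢
        refine ⟨HC_conj hc.1 _, ?_⟩
        simp only [I13, Perm.mul_apply, swap_inv, swap_apply_left, swap_apply_right,
          swap_apply_of_ne_of_ne hae had, swap_apply_of_ne_of_ne hbe hbd]
        rcases hc.2 with ⟨h1, h2⟩ | ⟨h1, h2⟩
        · left
          rw [h1, h2, swap_apply_left, swap_apply_of_ne_of_ne hbe hbd]; exact ⟨rfl, rfl⟩
        · right
          rw [h1, h2, swap_apply_right, swap_apply_of_ne_of_ne hae had]; exact ⟨rfl, rfl⟩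
      · intro c _ c' _ hcc
        exact mul_left_cancel (mul_right_cancel hcc)
    have e3 : ((HC n).filter fun c => T24 c).card ≤ ((HC n).filter fun c => I24 c).card := by
      refine Finset.card_le_card_of_injOn (fun c => swap a d * c * (swap a d)⁻¹) ?_ ?_
      · intro c hc
        simp only [coe_filter, Set.mem_setOf_eq] at hc ⊢
        refine ⟨HC_conj hc.1 _, ?_⟩
        simp only [I24, Perm.mul_apply, swap_inv, swap_apply_left, swap_apply_right,
          swap_apply_of_ne_of_ne hae.symm hed, swap_apply_of_ne_of_ne hab.symm hbd]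
        rcases hc.2 with ⟨h1, h2⟩ | ⟨h1, h2⟩
        · left
          rw [h1, h2, swap_apply_right, swap_apply_of_ne_of_ne hae.symm hed]; exact ⟨rfl, rfl⟩
        · right
          rw [h1, h2, swap_apply_left, swap_apply_of_ne_of_ne hab.symm hbd]; exact ⟨rfl, rfl⟩
      · intro c _ c' _ hcc
        exact mul_left_cancel (mul_right_cancel hcc)
    have e4 : ((HC n).filter fun c => I13 c ∨ I24 c).card =
        ((HC n).filter fun c => I13 c).card + ((HC n).filter fun c => I24 c).card := by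
      rw [Finset.filter_or, Finset.card_union_of_disjoint]
      rw [Finset.disjoint_left]
      intro c hc1 hc2
      rw [mem_filter] at hc1 hc2
      have four : ∀ x y z w, c x = y → c y = z → c z = w → c w = x → False :=
        fun x y z w => HC_four hn hc1.1
      rcases hc1.2 with ⟨h1, h2⟩ | ⟨h1, h2⟩ <;> rcases hc2.2 with ⟨h3, h4⟩ | ⟨h3, h4⟩
      · exact four _ _ _ _ h1 h3 h2 h4
      · exact hbd (h1.symm.trans h4)
      · exact hae (h1.symm.trans h3)
      · exact four _ _ _ _ h1 h4 h2 h3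
    omega

theorem main : ∀ n : ℕ, Odd n → 3 ≤ n → Concl n := by
  intro n hodd hn
  obtain ⟨m, hm⟩ := hodd
  have hmod : n % 6 = 1 ∨ n % 6 = 3 ∨ n % 6 = 5 := by omega
  rcases hmod with h6 | h6 | h6
  · obtain ⟨k, hk⟩ : ∃ k, n = 6 * k + 1 := ⟨n / 6, by omega⟩
    subst hk
    refine of_sts hn (fun x y => if h : x = y then x else
      ⟨skolem k x y, skolem_lt x.2 y.2 (fun h' => h (Fin.ext h'))⟩) ?_
    intro x y hxy _
    have hxy' : (x : ℕ) ≠ y := fun h => hxy (Fin.ext h)
    have h1 := skolem_ne x.2 y.2 hxy'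
    have h2 := skolem_invol x.2 y.2 hxy'
    simp only [dif_neg hxy, dif_neg (Ne.symm hxy)]
    refine ⟨fun h => h1 (Fin.ext_iff.1 h), Fin.ext skolem_comm, ?_, fun h => h⟩
    rw [dif_neg (fun h => h1 (Fin.ext_iff.1 h).symm)]
    exact Fin.ext h2
  · obtain ⟨q, hq, hq2⟩ : ∃ q, n = 3 * q ∧ q % 2 = 1 := ⟨n / 3, by omega, by omega⟩
    subst hq
    refine of_sts hn (fun x y => ⟨bose q x y, bose_lt hq2 x.2 y.2⟩) ?_
    intro x y hxy _
    have hxy' : (x : ℕ) ≠ y := fun h => hxy (Fin.ext h)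
    have h1 := bose_ne hq2 x.2 y.2 hxy'
    have h2 := bose_invol hq2 x.2 y.2 hxy'
    refine ⟨fun h => h1 (Fin.ext_iff.1 h), Fin.ext (bose_comm _ _ _), Fin.ext h2, fun h => h⟩
  · obtain ⟨k, q, hk, hq⟩ : ∃ k q, n = 3 * q + 2 ∧ q = 2 * k + 1 :=
      ⟨n / 6, 2 * (n / 6) + 1, by omega, rfl⟩
    subst hk
    have hq1 : 1 ≤ q := by omega
    refine of_four (by omega) ⟨3 * q, by omega⟩ ⟨1, by omega⟩ ⟨3 * q + 1, by omega⟩ ⟨2, by omega⟩
      ?_ ?_ ?_ ?_ ?_ ?_ (fun x y => (x.1 = 3 * q ∧ y.1 = 1) ∨ (x.1 = 1 ∧ y.1 = 3 * q + 1) ∨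
        (x.1 = 3 * q + 1 ∧ y.1 = 2) ∨ (x.1 = 2 ∧ y.1 = 3 * q)) ?_
      (fun x y => ⟨five k q x y, five_lt hq x.2 y.2⟩) ?_
    · simp only [ne_eq, Fin.ext_iff]; omega
    · simp only [ne_eq, Fin.ext_iff]; omega
    · simp only [ne_eq, Fin.ext_iff]; omega
    · simp only [ne_eq, Fin.ext_iff]; omega
    · simp only [ne_eq, Fin.ext_iff]; omega
    · simp only [ne_eq, Fin.ext_iff]; omega
    · intro x y; simp only [Fin.ext_iff]
    · intro x y hxy hex
      have hxy' : (x : ℕ) ≠ y := fun h => hxy (Fin.ext h)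
      have hex' : ∀ u v : ℕ, u < 3 * q + 2 → v < 3 * q + 2 → (ex5 q u v ↔
          ((u = 3 * q ∧ v = 1) ∨ (u = 1 ∧ v = 3 * q + 1) ∨
        (u = 3 * q + 1 ∧ v = 2) ∨ (u = 2 ∧ v = 3 * q)) ∨
          ((v = 3 * q ∧ u = 1) ∨ (v = 1 ∧ u = 3 * q + 1) ∨
        (v = 3 * q + 1 ∧ u = 2) ∨ (v = 2 ∧ u = 3 * q))) := by
        intro u v hu hv
        unfold ex5
        constructor
        · rintro (⟨h1, h2 | h2⟩ | ⟨h1, h2 | h2⟩)
          · by_cases h3 : u = 3 * q
            · exact Or.inl (Or.inl ⟨h3, h2⟩)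
            · exact Or.inr (Or.inr (Or.inl ⟨h2, by omega⟩))
          · by_cases h3 : u = 3 * q
            · exact Or.inr (Or.inr (Or.inr (Or.inr ⟨h2, h3⟩)))
            · exact Or.inl (Or.inr (Or.inr (Or.inl ⟨by omega, h2⟩)))
          · by_cases h3 : v = 3 * q
            · exact Or.inr (Or.inl ⟨h3, h2⟩)
            · exact Or.inl (Or.inr (Or.inl ⟨h2, by omega⟩))
          · by_cases h3 : v = 3 * q
            · exact Or.inl (Or.inr (Or.inr (Or.inr ⟨h2, h3⟩)))
            · exact Or.inr (Or.inr (Or.inr (Or.inl ⟨by omega, h2⟩)))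
        · rintro ((⟨h1, h2⟩ | ⟨h1, h2⟩ | ⟨h1, h2⟩ | ⟨h1, h2⟩) |
            (⟨h1, h2⟩ | ⟨h1, h2⟩ | ⟨h1, h2⟩ | ⟨h1, h2⟩)) <;> omega
      have hy := y.2
      have hx := x.2
      obtain ⟨h1, h2, h3⟩ := five_main (k := k) hq hx hy hxy' (fun h => hex ((hex' _ _ hx hy).1 h))
      refine ⟨fun h => h1 (Fin.ext_iff.1 h), Fin.ext five_comm, Fin.ext h2, fun h => h3 ?_⟩
      exact (hex' _ _ hx (five_lt hq hx hy)).2 h

end triples

end Pool.Agent.K6.H23.HR
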