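import Pool.Agent.TH296.KQ.Main

/-!
# Families of classes of knot types that are additive under connected sums: growth rates

`Q 0, Q 1, ...` is an increasing sequence of classes of knot types such that the connected sums of
polygons of `Q a` and `Q b` are in `Q (a + b)`.
-/

set_option autoImplicit false
set_option linter.unusedVariables false

namespace Pool.Agent.K6.H23.KF

open Finset Filter Topology KN
open scoped Classical

noncomputable section

/-- an increasing sequence of classes of knot types, additive under connected sums -/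
structure Fam (Q : ℕ → List Dir → Prop) : Prop where
  cls : ∀ a, KClass (Q a)
  mono : ∀ a b w, a ≤ b → Q a w → Q b w
  add : ∀ (a b : ℕ) (l1 v l2 : List Dir), Facing l1 v l2 →
    Q a (l1 ++ .zp :: l2) → Q b (.zm :: v) → Q (a + b) (join l1 v l2)
  ne : ∃ a w, SAP w ∧ Q a w

/-- supermultiplicativity for three classes -/
theorem super3 (Pc Qc Rc : List Dir → Prop) (hP : KClass Pc) (hQ : KClass Qc)
    (hc : ∀ l1 v l2 : List Dir, Facing l1 v l2 →
      Pc (l1 ++ .zp :: l2) → Qc (.zm :: v) → Rc (join l1 v l2)) (n m : ℕ) :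
    a Pc n * a Qc m ≤ 16 * m * a Rc (n + m) := by
  have hA := S_quartR_proof Pc (GEN.rx_of Pc hP) n
  have hB := S_quartL_proof Qc (GEN.rx_of Qc hQ) (GEN.rot_of Qc hQ) m
  set A := (K Pc n).filter (fun w => ∃ l1 l2 : List Dir, w = l1 ++ .zp :: l2 ∧
    ∀ p ∈ path w, p.1 ≤ (pos l2).1) with hAdef
  set B := (K Qc m).filter (fun w => ∃ v : List Dir, w = .zm :: v ∧
    ∀ p ∈ path v, 0 ≤ p.1) with hBdef
  have hA' : ∀ w ∈ A, ∃ l1 l2 : List Dir, w = l1 ++ .zp :: l2 ∧
      ∀ p ∈ path w, p.1 ≤ (pos l2).1 := fun w h => (mem_filter.mp h).2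
  have hB' : ∀ w ∈ B, ∃ v : List Dir, w = .zm :: v ∧ ∀ p ∈ path v, 0 ≤ p.1 :=
    fun w h => (mem_filter.mp h).2
  choose! l1 l2 h12 using hA'
  choose! v hv using hB'
  have hGH : ∀ w ∈ A, ∀ w' ∈ B, GH (l1 w) (v w') (l2 w) := by
    intro w hwA w' hwB
    obtain ⟨e1, e2⟩ := h12 w hwA
    obtain ⟨e3, e4⟩ := hv w' hwB
    have s1 := (mem_K.mp (mem_filter.mp hwA).1).2.1
    have s2 := (mem_K.mp (mem_filter.mp hwB).1).2.1
    refine ⟨e1 ▸ s1, ?_, e3 ▸ s2, e4⟩
    rw [← e1]; exact e2
  have key : A.card * B.card ≤ a Rc (n + m) := by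
    rw [← card_product]
    unfold a
    refine card_le_card_of_injOn (fun p => glue (l1 p.1) (v p.2) (l2 p.1)) ?_ ?_
    · rintro ⟨w, w'⟩ hp
      rw [mem_coe, mem_product] at hp
      obtain ⟨hwA, hwB⟩ := hp
      have G := hGH w hwA w' hwB
      have s1 := mem_K.mp (mem_filter.mp hwA).1
      have s2 := mem_K.mp (mem_filter.mp hwB).1
      rw [mem_coe, mem_K]
      refine ⟨?_, S_glueSAP_proof _ _ _ G, ?_⟩
      · have e1 := s1.1
        have e2 := s2.1
        rw [(h12 w hwA).1] at e1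
        rw [(hv w' hwB).1] at e2
        simp only [List.length_append, List.length_cons] at e1 e2
        simp only [glue, List.length_append, List.length_cons]
        omega
      · apply hc _ _ _ G
        · rw [← (h12 w hwA).1]; exact s1.2.2
        · rw [← (hv w' hwB).1]; exact s2.2.2
    · rintro ⟨w, w'⟩ hp ⟨x, x'⟩ hq he
      rw [mem_coe, mem_product] at hp hq
      obtain ⟨hwA, hwB⟩ := hp
      obtain ⟨hxA, hxB⟩ := hq
      simp only at he hwA hwB hxA hxB
      have lv : (v w').length = (v x').length := by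
        have e1 := (mem_K.mp (mem_filter.mp hwB).1).1
        have e2 := (mem_K.mp (mem_filter.mp hxB).1).1
        rw [(hv w' hwB).1] at e1
        rw [(hv x' hxB).1] at e2
        simp only [List.length_cons] at e1 e2
        omega
      obtain ⟨i1, i2, i3⟩ := SUP.inj _ _ _ _ _ _ (hGH w hwA w' hwB) (hGH x hxA x' hxB) lv he
      have ew : w = x := by rw [(h12 w hwA).1, (h12 x hxA).1, i1, i3]
      have ew' : w' = x' := by rw [(hv w' hwB).1, (hv x' hxB).1, i2]
      rw [ew, ew']
  calc a Pc n * a Qc m ≤ (4 * A.card) * (4 * m * B.card) := Nat.mul_le_mul hA hB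
    _ = 16 * m * (A.card * B.card) := by ring
    _ ≤ 16 * m * a Rc (n + m) := Nat.mul_le_mul_left _ key

theorem a_mono {P R : List Dir → Prop} (h : ∀ w, P w → R w) (n : ℕ) : a P n ≤ a R n := by
  unfold a
  refine card_le_card fun w hw => ?_
  rw [mem_K] at hw ⊢
  exact ⟨hw.1, hw.2.1, h w hw.2.2⟩

theorem pq_mono {P R : List Dir → Prop} (h : ∀ w, P w → R w) (n : ℕ) : pq P n ≤ pq R n := by
  unfold pq
  exact div_le_div_of_nonneg_right (by exact_mod_cast a_mono h n) (by positivity)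

variable {Q : ℕ → List Dir → Prop}

/-- the numbers `a (Q c) (2 n)` -/
def x (Q : ℕ → List Dir → Prop) (c n : ℕ) : ℝ := (a (Q c) (2 * n) : ℝ)

theorem x_mono (F : Fam Q) {c d : ℕ} (h : c ≤ d) (n : ℕ) : x Q c n ≤ x Q d n := by
  unfold x
  exact_mod_cast a_mono (fun w hw => F.mono c d w h hw) (2 * n)

theorem x_nonneg (c n : ℕ) : 0 ≤ x Q c n := by unfold x; positivity

theorem x_sup (F : Fam Q) (c d n m : ℕ) : x Q c n * x Q d m ≤ 32 * m * x Q (c + d) (n + m) := by
  have h := super3 (Q c) (Q d) (Q (c + d)) (F.cls c) (F.cls d) (F.add c d) (2 * n) (2 * m)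
  have h' : (a (Q c) (2 * n) : ℝ) * a (Q d) (2 * m) ≤
      16 * (2 * m) * a (Q (c + d)) (2 * n + 2 * m) := by
    exact_mod_cast h
  unfold x
  rw [mul_add]
  linarith

/-- the normalised logarithm -/
def t (Q : ℕ → List Dir → Prop) (c n : ℕ) : ℝ := Real.log (x Q c n / (64 * n))

theorem t_add (F : Fam Q) {c d e n m : ℕ} (he : c + d ≤ e) (hn : 1 ≤ n) (hm : 1 ≤ m)
    (hc : 0 < x Q c n) (hd : 0 < x Q d m) :
    0 < x Q e (n + m) ∧ t Q c n + t Q d m ≤ t Q e (n + m) := by
  have hn0 : (0 : ℝ) < n := by exact_mod_cast (show 0 < n by omega)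
  have hm0 : (0 : ℝ) < m := by exact_mod_cast (show 0 < m by omega)
  have h1 := x_sup F c d n m
  have h2 : x Q c n * x Q d m ≤ 32 * n * x Q (c + d) (n + m) := by
    have := x_sup F d c m n
    rw [add_comm m n, add_comm d c, mul_comm] at this
    exact this
  have h3 := x_mono F he (n + m)
  have hpos : 0 < x Q c n * x Q d m := mul_pos hc hd
  have hx0 : 0 < x Q e (n + m) := by
    have h4 : 0 < 32 * (m : ℝ) * x Q (c + d) (n + m) := lt_of_lt_of_le hpos h1
    have h5 : 0 < x Q (c + d) (n + m) := by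
      by_contra hcon
      have h6 : x Q (c + d) (n + m) = 0 := le_antisymm (not_lt.1 hcon) (x_nonneg _ _)
      rw [h6] at h4
      simp at h4
    linarith
  refine ⟨hx0, ?_⟩
  unfold t
  rw [← Real.log_mul (by positivity) (by positivity)]
  refine Real.log_le_log (by positivity) ?_
  rw [div_mul_div_comm, div_le_div_iff₀ (by positivity) (by positivity)]
  push_cast
  rcases le_total (n : ℝ) m with hnm | hnm
  · have h1 : x Q c n * x Q d m ≤ 32 * n * x Q e (n + m) :=
      h2.trans (mul_le_mul_of_nonneg_left h3 (by positivity))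
    have h2 : x Q c n * x Q d m * (64 * (n + m)) ≤ 32 * n * x Q e (n + m) * (64 * (m + m)) := by
      apply mul_le_mul h1 (by linarith) (by positivity) (by positivity)
    have e : 32 * n * x Q e (n + m) * (64 * ((m : ℝ) + m)) =
      x Q e (n + m) * (64 * n * (64 * m)) := by ring
    linarith [h2, e]
  · have h1 : x Q c n * x Q d m ≤ 32 * m * x Q e (n + m) :=
      h1.trans (mul_le_mul_of_nonneg_left h3 (by positivity))
    have h2 : x Q c n * x Q d m * (64 * (n + m)) ≤ 32 * m * x Q e (n + m) * (64 * (n + n)) := by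
      apply mul_le_mul h1 (by linarith) (by positivity) (by positivity)
    have e : 32 * m * x Q e (n + m) * (64 * ((n : ℝ) + n)) =
      x Q e (n + m) * (64 * n * (64 * m)) := by ring
    linarith [h2, e]

theorem t_mono (F : Fam Q) {c d n : ℕ} (h : c ≤ d) (hn : 1 ≤ n) (hc : 0 < x Q c n) :
    t Q c n ≤ t Q d n := by
  have hn0 : (0 : ℝ) < n := by exact_mod_cast (show 0 < n by omega)
  unfold t
  refine Real.log_le_log (by positivity) ?_
  exact div_le_div_of_nonneg_right (x_mono F h n) (by positivity)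

theorem t_up {c n : ℕ} (hn : 1 ≤ n) (hc : 0 < x Q c n) : t Q c n ≤ Real.log 25 * n := by
  have hn1 : (1 : ℝ) ≤ n := by exact_mod_cast hn
  have hxle : x Q c n ≤ 2 * 25 ^ n := by
    have := S_five_proof (Q c) (2 * n)
    rw [pow_mul] at this
    norm_num at this
    exact this
  have h1 : x Q c n / (64 * n) ≤ 25 ^ n := by
    rw [div_le_iff₀ (by positivity)]
    have h4 : (0 : ℝ) < 25 ^ n := by positivity
    nlinarith
  unfold t
  calc Real.log (x Q c n / (64 * n)) ≤ Real.log (25 ^ n) := Real.log_le_log (by positivity) h1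
    _ = Real.log 25 * n := by rw [Real.log_pow]; ring

/-- positivity -/
theorem x_pos (F : Fam Q) : ∃ a0 s : ℕ, 1 ≤ s ∧ ∀ c n, a0 ≤ c → s ≤ n → 0 < x Q c n := by
  obtain ⟨a0, w, h1, h2⟩ := F.ne
  obtain ⟨s0, hs0⟩ := eventually_atTop.1 (class_pos (Q a0) (F.cls a0) ⟨w, h1, h2⟩)
  refine ⟨a0, s0 + 1, by omega, fun c n hc hn => ?_⟩
  have h3 := hs0 n (by omega)
  have h4 : 0 < x Q a0 n := h3.trans_le (GEN.pn_le_a (Q a0) n (by omega))
  exact h4.trans_le (x_mono F hc n)

/-- the index `⌊y * (2 n)⌋` -/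
def ix (y : ℝ) (n : ℕ) : ℕ := ⌊y * (2 * n)⌋₊

theorem ix_le (y : ℝ) (hy : 0 ≤ y) (n : ℕ) : (ix y n : ℝ) ≤ y * (2 * n) :=
  Nat.floor_le (by positivity)

theorem ix_big {y : ℝ} (hy : 0 < y) (a0 : ℕ) : ∀ᶠ n : ℕ in atTop, a0 ≤ ix y n := by
  have h1 : Tendsto (fun n : ℕ => y * (2 * (n : ℝ))) atTop atTop :=
    (tendsto_natCast_atTop_atTop.const_mul_atTop (by norm_num : (0 : ℝ) < 2)).const_mul_atTop hy
  filter_upwards [h1.eventually_ge_atTop (a0 : ℝ)] with n hn
  exact Nat.le_floor hn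

theorem ix_of {c : ℕ} {y : ℝ} {n : ℕ} (h : (c : ℝ) ≤ y * (2 * n)) : c ≤ ix y n := Nat.le_floor h

theorem ix_mono {y z : ℝ} (h : y ≤ z) (n : ℕ) : ix y n ≤ ix z n :=
  Nat.floor_le_floor (mul_le_mul_of_nonneg_right h (by positivity))

/-- the limit -/
theorem lim_exists (F : Fam Q) {y : ℝ} (hy : 0 < y) :
    ∃ L : ℝ, Tendsto (fun n : ℕ => t Q (ix y n) n / n) atTop (𝓝 L) := by
  obtain ⟨a0, s0, hs0, hpos⟩ := x_pos F
  obtain ⟨s1, hs1⟩ := eventually_atTop.1 (ix_big hy a0)
  have hp : ∀ n, max s0 s1 ≤ n → 0 < x Q (ix y n) n := fun n hn =>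
    hpos _ _ (hs1 n ((le_max_right _ _).trans hn)) ((le_max_left _ _).trans hn)
  refine GEN.fekete (max s0 s1) (hs0.trans (le_max_left _ _)) (fun n => t Q (ix y n) n) ?_
    (Real.log 25) (fun n hn => t_up ((hs0.trans (le_max_left _ _)).trans hn) (hp n hn))
  intro n m hn hm
  refine (t_add F (ix_of ?_) ((hs0.trans (le_max_left _ _)).trans hn)
    ((hs0.trans (le_max_left _ _)).trans hm) (hp n hn) (hp m hm)).2
  have h1 := ix_le y hy.le n
  have h2 := ix_le y hy.le m
  push_cast
  linarith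

/-- the rate per unit length -/
def fr (Q : ℕ → List Dir → Prop) (F : Fam Q) (y : ℝ) : ℝ :=
  if h : 0 < y then (lim_exists F h).choose / 2 else 0

theorem fr_lim (F : Fam Q) {y : ℝ} (hy : 0 < y) :
    Tendsto (fun n : ℕ => t Q (ix y n) n / n) atTop (𝓝 (2 * fr Q F y)) := by
  have h := (lim_exists F hy).choose_spec
  have e : 2 * fr Q F y = (lim_exists F hy).choose := by
    unfold fr
    rw [dif_pos hy]
    ring
  rw [e]
  exact h

theorem pos_ev (F : Fam Q) {y : ℝ} (hy : 0 < y) : ∀ᶠ n : ℕ in atTop, 1 ≤ n ∧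
    0 < x Q (ix y n) n := by
  obtain ⟨a0, s0, hs0, hpos⟩ := x_pos F
  filter_upwards [ix_big hy a0, eventually_ge_atTop s0] with n h1 h2
  exact ⟨by omega, hpos _ _ h1 h2⟩

theorem fr_mono (F : Fam Q) : MonotoneOn (fr Q F) (Set.Ioi 0) := by
  intro y hy z hz hyz
  have h : 2 * fr Q F y ≤ 2 * fr Q F z := by
    refine le_of_tendsto_of_tendsto (fr_lim F hy) (fr_lim F hz) ?_
    filter_upwards [pos_ev F hy] with n hn
    exact div_le_div_of_nonneg_right (t_mono F (ix_mono hyz n) hn.1 hn.2) (Nat.cast_nonneg _)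
  linarith

/-- concavity, the case `y ≤ z` -/
theorem conc_aux (F : Fam Q) {y z l : ℝ} (hy : 0 < y) (hz : 0 < z) (hyz : y ≤ z) (hl : 0 < l)
    (hl1 : l < 1) :
    l * fr Q F z + (1 - l) * fr Q F y ≤ fr Q F (l * z + (1 - l) * y) := by
  have hw : 0 < l * z + (1 - l) * y := by
    have h1 : 0 < l * z := mul_pos hl hz
    have h2 : 0 < (1 - l) * y := mul_pos (by linarith) hy
    linarith
  obtain ⟨m, hm⟩ : ∃ m : ℕ → ℕ, ∀ n, m n = ⌊l * (n : ℝ)⌋₊ := ⟨_, fun n => rfl⟩
  have hm1 : ∀ n, (m n : ℝ) ≤ l * n := fun n => by rw [hm]; exact Nat.floor_le (by positivity)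
  have hm2 : ∀ n, l * n < m n + 1 := fun n => by rw [hm]; exact Nat.lt_floor_add_one _
  have hmn : ∀ n, m n ≤ n := by
    intro n
    have h1 := hm1 n
    have h2 : l * n ≤ n := by
      have : (0 : ℝ) ≤ n := Nat.cast_nonneg n
      nlinarith
    exact_mod_cast h1.trans h2
  have hmT : Tendsto m atTop atTop := by
    have h1 : Tendsto (fun n : ℕ => l * (n : ℝ)) atTop atTop :=
      tendsto_natCast_atTop_atTop.const_mul_atTop hl
    have h2 := tendsto_nat_floor_atTop.comp h1
    refine h2.congr fun n => ?_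
    rw [hm]
    rfl
  have hkT : Tendsto (fun n => n - m n) atTop atTop := by
    have h1 : Tendsto (fun n : ℕ => (1 - l) * (n : ℝ)) atTop atTop :=
      tendsto_natCast_atTop_atTop.const_mul_atTop (by linarith)
    have h2 := tendsto_nat_floor_atTop.comp h1
    refine tendsto_atTop_mono (fun n => ?_) h2
    simp only [Function.comp]
    have h3 : ((⌊(1 - l) * (n : ℝ)⌋₊ : ℕ) : ℝ) ≤ (1 - l) * n :=
      Nat.floor_le (mul_nonneg (by linarith) (Nat.cast_nonneg n))
    have h4 : ((⌊(1 - l) * (n : ℝ)⌋₊ : ℕ) : ℝ) + (m n : ℝ) ≤ n := by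
      have := hm1 n
      linarith
    have h5 : ⌊(1 - l) * (n : ℝ)⌋₊ + m n ≤ n := by exact_mod_cast h4
    omega
  have hrm : Tendsto (fun n : ℕ => (m n : ℝ) / n) atTop (𝓝 l) := by
    have h1 : Tendsto (fun n : ℕ => l - 1 / (n : ℝ)) atTop (𝓝 (l - 0)) :=
      tendsto_const_nhds.sub tendsto_one_div_atTop_nhds_zero_nat
    rw [sub_zero] at h1
    refine tendsto_of_tendsto_of_tendsto_of_le_of_le' h1 tendsto_const_nhds ?_ ?_
    · filter_upwards [eventually_gt_atTop 0] with n hn
      have hn0 : (0 : ℝ) < n := by exact_mod_cast hn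
      rw [le_div_iff₀ hn0]
      have := hm2 n
      have e : (l - 1 / (n : ℝ)) * n = l * n - 1 := by field_simp
      rw [e]
      linarith
    · filter_upwards [eventually_gt_atTop 0] with n hn
      have hn0 : (0 : ℝ) < n := by exact_mod_cast hn
      rw [div_le_iff₀ hn0]
      exact hm1 n
  have hrk : Tendsto (fun n : ℕ => ((n - m n : ℕ) : ℝ) / n) atTop (𝓝 (1 - l)) := by
    have h1 : Tendsto (fun n : ℕ => 1 - (m n : ℝ) / n) atTop (𝓝 (1 - l)) :=
      tendsto_const_nhds.sub hrm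
    refine h1.congr' ?_
    filter_upwards [eventually_gt_atTop 0] with n hn
    have hn0 : (n : ℝ) ≠ 0 := by
      have : (0 : ℝ) < n := by exact_mod_cast hn
      exact this.ne'
    rw [Nat.cast_sub (hmn n), sub_div, div_self hn0]
  have g1 := ((fr_lim F hz).comp hmT).mul hrm
  have g2 := ((fr_lim F hy).comp hkT).mul hrk
  have g3 := g1.add g2
  have g4 := fr_lim F hw
  have h : 2 * fr Q F z * l + 2 * fr Q F y * (1 - l) ≤ 2 * fr Q F (l * z + (1 - l) * y) := by
    refine le_of_tendsto_of_tendsto g3 g4 ?_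
    filter_upwards [hmT.eventually (pos_ev F hz), hkT.eventually (pos_ev F hy),
      eventually_gt_atTop 0] with n h1 h2 h3
    have hn0 : (0 : ℝ) < n := by exact_mod_cast h3
    have hm0 : (0 : ℝ) < m n := by exact_mod_cast (show 0 < m n by have := h1.1; omega)
    have hk0 : (0 : ℝ) < ((n - m n : ℕ) : ℝ) := by exact_mod_cast (by have := h2.1; omega)
    simp only [Function.comp]
    have e1 : t Q (ix z (m n)) (m n) / (m n : ℝ) * ((m n : ℝ) / n) +
        t Q (ix y (n - m n)) (n - m n) / ((n - m n : ℕ) : ℝ) * (((n - m n : ℕ) : ℝ) / n) =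
        (t Q (ix z (m n)) (m n) + t Q (ix y (n - m n)) (n - m n)) / n := by
      field_simp
    rw [e1]
    refine div_le_div_of_nonneg_right ?_ hn0.le
    have h4 : ix z (m n) + ix y (n - m n) ≤ ix (l * z + (1 - l) * y) (m n + (n - m n)) := by
      apply ix_of
      have i1 := ix_le z hz.le (m n)
      have i2 := ix_le y hy.le (n - m n)
      have i3 : m n + (n - m n) = n := by have := hmn n; omega
      rw [i3]
      push_cast [hmn n] at i2 ⊢
      have i4 := hm1 n
      have i5 : (z - y) * (m n : ℝ) ≤ (z - y) * (l * n) :=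
        mul_le_mul_of_nonneg_left i4 (by linarith)
      nlinarith [i1, i2, i5]
    have h5 := (t_add F h4 h1.1 h2.1 h1.2 h2.2).2
    have i3 : m n + (n - m n) = n := by have := hmn n; omega
    rw [i3] at h5
    exact h5
  linarith

theorem fr_concave (F : Fam Q) : ConcaveOn ℝ (Set.Ioi 0) (fr Q F) := by
  refine ⟨convex_Ioi 0, fun y hy z hz p q hp hq hpq => ?_⟩
  simp only [smul_eq_mul]
  have hy' : 0 < y := hy
  have hz' : 0 < z := hz
  rcases hp.eq_or_lt with h | hp'
  · rw [← h] at hpq ⊢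
    have : q = 1 := by linarith
    rw [this]; simp
  rcases hq.eq_or_lt with h | hq'
  · rw [← h] at hpq ⊢
    have : p = 1 := by linarith
    rw [this]; simp
  rcases le_total y z with h | h
  · have e : p = 1 - q := by linarith
    rw [e]
    have := conc_aux F hy' hz' h hq' (by linarith)
    have e2 : (1 - q) * fr Q F y + q * fr Q F z = q * fr Q F z + (1 - q) * fr Q F y := by ring
    have e3 : (1 - q) * y + q * z = q * z + (1 - q) * y := by ring
    rw [e2, e3]
    exact this
  · have e : q = 1 - p := by linarith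
    rw [e]
    exact conc_aux F hz' hy' h hp' (by linarith)

end

end Pool.Agent.K6.H23.KF
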