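import Pool.Agent.K6.H23.KnFree

/-!
# Families of classes of knot types that are additive under connected sums: consequences
-/

set_option autoImplicit false
set_option linter.unusedVariables false

namespace Pool.Agent.K6.H23.KF

open Finset Filter Topology KN
open scoped Classical

noncomputable section

variable {Q : ℕ → List Dir → Prop}

theorem log_pq {c n : ℕ} (hn : 1 ≤ n) (hx : 0 < x Q c n) :
    Real.log (pq (Q c) (2 * n)) = t Q c n + Real.log 16 := by
  have hn0 : (0 : ℝ) < n := by exact_mod_cast (show 0 < n by omega)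
  have e : pq (Q c) (2 * n) = x Q c n / (64 * n) * 16 := by
    unfold pq x
    push_cast
    field_simp
    ring
  rw [e, Real.log_mul (by positivity) (by norm_num)]
  rfl

theorem pq_pos {c n : ℕ} (hn : 1 ≤ n) (hx : 0 < x Q c n) : 0 < pq (Q c) (2 * n) := by
  have hn0 : (0 : ℝ) < n := by exact_mod_cast (show 0 < n by omega)
  unfold x at hx
  unfold pq
  push_cast
  positivity

theorem const_over (c : ℝ) : Tendsto (fun n : ℕ => c / (2 * (n : ℝ))) atTop (𝓝 0) := by
  have h : Tendsto (fun n : ℕ => (c / 2) / (n : ℝ)) atTop (𝓝 0) :=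
    tendsto_const_div_atTop_nhds_zero_nat _
  refine h.congr fun n => ?_
  rw [div_div]

/-- the limit of `log p_n / n` -/
theorem log_lim (F : Fam Q) {y : ℝ} (hy : 0 < y) :
    Tendsto (fun n : ℕ => Real.log (pq (Q (ix y n)) (2 * n)) / (2 * n)) atTop
      (𝓝 (fr Q F y)) := by
  have h1 := ((fr_lim F hy).div_const 2).add (const_over (Real.log 16))
  rw [add_zero, mul_div_cancel_left₀ _ (two_ne_zero)] at h1
  refine h1.congr' ?_
  filter_upwards [pos_ev F hy] with n hn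
  rw [log_pq hn.1 hn.2]
  have hn0 : (0 : ℝ) < n := by exact_mod_cast (show 0 < n by have := hn.1; omega)
  field_simp

theorem root_log {P : List Dir → Prop} {n : ℕ} (hp : 0 < pq P (2 * n)) :
    (pq P (2 * n)) ^ (1 / (2 * n : ℝ)) = Real.exp (Real.log (pq P (2 * n)) / (2 * n)) := by
  rw [Real.rpow_def_of_pos hp]
  congr 1
  ring

theorem root_lim (F : Fam Q) {y : ℝ} (hy : 0 < y) :
    Tendsto (fun n : ℕ => (pq (Q (ix y n)) (2 * n)) ^ (1 / (2 * n : ℝ))) atTop
      (𝓝 (Real.exp (fr Q F y))) := by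
  have h1 := (Real.continuous_exp.tendsto _).comp (log_lim F hy)
  refine h1.congr' ?_
  filter_upwards [pos_ev F hy] with n hn
  exact (root_log (pq_pos hn.1 hn.2)).symm

theorem pq_nn (P : List Dir → Prop) (n : ℕ) : 0 ≤ pq P n := by unfold pq; positivity

theorem cobdd (P : List Dir → Prop) : IsCoboundedUnder (· ≤ ·) atTop
    (fun j : ℕ => (pq P (2 * j)) ^ (1 / (2 * j : ℝ))) :=
  isCoboundedUnder_le_of_le atTop (x := 0) fun j => Real.rpow_nonneg (pq_nn P _) _

/-- the growth rate of a fixed class is at most the rate of the family -/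
theorem gr_le_exp (F : Fam Q) {y : ℝ} (hy : 0 < y) (P : List Dir → Prop)
    (h : ∀ᶠ j : ℕ in atTop, pq P (2 * j) ≤ pq (Q (ix y j)) (2 * j)) :
    gr P ≤ Real.exp (fr Q F y) := by
  rw [← (root_lim F hy).limsup_eq]
  unfold gr
  refine limsup_le_limsup ?_ (cobdd P) (root_lim F hy).isBoundedUnder_le
  filter_upwards [h] with j hj
  exact Real.rpow_le_rpow (pq_nn P _) hj (by positivity)

theorem exp_le_gr (F : Fam Q) {y : ℝ} (hy : 0 < y) (P : List Dir → Prop)
    (h : ∀ᶠ j : ℕ in atTop, pq (Q (ix y j)) (2 * j) ≤ pq P (2 * j)) :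
    Real.exp (fr Q F y) ≤ gr P := by
  rw [← (root_lim F hy).limsup_eq]
  unfold gr
  refine limsup_le_limsup ?_ ?_ (GEN.bdd_above S_five_proof P)
  · filter_upwards [h] with j hj
    exact Real.rpow_le_rpow (pq_nn _ _) hj (by positivity)
  · exact isCoboundedUnder_le_of_le atTop (x := 0) fun j => Real.rpow_nonneg (pq_nn _ _) _

theorem gr_fixed (F : Fam Q) {y : ℝ} (hy : 0 < y) (c : ℕ) : gr (Q c) ≤ Real.exp (fr Q F y) := by
  refine gr_le_exp F hy (Q c) ?_
  filter_upwards [ix_big hy c] with j hj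
  exact pq_mono (fun w hw => F.mono _ _ w hj hw) _

/-- the union of the classes -/
def un (Q : ℕ → List Dir → Prop) (w : List Dir) : Prop := ∃ c, Q c w

theorem un_class (F : Fam Q) : KClass (un Q) := by
  constructor
  · rintro w w' h1 h2 h3 ⟨c, hc⟩
    exact ⟨c, (F.cls c).same w w' h1 h2 h3 hc⟩
  · rintro w w' h1 h2 h3 ⟨c, hc⟩
    exact ⟨c, (F.cls c).rev w w' h1 h2 h3 hc⟩

theorem un_csum (F : Fam Q) : CSum (un Q) := by
  rintro l1 v l2 h ⟨c, hc⟩ ⟨d, hd⟩
  exact ⟨c + d, F.add c d l1 v l2 h hc hd⟩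

theorem un_ne (F : Fam Q) : ∃ w, SAP w ∧ un Q w := by
  obtain ⟨c, w, h1, h2⟩ := F.ne
  exact ⟨w, h1, c, h2⟩

theorem fr_le_un (F : Fam Q) {y : ℝ} (hy : 0 < y) : Real.exp (fr Q F y) ≤ gr (un Q) := by
  refine exp_le_gr F hy (un Q) (Eventually.of_forall fun j => ?_)
  exact pq_mono (fun w hw => ⟨_, hw⟩) _

/-- the limit is the supremum -/
theorem t_le (F : Fam Q) {y : ℝ} (hy : 0 < y) {n : ℕ} (hn : 1 ≤ n) (hx : 0 < x Q (ix y n) n) :
    t Q (ix y n) n / n ≤ 2 * fr Q F y := by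
  have hn0 : (0 : ℝ) < n := by exact_mod_cast (show 0 < n by omega)
  have key : ∀ j : ℕ, 0 < x Q (ix y ((j + 1) * n)) ((j + 1) * n) ∧
      ((j : ℝ) + 1) * t Q (ix y n) n ≤ t Q (ix y ((j + 1) * n)) ((j + 1) * n) := by
    intro j
    induction j with
    | zero => simp [hx]
    | succ j ih =>
      obtain ⟨ih1, ih2⟩ := ih
      have h1 : ix y ((j + 1) * n) + ix y n ≤ ix y ((j + 1) * n + n) := by
        apply ix_of
        have i1 := ix_le y hy.le ((j + 1) * n)
        have i2 := ix_le y hy.le n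
        push_cast at i1 i2 ⊢
        nlinarith
      obtain ⟨h2, h3⟩ := t_add F h1 (show 1 ≤ (j + 1) * n by nlinarith) hn ih1 hx
      have e : (j + 1 + 1) * n = (j + 1) * n + n := by ring
      rw [e]
      refine ⟨h2, ?_⟩
      push_cast
      linarith
  have g1 : Tendsto (fun j : ℕ => (j + 1) * n) atTop atTop := by
    refine tendsto_atTop_mono (fun j => ?_) tendsto_id
    simp only [id]
    nlinarith
  have g2 := (fr_lim F hy).comp g1
  refine ge_of_tendsto g2 (Eventually.of_forall fun j => ?_)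
  simp only [Function.comp]
  have hj : (0 : ℝ) < (j : ℝ) + 1 := by positivity
  rw [div_le_div_iff₀ hn0 (by push_cast; positivity)]
  push_cast
  have := mul_le_mul_of_nonneg_right (key j).2 hn0.le
  linarith

/-- the words of the union of a given length are in one class of the family -/
theorem un_eq (F : Fam Q) (n : ℕ) : ∃ c : ℕ, a (un Q) n = a (Q c) n := by
  have h1 : ∀ w ∈ K (un Q) n, ∃ c : ℕ, Q c w := fun w hw => (mem_K.1 hw).2.2
  choose! f hf using h1
  refine ⟨(K (un Q) n).sup f, le_antisymm ?_ (a_mono (fun w hw => ⟨_, hw⟩) n)⟩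
  unfold a
  refine card_le_card fun w hw => ?_
  have h2 := mem_K.1 hw
  rw [mem_K]
  exact ⟨h2.1, h2.2.1, F.mono _ _ w (Finset.le_sup (f := f) hw) (hf w hw)⟩

theorem sup_un (F : Fam Q) {ε : ℝ} (hε : 0 < ε) :
    ∃ y : ℝ, 0 < y ∧ Real.log (gr (un Q)) - ε < fr Q F y := by
  have hR := un_class F
  obtain ⟨g1, -, -⟩ := gr_bounds (un Q) hR (un_ne F)
  have hgr : 0 < gr (un Q) := by linarith
  have h1 := (class_sum (un Q) hR (un_ne F) (un_csum F)).1
  have h2 : Tendsto (fun j : ℕ => Real.log ((pq (un Q) (2 * j)) ^ (1 / (2 * j : ℝ)))) atTop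
      (𝓝 (Real.log (gr (un Q)))) := h1.log hgr.ne'
  have h3 := h2.eventually_const_lt (show Real.log (gr (un Q)) - ε / 2 < Real.log (gr (un Q)) by
    linarith)
  have h4 := (const_over (Real.log 16)).eventually_lt_const (show 0 < ε / 2 by linarith)
  obtain ⟨n, g3, g4, g5, g6⟩ := (h3.and (h4.and ((class_pos (un Q) hR (un_ne F)).and
    (eventually_ge_atTop 1)))).exists
  have hn0 : (0 : ℝ) < n := by exact_mod_cast (show 0 < n by omega)
  obtain ⟨c, hc⟩ := un_eq F (2 * n)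
  have hpq : pq (un Q) (2 * n) = pq (Q c) (2 * n) := by unfold pq; rw [hc]
  have hx : 0 < x Q c n := by
    rw [hpq] at g5
    exact g5.trans_le (GEN.pn_le_a (Q c) n (by omega))
  obtain ⟨y, hy, hcy⟩ : ∃ y : ℝ, 0 < y ∧ c ≤ ix y n := by
    refine ⟨((c : ℝ) + 1) / (2 * n), by positivity, ix_of ?_⟩
    rw [div_mul_cancel₀ _ (by positivity)]
    linarith
  have hx' : 0 < x Q (ix y n) n := hx.trans_le (x_mono F hcy n)
  refine ⟨y, hy, ?_⟩
  have g7 := t_le F hy g6 hx'
  have g8 := t_mono F hcy g6 hx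
  have g9 := log_pq g6 hx
  rw [root_log g5, Real.log_exp, hpq, g9] at g3
  have g10 : t Q c n / n ≤ 2 * fr Q F y := (div_le_div_of_nonneg_right g8 hn0.le).trans g7
  have e : (t Q c n + Real.log 16) / (2 * n) = t Q c n / n / 2 + Real.log 16 / (2 * n) := by
    field_simp
  rw [e] at g3
  linarith

/-- the rate at `0` -/
def f0 (Q : ℕ → List Dir → Prop) (F : Fam Q) : ℝ := sInf (fr Q F '' Set.Ioi 0)

theorem fr_low (F : Fam Q) {y : ℝ} (hy : 0 < y) : Real.log (gr U) ≤ fr Q F y := by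
  obtain ⟨c, w, h1, h2⟩ := F.ne
  obtain ⟨g1, g2, -⟩ := gr_bounds (Q c) (F.cls c) ⟨w, h1, h2⟩
  obtain ⟨g3, -, -⟩ := gr_bounds U (GEN.kt_class sq) ⟨sqw, c_sq.2.1, Or.inl (Same.refl _)⟩
  have h3 := g2.trans (gr_fixed F hy c)
  have h4 := Real.log_le_log (by linarith) h3
  rwa [Real.log_exp] at h4

theorem bddb (F : Fam Q) : BddBelow (fr Q F '' Set.Ioi 0) := by
  refine ⟨Real.log (gr U), ?_⟩
  rintro _ ⟨y, hy, rfl⟩
  exact fr_low F hy

theorem f0_le (F : Fam Q) {y : ℝ} (hy : 0 < y) : f0 Q F ≤ fr Q F y :=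
  csInf_le (bddb F) ⟨y, hy, rfl⟩

theorem f0_near (F : Fam Q) {ε : ℝ} (hε : 0 < ε) : ∃ y : ℝ, 0 < y ∧ fr Q F y < f0 Q F + ε := by
  obtain ⟨_, ⟨y, hy, rfl⟩, h⟩ := exists_lt_of_csInf_lt (s := fr Q F '' Set.Ioi 0)
    ⟨_, 1, Set.mem_Ioi.2 one_pos, rfl⟩ (show f0 Q F < f0 Q F + ε by linarith)
  exact ⟨y, hy, h⟩

theorem f0_low (F : Fam Q) : Real.log (gr U) ≤ f0 Q F :=
  le_csInf ⟨_, 1, Set.mem_Ioi.2 one_pos, rfl⟩ (by rintro _ ⟨y, hy, rfl⟩; exact fr_low F hy)

theorem f0_lim (F : Fam Q) : Tendsto (fr Q F) (𝓝[>] 0) (𝓝 (f0 Q F)) := by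
  rw [Metric.tendsto_nhdsWithin_nhds]
  intro ε hε
  obtain ⟨y, hy, h⟩ := f0_near F hε
  refine ⟨y, hy, fun z hz hzy => ?_⟩
  have hz0 : 0 < z := hz
  rw [Real.dist_eq, sub_zero, abs_of_pos hz0] at hzy
  have h1 := fr_mono F hz0 hy hzy.le
  have h2 := f0_le F hz0
  rw [Real.dist_eq, abs_lt]
  constructor <;> linarith

theorem gr_le_f0 (F : Fam Q) (P : List Dir → Prop) (hP : KClass P) (hne : ∃ w, SAP w ∧ P w)
    {c : ℕ} (h : ∀ w, SAP w → P w → Q c w) : Real.log (gr P) ≤ f0 Q F := by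
  obtain ⟨g1, -, -⟩ := gr_bounds P hP hne
  refine le_csInf ⟨_, 1, Set.mem_Ioi.2 one_pos, rfl⟩ ?_
  rintro _ ⟨y, hy, rfl⟩
  have h1 : gr P ≤ Real.exp (fr Q F y) := by
    refine gr_le_exp F hy P ?_
    filter_upwards [ix_big hy c] with j hj
    unfold pq
    refine div_le_div_of_nonneg_right ?_ (by positivity)
    unfold a
    refine Nat.cast_le.2 (card_le_card fun w hw => ?_)
    rw [mem_K] at hw ⊢
    exact ⟨hw.1, hw.2.1, F.mono _ _ w hj (h w hw.2.1 hw.2.2)⟩
  have h2 := Real.log_le_log (by linarith) h1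
  rwa [Real.log_exp] at h2

theorem f0_pos (F : Fam Q) : 0 < f0 Q F := by
  obtain ⟨g3, -, -⟩ := gr_bounds U (GEN.kt_class sq) ⟨sqw, c_sq.2.1, Or.inl (Same.refl _)⟩
  have h := f0_low F
  have : 0 < Real.log (gr U) := Real.log_pos (by linarith)
  linarith

/-- sequences `o(n)`: the upper bound -/
theorem seq_up (F : Fam Q) (s : ℕ → ℕ) (hs : Tendsto (fun n : ℕ => (s n : ℝ) / n) atTop (𝓝 0))
    {ε : ℝ} (hε : 0 < ε) :
    ∀ᶠ n : ℕ in atTop, Real.log (pq (Q (s n)) (2 * n)) / (2 * n) ≤ f0 Q F + ε := by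
  obtain ⟨y, hy, h⟩ := f0_near F (show 0 < ε / 2 by linarith)
  have h1 := hs.eventually_lt_const (show (0 : ℝ) < 2 * y by linarith)
  have h2 := (log_lim F hy).eventually_lt_const (show fr Q F y < fr Q F y + ε / 2 by linarith)
  have hf := f0_pos F
  filter_upwards [h1, h2, eventually_gt_atTop 0] with n g1 g2 g3
  have hn0 : (0 : ℝ) < n := by exact_mod_cast g3
  rcases (pq_nn (Q (s n)) (2 * n)).eq_or_lt with h0 | h0
  · rw [← h0, Real.log_zero, zero_div]
    linarith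
  · rw [div_lt_iff₀ hn0] at g1
    have g4 : s n ≤ ix y n := ix_of (by linarith)
    have g5 : pq (Q (s n)) (2 * n) ≤ pq (Q (ix y n)) (2 * n) :=
      pq_mono (fun w hw => F.mono _ _ w g4 hw) _
    have g6 := div_le_div_of_nonneg_right (Real.log_le_log h0 g5)
      (show (0 : ℝ) ≤ 2 * n by positivity)
    linarith

/-- diagonal sequences -/
theorem diag (P : ℕ → ℕ → Prop) (h : ∀ i, ∀ᶠ n : ℕ in atTop, P i n) :
    ∃ s : ℕ → ℕ, Tendsto s atTop atTop ∧ ∀ᶠ n : ℕ in atTop, P (s n) n := by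
  have h' : ∀ i, ∃ N, ∀ n, N ≤ n → P i n := fun i => eventually_atTop.1 (h i)
  choose N hN using h'
  refine ⟨fun n => Nat.findGreatest (fun i => ∀ j ≤ i, N j ≤ n) n, ?_, ?_⟩
  · rw [tendsto_atTop]
    intro I
    filter_upwards [eventually_ge_atTop (I + (range (I + 1)).sup N)] with n hn
    refine Nat.le_findGreatest (by omega) fun j hj => ?_
    have : N j ≤ (range (I + 1)).sup N := Finset.le_sup (f := N) (mem_range.2 (by omega))
    omega
  · filter_upwards [eventually_ge_atTop (N 0)] with n hn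
    apply hN
    have h1 : (fun i => ∀ j ≤ i, N j ≤ n) (Nat.findGreatest (fun i => ∀ j ≤ i, N j ≤ n) n) :=
      Nat.findGreatest_spec (P := fun i => ∀ j ≤ i, N j ≤ n) (Nat.zero_le n) (by
        intro j hj
        have : j = 0 := by omega
        rw [this]; exact hn)
    exact h1 _ le_rfl

/-- a sequence `o(n)` for which the rate at `0` is attained -/
theorem seq_ex (F : Fam Q) : ∃ s : ℕ → ℕ, Tendsto s atTop atTop ∧
    Tendsto (fun n : ℕ => (s n : ℝ) / n) atTop (𝓝 0) ∧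
    Tendsto (fun n : ℕ => Real.log (pq (Q (s n)) (2 * n)) / (2 * n)) atTop (𝓝 (f0 Q F)) := by
  obtain ⟨s, hs, hP⟩ := diag (fun i n => (i : ℝ) + 1 ≤ ix (1 / ((i : ℝ) + 1)) n ∧
      |Real.log (pq (Q (ix (1 / ((i : ℝ) + 1)) n)) (2 * n)) / (2 * n) -
        fr Q F (1 / ((i : ℝ) + 1))| ≤ 1 / ((i : ℝ) + 1)) (fun i => by
    have hi : (0 : ℝ) < 1 / ((i : ℝ) + 1) := by positivity
    have h1 := Metric.tendsto_atTop.1 (log_lim F hi) _ hi
    obtain ⟨N, hN⟩ := h1
    filter_upwards [eventually_ge_atTop N, ix_big hi (i + 1)] with n hn hn2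
    refine ⟨by exact_mod_cast hn2, ?_⟩
    have := hN n hn
    rw [Real.dist_eq] at this
    exact this.le)
  have hinv : Tendsto (fun n : ℕ => 1 / ((s n : ℝ) + 1)) atTop (𝓝 0) :=
    tendsto_one_div_add_atTop_nhds_zero_nat.comp hs
  refine ⟨fun n => ix (1 / ((s n : ℝ) + 1)) n, ?_, ?_, ?_⟩
  · refine tendsto_atTop_mono' atTop ?_ hs
    filter_upwards [hP] with n hn
    have : ((s n : ℕ) : ℝ) ≤ ((ix (1 / ((s n : ℝ) + 1)) n : ℕ) : ℝ) := by linarith [hn.1]
    exact_mod_cast this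
  · have h2 := hinv.const_mul 2
    rw [mul_zero] at h2
    refine squeeze_zero' (Eventually.of_forall fun n => by positivity) ?_ h2
    filter_upwards [eventually_gt_atTop 0] with n hn
    have hn0 : (0 : ℝ) < n := by exact_mod_cast hn
    rw [div_le_iff₀ hn0]
    have := ix_le (1 / ((s n : ℝ) + 1)) (by positivity) n
    linarith
  · have h3 : Tendsto (fun n : ℕ => fr Q F (1 / ((s n : ℝ) + 1))) atTop (𝓝 (f0 Q F)) := by
      refine (f0_lim F).comp (tendsto_nhdsWithin_iff.2 ⟨hinv, Eventually.of_forall fun n => ?_⟩)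
      show 0 < 1 / ((s n : ℝ) + 1)
      positivity
    have h4 : Tendsto (fun n : ℕ => Real.log (pq (Q (ix (1 / ((s n : ℝ) + 1)) n)) (2 * n)) /
        (2 * n) - fr Q F (1 / ((s n : ℝ) + 1))) atTop (𝓝 0) := by
      refine squeeze_zero_norm' ?_ hinv
      filter_upwards [hP] with n hn
      rw [Real.norm_eq_abs]
      exact hn.2
    have h5 := h4.add h3
    rw [zero_add] at h5
    refine h5.congr fun n => ?_
    ring

/-- the limit for a fixed class, if the rate at `0` is the one of the unknot -/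
theorem fixed_lim (F : Fam Q) (hf : f0 Q F = Real.log (gr U)) (P : List Dir → Prop)
    (hP : KClass P) (hne : ∃ w, SAP w ∧ P w) {c : ℕ} (h : ∀ w, SAP w → P w → Q c w) :
    Tendsto (fun j : ℕ => (pq P (2 * j)) ^ (1 / (2 * j : ℝ))) atTop (𝓝 (gr U)) ∧
      gr P = gr U := by
  have hU : KClass U := GEN.kt_class sq
  have hneU : ∃ w, SAP w ∧ U w := ⟨sqw, c_sq.2.1, Or.inl (Same.refl _)⟩
  obtain ⟨g3, -, -⟩ := gr_bounds U hU hneU
  have hU0 : 0 < gr U := by linarith
  obtain ⟨d, hd, hlow⟩ := class_low P hP hne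
  have h1 := (class_sum U hU hneU GEN.u_csum).1
  have key : Tendsto (fun j : ℕ => Real.log (pq P (2 * j)) / (2 * j)) atTop
      (𝓝 (Real.log (gr U))) := by
    have h2 : Tendsto (fun j : ℕ => Real.log ((pq U (2 * j)) ^ (1 / (2 * j : ℝ)))) atTop
      (𝓝 (Real.log (gr U))) := h1.log hU0.ne'
    have h3 := h2.add (const_over (Real.log d))
    rw [add_zero] at h3
    rw [Metric.tendsto_atTop] at h3 ⊢
    intro ε hε
    obtain ⟨N1, hN1⟩ := h3 ε hε
    have hs : Tendsto (fun n : ℕ => ((fun _ : ℕ => c) n : ℝ) / n) atTop (𝓝 0) :=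
      tendsto_const_div_atTop_nhds_zero_nat _
    obtain ⟨N2, hN2⟩ := eventually_atTop.1 (((seq_up F (fun _ => c) hs
      (show 0 < ε / 2 by linarith)).and hlow).and ((class_pos U hU hneU).and
      (eventually_gt_atTop 0)))
    refine ⟨max N1 N2, fun n hn => ?_⟩
    have e1 := hN1 n ((le_max_left _ _).trans hn)
    obtain ⟨⟨e2, e3⟩, e4, e5⟩ := hN2 n ((le_max_right _ _).trans hn)
    have hn0 : (0 : ℝ) < n := by exact_mod_cast e5
    rw [Real.dist_eq, root_log e4, Real.log_exp, abs_lt] at e1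
    have hdp : 0 < d * pq U (2 * n) := mul_pos hd e4
    have hPp : 0 < pq P (2 * n) := hdp.trans_le e3
    have e6 := Real.log_le_log hdp e3
    rw [Real.log_mul hd.ne' e4.ne'] at e6
    have e7 : pq P (2 * n) ≤ pq (Q c) (2 * n) := by
      unfold pq
      refine div_le_div_of_nonneg_right ?_ (by positivity)
      unfold a
      refine Nat.cast_le.2 (card_le_card fun w hw => ?_)
      rw [mem_K] at hw ⊢
      exact ⟨hw.1, hw.2.1, h w hw.2.1 hw.2.2⟩
    have e8 := Real.log_le_log hPp e7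
    have h2n : (0 : ℝ) < 2 * n := by positivity
    have e9 : (Real.log d + Real.log (pq U (2 * n))) / (2 * n) ≤
        Real.log (pq P (2 * n)) / (2 * n) := div_le_div_of_nonneg_right e6 h2n.le
    have e10 : Real.log (pq P (2 * n)) / (2 * n) ≤ Real.log (pq (Q c) (2 * n)) / (2 * n) :=
      div_le_div_of_nonneg_right e8 h2n.le
    rw [add_div] at e9
    rw [hf] at e2
    rw [Real.dist_eq, abs_lt]
    constructor <;> linarith
  have h5 : Tendsto (fun j : ℕ => (pq P (2 * j)) ^ (1 / (2 * j : ℝ))) atTop (𝓝 (gr U)) := by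
    have h6 := (Real.continuous_exp.tendsto _).comp key
    rw [Real.exp_log hU0] at h6
    refine h6.congr' ?_
    filter_upwards [class_pos P hP hne] with n hn
    exact (root_log hn).symm
  exact ⟨h5, h5.limsup_eq⟩

end

end Pool.Agent.K6.H23.KF
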