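import Pool.Agent.TH966.KS.Kn

/-!
# Positive sequences which do not jump upwards: limit points
-/

set_option autoImplicit false
set_option linter.unusedVariables false

namespace Pool.Agent.K6.H23.KL

open Filter Topology Set

/-- `q` makes no upward jumps, at the places where it is not small -/
def Nj (q : ℕ → ℝ) : Prop :=
  ∀ b ε : ℝ, 0 < b → 0 < ε → ∀ᶠ k : ℕ in atTop, b ≤ q (k + 1) → q (k + 1) ≤ (1 + ε) * q k

theorem cl_iff {q : ℕ → ℝ} {A : ℝ} :
    MapClusterPt A atTop q ↔ ∀ ε : ℝ, 0 < ε → ∃ᶠ k : ℕ in atTop, |q k - A| < ε := by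
  rw [mapClusterPt_iff_frequently]
  constructor
  · intro h ε hε
    have := h (Metric.ball A ε) (Metric.ball_mem_nhds A hε)
    simpa only [Metric.mem_ball, Real.dist_eq] using this
  · intro h s hs
    obtain ⟨ε, hε, hb⟩ := Metric.mem_nhds_iff.1 hs
    refine (h ε hε).mono fun k hk => hb ?_
    rwa [Metric.mem_ball, Real.dist_eq]

/-- intermediate values are limit points -/
theorem ivt {q : ℕ → ℝ} (hq : Nj q) {b : ℝ} (hb : 0 < b)
    (h1 : ∃ᶠ k : ℕ in atTop, q k ≤ b) (h2 : ∃ᶠ k : ℕ in atTop, b ≤ q k) :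
    MapClusterPt b atTop q := by
  classical
  rw [cl_iff]
  intro ε hε
  rw [frequently_atTop] at h1 h2 ⊢
  intro N
  obtain ⟨N0, hN0⟩ := eventually_atTop.1 (hq b (ε / (2 * b)) hb (by positivity))
  obtain ⟨k0, hk0, h3⟩ := h1 (max N N0)
  obtain ⟨k1, hk1, h4⟩ := h2 k0
  have hex : ∃ k, k0 ≤ k ∧ b ≤ q k := ⟨k1, hk1, h4⟩
  obtain ⟨h5, h6⟩ := Nat.find_spec hex
  have h7 : N ≤ k0 := (le_max_left _ _).trans hk0
  have h8 : N0 ≤ k0 := (le_max_right _ _).trans hk0
  rcases eq_or_lt_of_le h5 with h9 | h9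
  · refine ⟨k0, h7, ?_⟩
    rw [← h9] at h6
    have : q k0 = b := le_antisymm h3 h6
    rw [this]
    simpa using hε
  · obtain ⟨i, hi⟩ : ∃ i, Nat.find hex = i + 1 := ⟨Nat.find hex - 1, by omega⟩
    rw [hi] at h6 h9
    have h10 : q i < b := by
      by_contra hcon
      have := Nat.find_min hex (m := i) (by omega)
      exact this ⟨by omega, by linarith [not_lt.1 hcon]⟩
    have h11 := hN0 i (by omega) h6
    refine ⟨i + 1, by omega, ?_⟩
    have h12 : (1 + ε / (2 * b)) * q i ≤ (1 + ε / (2 * b)) * b := by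
      apply mul_le_mul_of_nonneg_left h10.le
      positivity
    have h13 : (1 + ε / (2 * b)) * b = b + ε / 2 := by
      field_simp
    rw [abs_lt]
    constructor <;> linarith

/-- the positive limit points -/
def P (q : ℕ → ℝ) : Set ℝ := {A | 0 < A ∧ MapClusterPt A atTop q}

theorem freq_le {q : ℕ → ℝ} {A b : ℝ} (h : MapClusterPt A atTop q) (hAb : A < b) :
    ∃ᶠ k : ℕ in atTop, q k ≤ b := by
  refine (cl_iff.1 h (b - A) (by linarith)).mono fun k hk => ?_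
  have := (abs_lt.1 hk).2
  linarith

theorem freq_ge {q : ℕ → ℝ} {A b : ℝ} (h : MapClusterPt A atTop q) (hAb : b < A) :
    ∃ᶠ k : ℕ in atTop, b ≤ q k := by
  refine (cl_iff.1 h (A - b) (by linarith)).mono fun k hk => ?_
  have := (abs_lt.1 hk).1
  linarith

theorem ord {q : ℕ → ℝ} (hq : Nj q) : (P q).OrdConnected := by
  refine ⟨fun x hx y hy z hz => ?_⟩
  obtain ⟨h1, h2⟩ := hz
  rcases eq_or_lt_of_le h1 with h3 | h3
  · rw [← h3]; exact hx
  rcases eq_or_lt_of_le h2 with h4 | h4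
  · rw [h4]; exact hy
  have hz0 : 0 < z := hx.1.trans h3
  exact ⟨hz0, ivt hq hz0 (freq_le hx.2 h3) (freq_ge hy.2 h4)⟩

theorem only {q : ℕ → ℝ} {A : ℝ} (h : Tendsto q atTop (𝓝 A)) {B : ℝ}
    (hB : MapClusterPt B atTop q) : B = A := by
  by_contra hne
  have hpos : 0 < |B - A| / 2 := by
    have := abs_pos.2 (sub_ne_zero.2 hne)
    linarith
  have h1 := cl_iff.1 hB _ hpos
  have h2 : ∀ᶠ k : ℕ in atTop, |q k - A| < |B - A| / 2 := by
    have := Metric.tendsto_atTop.1 h _ hpos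
    obtain ⟨N, hN⟩ := this
    filter_upwards [eventually_ge_atTop N] with k hk
    have := hN k hk
    rwa [Real.dist_eq] at this
  obtain ⟨k, hk1, hk2⟩ := (h1.and_eventually h2).exists
  have h3 : |B - A| ≤ |q k - B| + |q k - A| := by
    have : B - A = -(q k - B) + (q k - A) := by ring
    rw [this]
    refine (abs_add_le _ _).trans ?_
    rw [abs_neg]
  linarith

/-- a limit point near which there are only countably many is the limit -/
theorem iso {q : ℕ → ℝ} (hq : Nj q) {A : ℝ} (hA : 0 < A) :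
    Tendsto q atTop (𝓝 A) ↔ A ∈ P q ∧ ∃ δ : ℝ, 0 < δ ∧ (P q ∩ Ioo (A - δ) (A + δ)).Countable := by
  constructor
  · intro h
    refine ⟨⟨hA, h.mapClusterPt⟩, 1, one_pos, ?_⟩
    refine (Set.countable_singleton A).mono ?_
    rintro B ⟨hB, -⟩
    exact only h hB.2
  · rintro ⟨hAP, δ, hδ, hc⟩
    by_contra hcon
    rw [Metric.tendsto_atTop] at hcon
    push Not at hcon
    obtain ⟨ε, hε, h1⟩ := hcon
    -- a small `η`
    obtain ⟨η, hη, hη1, hη2, hη3⟩ : ∃ η : ℝ, 0 < η ∧ η ≤ ε ∧ η ≤ δ ∧ η ≤ A :=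
      ⟨min ε (min δ A), by positivity, min_le_left _ _, (min_le_right _ _).trans (min_le_left _ _),
        (min_le_right _ _).trans (min_le_right _ _)⟩
    have h2 : ∃ᶠ k : ℕ in atTop, η ≤ |q k - A| := by
      rw [frequently_atTop]
      intro N
      obtain ⟨n, hn, h3⟩ := h1 N
      rw [Real.dist_eq] at h3
      exact ⟨n, hn, hη1.trans h3⟩
    have h3 : (∃ᶠ k : ℕ in atTop, A + η ≤ q k) ∨ ∃ᶠ k : ℕ in atTop, q k ≤ A - η := by
      rw [← frequently_or_distrib]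
      refine h2.mono fun k hk => ?_
      rcases le_abs.1 hk with h4 | h4
      · left; linarith
      · right; linarith
    rcases h3 with h3 | h3
    · have h4 : Ioo A (A + η) ⊆ P q ∩ Ioo (A - δ) (A + δ) := by
        rintro x ⟨hx1, hx2⟩
        refine ⟨⟨by linarith, ivt hq (by linarith) (freq_le hAP.2 hx1)
          (h3.mono fun k hk => by linarith)⟩, by linarith, by linarith⟩
      have h5 := hc.mono h4
      exact Cardinal.Real.Ioo_countable_iff.1 h5 |>.not_gt (by linarith)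
    · have h4 : Ioo (A - η) A ⊆ P q ∩ Ioo (A - δ) (A + δ) := by
        rintro x ⟨hx1, hx2⟩
        refine ⟨⟨by linarith, ivt hq (by linarith) (h3.mono fun k hk => by linarith)
          (freq_ge hAP.2 hx2)⟩, by linarith, by linarith⟩
      have h5 := hc.mono h4
      exact Cardinal.Real.Ioo_countable_iff.1 h5 |>.not_gt (by linarith)

/-- no positive limit point -/
theorem empty_iff {q : ℕ → ℝ} (hq : Nj q) (h0 : ∀ᶠ k : ℕ in atTop, 0 ≤ q k) :
    P q = ∅ ↔ Tendsto q atTop (𝓝 0) ∨ Tendsto q atTop atTop := by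
  constructor
  · intro h
    by_contra hcon
    push Not at hcon
    obtain ⟨h1, h2⟩ := hcon
    rw [Metric.tendsto_atTop] at h1
    push Not at h1
    obtain ⟨ε, hε, h3⟩ := h1
    have h4 : ∃ᶠ k : ℕ in atTop, ε ≤ q k := by
      have h5 : ∃ᶠ k : ℕ in atTop, ε ≤ |q k| := by
        rw [frequently_atTop]
        intro N
        obtain ⟨n, hn, h6⟩ := h3 N
        rw [Real.dist_eq, sub_zero] at h6
        exact ⟨n, hn, h6⟩
      exact (h5.and_eventually h0).mono fun k hk => by rw [abs_of_nonneg hk.2] at hk; exact hk.1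
    rw [tendsto_atTop] at h2
    push Not at h2
    obtain ⟨M, hM⟩ := h2
    have hM' : ∃ᶠ k : ℕ in atTop, q k ≤ M := hM.mono fun k hk => le_of_lt hk
    by_cases h5 : ∃ᶠ k : ℕ in atTop, q k ≤ ε
    · have : ε ∈ P q := ⟨hε, ivt hq hε h5 h4⟩
      rw [h] at this
      exact this
    · rw [not_frequently] at h5
      have h6 : ∃ᶠ k : ℕ in atTop, q k ∈ Icc ε M :=
        (hM'.and_eventually h5).mono fun k hk => ⟨(not_le.1 hk.2).le, hk.1⟩
      obtain ⟨x, hx, hx2⟩ := (isCompact_Icc (a := ε) (b := M)).exists_mapClusterPt_of_frequently h6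
      have : x ∈ P q := ⟨lt_of_lt_of_le hε hx.1, hx2⟩
      rw [h] at this
      exact this
  · rintro (h | h)
    · ext x
      simp only [Set.mem_empty_iff_false, iff_false]
      rintro ⟨hx, hx2⟩
      have := only h hx2
      linarith
    · ext x
      simp only [Set.mem_empty_iff_false, iff_false]
      rintro ⟨hx, hx2⟩
      have h1 := freq_le hx2 (lt_add_one x)
      have h2 := h.eventually_gt_atTop (x + 1)
      obtain ⟨k, hk1, hk2⟩ := (h1.and_eventually h2).exists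
      linarith

/-- a sequence with a nonempty countable set of positive limit points converges -/
theorem conv_of_countable {q : ℕ → ℝ} (hq : Nj q) (h1 : (P q).Nonempty) (h2 : (P q).Countable) :
    ∃ A : ℝ, 0 < A ∧ Tendsto q atTop (𝓝 A) := by
  obtain ⟨A, hA⟩ := h1
  exact ⟨A, hA.1, (iso hq hA.1).2 ⟨hA, 1, one_pos, h2.mono Set.inter_subset_left⟩⟩

theorem countable_of_conv {q : ℕ → ℝ} {A : ℝ} (hA : 0 < A) (h : Tendsto q atTop (𝓝 A)) :
    (P q).Nonempty ∧ (P q).Countable := by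
  refine ⟨⟨A, hA, h.mapClusterPt⟩, (Set.countable_singleton A).mono ?_⟩
  rintro B hB
  exact only h hB.2

/-- the exponents: `q α k = y k / (2 k) ^ (α - 3)` -/
theorem between {y : ℕ → ℝ} (hy : ∀ᶠ k : ℕ in atTop, 0 ≤ y k) {α₁ α α₂ : ℝ} (h1 : α₁ < α)
    (h2 : α < α₂) (hq : Nj fun k : ℕ => y k / (2 * k : ℝ) ^ (α - 3))
    (hP1 : (P fun k : ℕ => y k / (2 * k : ℝ) ^ (α₁ - 3)).Nonempty)
    (hP2 : (P fun k : ℕ => y k / (2 * k : ℝ) ^ (α₂ - 3)).Nonempty) :
    (P fun k : ℕ => y k / (2 * k : ℝ) ^ (α - 3)) = Ioi 0 := by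
  have h2k : Tendsto (fun k : ℕ => (2 * k : ℝ)) atTop atTop :=
    tendsto_natCast_atTop_atTop.const_mul_atTop (by norm_num)
  have key : ∀ β : ℝ, ∀ k : ℕ, 0 < k → y k / (2 * k : ℝ) ^ (α - 3) =
      y k / (2 * k : ℝ) ^ (β - 3) * (2 * k : ℝ) ^ (β - α) := by
    intro β k hk
    have hk0 : (0 : ℝ) < 2 * k := by
      have : (0 : ℝ) < k := by exact_mod_cast hk
      linarith
    have e : (2 * k : ℝ) ^ (β - α) = (2 * k : ℝ) ^ (β - 3) / (2 * k : ℝ) ^ (α - 3) := by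
      rw [← Real.rpow_sub hk0]; congr 1; ring
    rw [e]
    have g1 : (0 : ℝ) < (2 * k : ℝ) ^ (β - 3) := Real.rpow_pos_of_pos hk0 _
    have g2 : (0 : ℝ) < (2 * k : ℝ) ^ (α - 3) := Real.rpow_pos_of_pos hk0 _
    field_simp
  ext B
  constructor
  · intro h
    exact h.1
  · intro hB
    have hB0 : (0 : ℝ) < B := hB
    refine ⟨hB0, ivt hq hB0 ?_ ?_⟩
    · obtain ⟨A, hA⟩ := hP1
      have f1 := freq_le hA.2 (lt_add_one A)
      have f2 : Tendsto (fun k : ℕ => (2 * k : ℝ) ^ (α₁ - α)) atTop (𝓝 0) := by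
        have := (tendsto_rpow_neg_atTop (show 0 < α - α₁ by linarith)).comp h2k
        refine this.congr fun k => ?_
        simp only [Function.comp]
        congr 1; ring
      have hA1 : 0 < A + 1 := by linarith [hA.1]
      have f3 := f2.eventually_lt_const (show 0 < B / (A + 1) by positivity)
      refine ((f1.and_eventually (f3.and (eventually_gt_atTop 0)))).mono fun k hk => ?_
      obtain ⟨g1, g2, g3⟩ := hk
      show y k / (2 * k : ℝ) ^ (α - 3) ≤ B
      rw [key α₁ k g3]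
      have hk0 : (0 : ℝ) < 2 * k := by
        have : (0 : ℝ) < k := by exact_mod_cast g3
        linarith
      have g4 : (0 : ℝ) < (2 * k : ℝ) ^ (α₁ - α) := Real.rpow_pos_of_pos hk0 _
      calc _ ≤ (A + 1) * (2 * k : ℝ) ^ (α₁ - α) := mul_le_mul_of_nonneg_right g1 g4.le
        _ ≤ (A + 1) * (B / (A + 1)) := mul_le_mul_of_nonneg_left g2.le hA1.le
        _ = B := by field_simp
    · obtain ⟨A, hA⟩ := hP2
      have f1 := freq_ge hA.2 (show A / 2 < A by linarith [hA.1])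
      have f2 : Tendsto (fun k : ℕ => (2 * k : ℝ) ^ (α₂ - α)) atTop atTop :=
        (tendsto_rpow_atTop (show 0 < α₂ - α by linarith)).comp h2k
      have hA1 : 0 < A / 2 := by linarith [hA.1]
      have f3 := f2.eventually_gt_atTop (B / (A / 2))
      refine ((f1.and_eventually (f3.and (eventually_gt_atTop 0)))).mono fun k hk => ?_
      obtain ⟨g1, g2, g3⟩ := hk
      show B ≤ y k / (2 * k : ℝ) ^ (α - 3)
      rw [key α₂ k g3]
      have hA' : A ≠ 0 := hA.1.ne'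
      calc B = A / 2 * (B / (A / 2)) := by field_simp
        _ ≤ A / 2 * (2 * k : ℝ) ^ (α₂ - α) := mul_le_mul_of_nonneg_left g2.le hA1.le
        _ ≤ _ := mul_le_mul_of_nonneg_right g1 (by positivity)

open TH966.KS KN

/-- no upward jumps of the normalised counts, in a class of knot types -/
theorem up_one (Q : List Dir → Prop) (hQ : KClass Q) (hne : ∃ w, SAP w ∧ Q w) (ε : ℝ)
    (hε : 0 < ε) : ∃ θ : ℝ, 0 < θ ∧ θ < 1 ∧ ∀ᶠ k : ℕ in atTop,
      θ ^ (2 * (k + 1)) ≤ yq Q (k + 1) → yq Q (k + 1) ≤ (1 + ε) * yq Q k := by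
  obtain ⟨D, θ, k0, hD, hθ0, hθ1, hK⟩ := kes_yq Q hQ hne
  obtain ⟨h1, -, -⟩ := gr_bounds Q hQ hne
  have hμ : 0 < gr Q := by linarith
  obtain ⟨ε1, hε1, hε2⟩ : ∃ ε1 : ℝ, 0 < ε1 ∧ (1 + ε1) * (1 + ε1) ≤ 1 + ε := by
    refine ⟨min 1 (ε / 3), by positivity, ?_⟩
    have g1 : min 1 (ε / 3) ≤ 1 := min_le_left _ _
    have g2 : min 1 (ε / 3) ≤ ε / 3 := min_le_right _ _
    have g3 : 0 < min 1 (ε / 3) := by positivity
    nlinarith
  obtain ⟨δ, hδ0, hδ1, hr⟩ := class_ratio Q hQ hne (gr Q ^ 2 * ε1) (by positivity)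
  refine ⟨max θ (1 - δ), lt_max_of_lt_left hθ0, max_lt hθ1 (by linarith), ?_⟩
  have hr' := (tendsto_add_atTop_nat 1).eventually hr
  have hDk : Tendsto (fun k : ℕ => D / (k : ℝ)) atTop (𝓝 0) :=
    tendsto_const_div_atTop_nhds_zero_nat _
  filter_upwards [hr', hDk.eventually_lt_const hε1, eventually_ge_atTop k0,
    class_pos Q hQ hne] with k g1 g2 g3 g4 g5
  have g6 : θ ^ (2 * (k + 1)) ≤ yq Q (k + 1) :=
    (pow_le_pow_left₀ hθ0.le (le_max_left _ _) _).trans g5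
  have g7 : (1 - δ) ^ (2 * (k + 1)) ≤ yq Q (k + 1) :=
    (pow_le_pow_left₀ (by linarith) (le_max_right _ _) _).trans g5
  have hμk : 0 < gr Q ^ (2 * (k + 1)) := pow_pos hμ _
  have hy1 : 0 < yq Q (k + 1) := lt_of_lt_of_le (pow_pos (by linarith) _) g7
  have hy0 : 0 < yq Q k := div_pos g4 (pow_pos hμ _)
  have g8 : pq Q (2 * (k + 1)) = yq Q (k + 1) * gr Q ^ (2 * (k + 1)) := by
    unfold yq; rw [div_mul_cancel₀ _ hμk.ne']
  have g9 : pq Q (2 * (k + 1) + 2) = yq Q (k + 2) * (gr Q ^ (2 * (k + 1)) * gr Q ^ 2) := by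
    unfold yq
    rw [← pow_add, show 2 * (k + 2) = 2 * (k + 1) + 2 by ring, div_mul_cancel₀]
    exact (pow_pos hμ _).ne'
  have g10 := g1 (by
    rw [mul_pow, g8]
    exact mul_le_mul_of_nonneg_right g7 hμk.le)
  have g11 : pq Q (2 * (k + 1) + 2) / pq Q (2 * (k + 1)) ≤ gr Q ^ 2 + gr Q ^ 2 * ε1 := by
    have := (abs_le.1 g10).2
    linarith
  have g12 : yq Q (k + 2) ≤ (1 + ε1) * yq Q (k + 1) := by
    rw [g8, g9, div_le_iff₀ (by positivity)] at g11
    have hM : 0 < gr Q ^ (2 * (k + 1)) * gr Q ^ 2 := by positivity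
    refine le_of_mul_le_mul_right ?_ hM
    refine g11.trans (le_of_eq ?_)
    ring
  have g13 := hK k g3 g6
  -- `y (k+1)² ≤ y k y (k+2) (1 + D/k)`
  have g14 : yq Q (k + 1) * yq Q (k + 1) ≤ ((1 + ε) * yq Q k) * yq Q (k + 1) := by
    calc yq Q (k + 1) * yq Q (k + 1) = yq Q (k + 1) ^ 2 := by ring
      _ ≤ yq Q k * yq Q (k + 2) * (1 + D / k) := g13
      _ ≤ yq Q k * ((1 + ε1) * yq Q (k + 1)) * (1 + ε1) := by
          have : 0 ≤ yq Q (k + 2) := yq_nonneg Q hμ.le _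
          gcongr
      _ = ((1 + ε1) * (1 + ε1)) * (yq Q k * yq Q (k + 1)) := by ring
      _ ≤ (1 + ε) * (yq Q k * yq Q (k + 1)) := by gcongr
      _ = _ := by ring
  exact le_of_mul_le_mul_right g14 hy1

theorem nj_form (Q : List Dir → Prop) (hQ : KClass Q) (hne : ∃ w, SAP w ∧ Q w) (β : ℝ) :
    Nj fun k : ℕ => yq Q k / (2 * k : ℝ) ^ β := by
  intro b ε hb hε
  obtain ⟨ε1, hε1, hε2⟩ : ∃ ε1 : ℝ, 0 < ε1 ∧ (1 + ε1) * (1 + ε1) ≤ 1 + ε := by
    refine ⟨min 1 (ε / 3), by positivity, ?_⟩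
    have g1 : min 1 (ε / 3) ≤ 1 := min_le_left _ _
    have g2 : min 1 (ε / 3) ≤ ε / 3 := min_le_right _ _
    have g3 : 0 < min 1 (ε / 3) := by positivity
    nlinarith
  obtain ⟨θ, hθ0, hθ1, hup⟩ := up_one Q hQ hne ε1 hε1
  obtain ⟨h1, -, -⟩ := gr_bounds Q hQ hne
  have hμ : 0 < gr Q := by linarith
  -- `θ^(2k) ≤ b (2k)^β` for large `k`
  have hsm : ∀ᶠ k : ℕ in atTop, θ ^ (2 * k) ≤ b * (2 * k : ℝ) ^ β := by
    have t1 := psi_zero β (Real.log b)
    have hl : 2 * Real.log θ < 0 := by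
      have := Real.log_neg hθ0 hθ1
      linarith
    filter_upwards [t1.eventually_const_lt hl, eventually_gt_atTop 0] with k g1 g2
    have hk0 : (0 : ℝ) < k := by exact_mod_cast g2
    rw [lt_div_iff₀ hk0] at g1
    have hp : (0 : ℝ) < (2 * k : ℝ) ^ β := Real.rpow_pos_of_pos (by positivity) _
    refine (Real.log_le_log_iff (by positivity) (by positivity)).1 ?_
    rw [Real.log_pow, Real.log_mul hb.ne' hp.ne', Real.log_rpow (by positivity)]
    push_cast
    linarith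
  have hsm1 := (tendsto_add_atTop_nat 1).eventually hsm
  -- `((k/(k+1))^β ≤ 1 + ε1`
  have hrat : ∀ᶠ k : ℕ in atTop, (2 * k : ℝ) ^ β ≤ (1 + ε1) * (2 * ((k : ℝ) + 1)) ^ β := by
    have t1 : Tendsto (fun k : ℕ => ((k : ℝ) / ((k : ℝ) + 1)) ^ β) atTop (𝓝 (1 ^ β)) := by
      refine Tendsto.rpow_const ?_ (Or.inl one_ne_zero)
      have := tendsto_natCast_div_add_atTop (𝕜 := ℝ) 1
      simpa using this
    rw [Real.one_rpow] at t1
    filter_upwards [t1.eventually_lt_const (show (1 : ℝ) < 1 + ε1 by linarith),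
      eventually_gt_atTop 0] with k g1 g2
    have hk0 : (0 : ℝ) < k := by exact_mod_cast g2
    have e : (2 * k : ℝ) ^ β = ((k : ℝ) / ((k : ℝ) + 1)) ^ β * (2 * ((k : ℝ) + 1)) ^ β := by
      rw [← Real.mul_rpow (by positivity) (by positivity)]
      congr 1
      field_simp
    rw [e]
    have : (0 : ℝ) < (2 * ((k : ℝ) + 1)) ^ β := Real.rpow_pos_of_pos (by positivity) _
    exact mul_le_mul_of_nonneg_right g1.le this.le
  filter_upwards [hup, hsm1, hrat, eventually_gt_atTop 0] with k g1 g2 g3 g4 g5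
  simp only [Nat.cast_add, Nat.cast_one] at g2 g5 ⊢
  have hk0 : (0 : ℝ) < k := by exact_mod_cast g4
  have p0 : (0 : ℝ) < (2 * k : ℝ) ^ β := Real.rpow_pos_of_pos (by positivity) _
  have p1 : (0 : ℝ) < (2 * ((k : ℝ) + 1)) ^ β := Real.rpow_pos_of_pos (by positivity) _
  have g6 : θ ^ (2 * (k + 1)) ≤ yq Q (k + 1) := by
    rw [le_div_iff₀ p1] at g5
    exact g2.trans g5
  have g7 := g1 g6
  have g8 : 0 ≤ yq Q k := yq_nonneg Q hμ.le k
  rw [div_le_iff₀ p1]
  calc yq Q (k + 1) ≤ (1 + ε1) * yq Q k := g7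
    _ = (1 + ε1) * (yq Q k / (2 * k : ℝ) ^ β) * (2 * k : ℝ) ^ β := by field_simp
    _ ≤ (1 + ε1) * (yq Q k / (2 * k : ℝ) ^ β) * ((1 + ε1) * (2 * ((k : ℝ) + 1)) ^ β) := by
        gcongr
    _ = ((1 + ε1) * (1 + ε1)) * (yq Q k / (2 * k : ℝ) ^ β) * (2 * ((k : ℝ) + 1)) ^ β := by ring
    _ ≤ (1 + ε) * (yq Q k / (2 * k : ℝ) ^ β) * (2 * ((k : ℝ) + 1)) ^ β := by gcongr

end Pool.Agent.K6.H23.KL
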