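import Pool.Agent.K6.H23.KnFree2

/-!
# The knot types with a short lattice polygon
-/

set_option autoImplicit false
set_option linter.unusedVariables false

namespace Pool.Agent.K6.H23.KF

open Finset Filter Topology KN KN.KQ
open scoped Classical

/-- the knot type of `w` is the knot type of a lattice polygon of length at most `c` -/
def Short (c : ℕ) (w : List Dir) : Prop := ∃ w', SAP w' ∧ w'.length ≤ c ∧ KT (vl w') w

theorem inv_rx {w u : List Dir} (hu : SAP u) :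
    Same (vl u) (vl w) ↔ Same (vl (u.map rx)) (vl w) :=
  ⟨fun h => ((c_words u hu).1.2.symm).trans h, fun h => ((c_words u hu).1.2).trans h⟩

theorem inv_rot {w u : List Dir} (hu : SAP u) (k : ℕ) :
    Same (vl u) (vl w) ↔ Same (vl (u.rotate k)) (vl w) :=
  ⟨fun h => (((c_words u hu).2.2 k).2.symm).trans h, fun h => (((c_words u hu).2.2 k).2).trans h⟩

theorem repR {w : List Dir} (hw : SAP w) : ∃ l1 l2 : List Dir, SAP (l1 ++ .zp :: l2) ∧
    (∀ p ∈ path (l1 ++ .zp :: l2), p.1 ≤ (pos l2).1) ∧ (l1 ++ Dir.zp :: l2).length = w.length ∧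
    Same (vl (l1 ++ .zp :: l2)) (vl w) := by
  have h3 := S_quartR_proof (fun u => Same (vl u) (vl w)) (fun u hu => inv_rx hu) w.length
  have h4 : 0 < a (fun u => Same (vl u) (vl w)) w.length := by
    unfold a
    rw [Finset.card_pos]
    exact ⟨w, mem_K.2 ⟨rfl, hw, Same.refl _⟩⟩
  have h5 : 0 < ((K (fun u => Same (vl u) (vl w)) w.length).filter (fun w => ∃ l1 l2 : List Dir,
      w = l1 ++ .zp :: l2 ∧ ∀ p ∈ path w, p.1 ≤ (pos l2).1)).card := by
    rcases Nat.eq_zero_or_pos ((K (fun u => Same (vl u) (vl w)) w.length).filter (fun w =>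
      ∃ l1 l2 : List Dir, w = l1 ++ .zp :: l2 ∧ ∀ p ∈ path w, p.1 ≤ (pos l2).1)).card with h | h
    · rw [h] at h3
      omega
    · exact h
  obtain ⟨u, hu⟩ := Finset.card_pos.1 h5
  rw [Finset.mem_filter, mem_K] at hu
  obtain ⟨⟨hu0, hu1, hu2⟩, l1, l2, rfl, hv⟩ := hu
  exact ⟨l1, l2, hu1, hv, hu0, hu2⟩

theorem repL {w : List Dir} (hw : SAP w) : ∃ v : List Dir, SAP (.zm :: v) ∧
    (∀ p ∈ path v, 0 ≤ p.1) ∧ (Dir.zm :: v).length = w.length ∧ Same (vl (.zm :: v)) (vl w) := by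
  have h3 := S_quartL_proof (fun u => Same (vl u) (vl w)) (fun u hu => inv_rx hu)
    (fun u hu k => inv_rot hu k) w.length
  have h4 : 0 < a (fun u => Same (vl u) (vl w)) w.length := by
    unfold a
    rw [Finset.card_pos]
    exact ⟨w, mem_K.2 ⟨rfl, hw, Same.refl _⟩⟩
  have h5 : 0 < ((K (fun u => Same (vl u) (vl w)) w.length).filter (fun w => ∃ v : List Dir,
      w = .zm :: v ∧ ∀ p ∈ path v, 0 ≤ p.1)).card := by
    rcases Nat.eq_zero_or_pos ((K (fun u => Same (vl u) (vl w)) w.length).filter (fun w =>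
      ∃ v : List Dir, w = .zm :: v ∧ ∀ p ∈ path v, 0 ≤ p.1)).card with h | h
    · rw [h] at h3
      omega
    · exact h
  obtain ⟨u, hu⟩ := Finset.card_pos.1 h5
  rw [Finset.mem_filter, mem_K] at hu
  obtain ⟨⟨hu0, hu1, hu2⟩, v, rfl, hv⟩ := hu
  exact ⟨v, hu1, hv, hu0, hu2⟩

/-- an oriented representative -/
theorem orient {w w' : List Dir} (hw' : SAP w') (h : KT (vl w') w) :
    ∃ u, SAP u ∧ u.length = w'.length ∧ Same (vl u) (vl w) := by
  rcases h with h | h
  · exact ⟨w', hw', rfl, h.symm⟩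
  · obtain ⟨h1, h2⟩ := back_word S_rot_proof c_rev S_simple_proof hw'
    exact ⟨back w', h1, by simp [back], h2.trans h.symm⟩

theorem short_add (c d : ℕ) (l1 v l2 : List Dir) (hF : Facing l1 v l2)
    (h1 : Short c (l1 ++ .zp :: l2)) (h2 : Short d (.zm :: v)) :
    Short (c + d) (join l1 v l2) := by
  obtain ⟨w1, a1, a2, a3⟩ := h1
  obtain ⟨w2, b1, b2, b3⟩ := h2
  obtain ⟨u1, a4, a5, a6⟩ := orient a1 a3
  obtain ⟨u2, b4, b5, b6⟩ := orient b1 b3
  obtain ⟨m1, m2, c1, c2, c3, c4⟩ := repR a4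
  obtain ⟨u, d1, d2, d3, d4⟩ := repL b4
  have hF' : Facing m1 u m2 := ⟨c1, c2, d1, d2⟩
  have hS : Same (vl (join l1 v l2)) (vl (join m1 u m2)) :=
    isSum_unique (k := vl (l1 ++ .zp :: l2)) (l := vl (.zm :: v))
      ⟨l1, v, l2, hF, Same.refl _, Same.refl _, Same.refl _⟩
      ⟨m1, u, m2, hF', c4.trans a6, d4.trans b6, Same.refl _⟩
  refine ⟨join m1 u m2, S_glueSAP_proof m1 u m2 hF', ?_, Or.inl hS⟩
  simp only [KN.join, List.length_append, List.length_cons] at c3 d3 ⊢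
  omega

theorem short_fam : Fam Short := by
  refine ⟨fun c => ?_, ?_, short_add, ⟨4, sqw, c_sq.2.1, sqw, c_sq.2.1, ?_, Or.inl (Same.refl _)⟩⟩
  · constructor
    · rintro w w' h1 h2 h3 ⟨u, g1, g2, g3⟩
      exact ⟨u, g1, g2, (GEN.kt_class (vl u)).same w w' h1 h2 h3 g3⟩
    · rintro w w' h1 h2 h3 ⟨u, g1, g2, g3⟩
      exact ⟨u, g1, g2, (GEN.kt_class (vl u)).rev w w' h1 h2 h3 g3⟩
  · rintro c d w hcd ⟨u, g1, g2, g3⟩
    exact ⟨u, g1, g2.trans hcd, g3⟩
  · decide

theorem short_self {w : List Dir} (hw : SAP w) {c : ℕ} (h : w.length ≤ c) : Short c w :=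
  ⟨w, hw, h, Or.inl (Same.refl _)⟩

theorem short_kt {w0 : List Dir} (hw0 : SAP w0) {k : List V} (hk : KT k w0) :
    ∀ w, SAP w → KT k w → Short w0.length w := by
  intro w hw h
  refine ⟨w0, hw0, le_rfl, ?_⟩
  rcases hk with hk | hk <;> rcases h with h | h
  · exact Or.inl (h.trans hk.symm)
  · right
    have h2 := (c_rev _ _).2 hk
    exact h.trans h2.symm
  · right
    have h2 := (c_rev _ _).2 hk
    rw [List.reverse_reverse] at h2
    exact h.trans h2.symm
  · exact Or.inl (h.trans hk.symm)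

end Pool.Agent.K6.H23.KF
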