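import Mathlib

/-!
# Permutations that strongly avoid 321 and 1342: structure

Permutations of `[0, n)` are permutations of `ℕ` that fix all `i ≥ n`.
-/

set_option autoImplicit false

namespace Pool.Agent.K6.H23.SAv

open Finset

/-- avoids 321 -/
def A321 (f : ℕ → ℕ) : Prop := ∀ i j k, i < j → j < k → f k < f j → f j < f i → False

/-- avoids 1342 -/
def A1342 (f : ℕ → ℕ) : Prop :=
  ∀ i j k l, i < j → j < k → k < l → f i < f l → f l < f j → f j < f k → False

/-- strongly avoids 321 and 1342 -/
def Good (f : ℕ → ℕ) : Prop :=
  A321 f ∧ A1342 f ∧ A321 (fun i => f (f i)) ∧ A1342 (fun i => f (f i))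

/-- an increasing bijection between intervals -/
theorem seg {g : ℕ → ℕ} {p q A B : ℕ} (hmono : ∀ i j, p ≤ i → i < j → j < q → g i < g j)
    (hmem : ∀ i, p ≤ i → i < q → A ≤ g i ∧ g i < B)
    (hsurj : ∀ v, A ≤ v → v < B → ∃ i, p ≤ i ∧ i < q ∧ g i = v) :
    q - p = B - A ∧ ∀ i, p ≤ i → i < q → i - p = g i - A := by
  have hinj : Set.InjOn g (Set.Ico p q) := by
    intro i hi j hj h
    rcases lt_trichotomy i j with h1 | h1 | h1
    · exact absurd h (hmono i j hi.1 h1 hj.2).ne
    · exact h1
    · exact absurd h (hmono j i hj.1 h1 hi.2).ne'
  constructor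
  · have h1 : (Finset.Ico p q).image g = Finset.Ico A B := by
      ext v
      rw [Finset.mem_image, Finset.mem_Ico]
      constructor
      · rintro ⟨i, hi, rfl⟩
        rw [Finset.mem_Ico] at hi
        exact hmem i hi.1 hi.2
      · rintro ⟨h1, h2⟩
        obtain ⟨i, hi1, hi2, hi3⟩ := hsurj v h1 h2
        exact ⟨i, Finset.mem_Ico.2 ⟨hi1, hi2⟩, hi3⟩
    have h2 := Finset.card_image_of_injOn (s := Finset.Ico p q) (f := g) (by
      intro i hi j hj h
      exact hinj (by simpa using hi) (by simpa using hj) h)
    rw [h1, Nat.card_Ico, Nat.card_Ico] at h2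
    exact h2.symm
  · intro i hpi hiq
    have h1 : (Finset.Ico p i).image g = Finset.Ico A (g i) := by
      ext v
      rw [Finset.mem_image, Finset.mem_Ico]
      constructor
      · rintro ⟨j, hj, rfl⟩
        rw [Finset.mem_Ico] at hj
        exact ⟨(hmem j hj.1 (hj.2.trans hiq)).1, hmono j i hj.1 hj.2 hiq⟩
      · rintro ⟨h1, h2⟩
        obtain ⟨j, hj1, hj2, hj3⟩ := hsurj v h1 (h2.trans (hmem i hpi hiq).2)
        refine ⟨j, Finset.mem_Ico.2 ⟨hj1, ?_⟩, hj3⟩
        rcases lt_trichotomy j i with h3 | h3 | h3
        · exact h3
        · subst h3
          omega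
        · have := hmono i j hpi h3 hj2
          omega
    have h2 := Finset.card_image_of_injOn (s := Finset.Ico p i) (f := g) (by
      intro a ha b hb h
      rw [Finset.coe_Ico] at ha hb
      exact hinj ⟨ha.1, ha.2.trans hiq⟩ ⟨hb.1, hb.2.trans hiq⟩ h)
    rw [h1, Nat.card_Ico, Nat.card_Ico] at h2
    exact h2.symm

/-- `f` is the rotation by `r` of `[0, n)` -/
def IsRot (n r : ℕ) (f : ℕ → ℕ) : Prop :=
  ∀ i, (i < n - r → f i = i + r) ∧ (n - r ≤ i → i < n → f i = i - (n - r)) ∧ (n ≤ i → f i = i)

/-- the explicit family: only the rotations have a good square -/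
theorem family {N A t u : ℕ} {f : ℕ → ℕ} (ht : 1 ≤ t) (hu : u < A) (hA : A + t ≤ N)
    (h1 : ∀ i, i < t → f i = A + i) (h2 : ∀ i, t ≤ i → i < t + u → f i = i - t)
    (h3 : f (t + u) = N) (h4 : ∀ i, t + u < i → i ≤ A + t → f i = i - t - 1)
    (h5 : ∀ i, A + t < i → i ≤ N → f i = i - 1)
    (hs1 : A321 (fun i => f (f i))) (hs2 : A1342 (fun i => f (f i))) : u = 0 ∧ A + t = N := by
  rcases Nat.lt_or_ge (A + t) N with hc | hc
  · exfalso
    have e1 : f (f (t + u)) = N - 1 := by rw [h3, h5 N hc le_rfl]
    have e2 : f N = N - 1 := h5 N hc le_rfl
    have e3 : f (f N) < N - 1 ∧ (t < A → A - t - 1 < f (f N)) := by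
      rw [e2]
      rcases Nat.lt_or_ge (A + t) (N - 1) with h | h
      · rw [h5 (N - 1) h (by omega)]
        omega
      · rw [h4 (N - 1) (by omega) (by omega)]
        omega
    rcases Nat.lt_or_ge (t + u) A with h | h
    · -- 1342
      have e4 : f (f 0) = A - t - 1 := by
        rw [h1 0 (by omega), add_zero, h4 A h (by omega)]
      have e5 : f (f (2 * t + u + 1)) = N := by
        rw [h4 (2 * t + u + 1) (by omega) (by omega)]
        have : 2 * t + u + 1 - t - 1 = t + u := by omega
        rw [this, h3]
      refine hs2 0 (t + u) (2 * t + u + 1) N (by omega) (by omega) (by omega) ?_ ?_ ?_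
      · show f (f 0) < f (f N)
        rw [e4]
        exact e3.2 (by omega)
      · show f (f N) < f (f (t + u))
        rw [e1]
        exact e3.1
      · show f (f (t + u)) < f (f (2 * t + u + 1))
        rw [e1, e5]
        omega
    · have e4 : f (f (t + u - A)) = N := by
        rw [h1 (t + u - A) (by omega)]
        have : A + (t + u - A) = t + u := by omega
        rw [this, h3]
      refine hs1 (t + u - A) (t + u) N (by omega) (by omega) ?_ ?_
      · show f (f N) < f (f (t + u))
        rw [e1]
        exact e3.1
      · show f (f (t + u)) < f (f (t + u - A))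
        rw [e1, e4]
        omega
  · have hN : A + t = N := by omega
    refine ⟨?_, hN⟩
    by_contra hu0
    have hu1 : 1 ≤ u := by omega
    have e1 : f (f (t + u)) = A - 1 := by
      rw [h3, h4 N (by omega) (by omega)]
      omega
    have e2 : f (f t) = A := by
      rw [h2 t le_rfl (by omega), Nat.sub_self, h1 0 (by omega), add_zero]
    rcases Nat.lt_or_ge t A with h | h
    · rcases Nat.lt_or_ge u t with h' | h'
      · have e3 : f (f (2 * t + 1)) = 0 := by
          rw [h4 (2 * t + 1) (by omega) (by omega)]
          have : 2 * t + 1 - t - 1 = t := by omega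
          rw [this, h2 t le_rfl (by omega), Nat.sub_self]
        refine hs1 t (t + u) (2 * t + 1) (by omega) (by omega) ?_ ?_
        · show f (f (2 * t + 1)) < f (f (t + u))
          rw [e1, e3]
          omega
        · show f (f (t + u)) < f (f t)
          rw [e1, e2]
          omega
      · have e3 : f (f (t + u + 1)) = u - t := by
          rw [h4 (t + u + 1) (by omega) (by omega)]
          have : t + u + 1 - t - 1 = u := by omega
          rw [this, h2 u h' (by omega)]
        refine hs1 t (t + u) (t + u + 1) (by omega) (by omega) ?_ ?_
        · show f (f (t + u + 1)) < f (f (t + u))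
          rw [e1, e3]
          omega
        · show f (f (t + u)) < f (f t)
          rw [e1, e2]
          omega
    · have e3 : f (f (t + u - A)) = N := by
        rw [h1 (t + u - A) (by omega)]
        have : A + (t + u - A) = t + u := by omega
        rw [this, h3]
      refine hs1 (t + u - A) t (t + u) (by omega) (by omega) ?_ ?_
      · show f (f (t + u)) < f (f t)
        rw [e1, e2]
        omega
      · show f (f t) < f (f (t + u - A))
        rw [e2, e3]
        omega

/-- the structure theorem -/
theorem structure_thm {n : ℕ} (f : Equiv.Perm ℕ) (hfix : ∀ i, n ≤ i → f i = i) (hg : Good f)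
    (hn : 1 ≤ n) (hlast : f (n - 1) ≠ n - 1) :
    (2 ≤ n ∧ f (n - 1) = n - 2 ∧ f (n - 2) = n - 1) ∨ ∃ r, 1 ≤ r ∧ r < n ∧ IsRot n r f := by
  obtain ⟨ha, hb, hs1, hs2⟩ := hg
  obtain ⟨N, rfl⟩ : ∃ N, n = N + 1 := ⟨n - 1, by omega⟩
  simp only [Nat.add_sub_cancel] at hlast
  have hlt : ∀ i, i ≤ N → f i ≤ N := by
    intro i hi
    by_contra hc
    have h1 : f (f i) = f i := hfix _ (by omega)
    have h2 : f i = i := f.injective h1
    omega
  obtain ⟨s, hs⟩ : ∃ s, f s = N := f.surjective N
  have hsN : s < N := by
    rcases lt_trichotomy s N with h | h | h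
    · exact h
    · subst h; exact absurd hs hlast
    · have := hfix s h
      omega
  have hne : ∀ i, i ≠ s → f i ≠ N := fun i hi h => hi (f.injective (h.trans hs.symm))
  obtain ⟨y, hy⟩ : ∃ y, f (s + 1) = y := ⟨_, rfl⟩
  have hyN : y < N := by
    have h1 := hlt (s + 1) (by omega)
    have h2 := hne (s + 1) (by omega)
    omega
  -- after `s` increasing
  have hinc : ∀ i j, s < i → i < j → j ≤ N → f i < f j := by
    intro i j hi hij hj
    by_contra hc
    have h1 : f i ≠ f j := fun h => hij.ne (f.injective h)
    have h2 := hlt i (by omega)
    have h3 := hne i (by omega)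
    exact ha s i j hi hij (by omega) (by omega)
  have hge : ∀ i, s < i → i ≤ N → y ≤ f i := by
    intro i hi hiN
    rcases Nat.lt_or_ge (s + 1) i with h | h
    · have := hinc (s + 1) i (by omega) h hiN
      omega
    · have : i = s + 1 := by omega
      subst this
      omega
  have hney : ∀ i, i ≤ s → f i ≠ y := by
    intro i hi h
    have := f.injective (h.trans hy.symm)
    omega
  -- the threshold
  obtain ⟨t, hts, ht1, ht2⟩ : ∃ t, t ≤ s ∧ (∀ i, i < t → y < f i) ∧
      ∀ i, t ≤ i → i < s → f i < y := by
    have hex : ∃ i, i = s ∨ f i < y := ⟨s, Or.inl rfl⟩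
    classical
    refine ⟨Nat.find hex, Nat.find_min' hex (Or.inl rfl), ?_, ?_⟩
    · intro i hi
      have h1 := Nat.find_min hex hi
      have h2 := Nat.find_min' hex (Or.inl rfl : s = s ∨ f s < y)
      have h3 := hney i (by omega)
      omega
    · intro i hi his
      rcases Nat.find_spec hex with h | h
      · omega
      · rcases Nat.lt_or_ge (Nat.find hex) i with h1 | h1
        · by_contra hc
          have h2 := hney i (by omega)
          have h3 := hlt i (by omega)
          have h4 := hne i (by omega)
          exact hb (Nat.find hex) i s (s + 1) h1 his (by omega) (by omega) (by omega) (by omega)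
        · have : i = Nat.find hex := by omega
          rw [this]
          exact h
  have hpos : ∀ v, v < y → ∃ i, t ≤ i ∧ i < s ∧ f i = v := by
    intro v hv
    obtain ⟨i, hi⟩ := f.surjective v
    refine ⟨i, ?_, ?_, hi⟩
    · by_contra hc
      have := ht1 i (by omega)
      omega
    · by_contra hc
      rcases Nat.lt_or_ge s i with h | h
      · rcases Nat.lt_or_ge N i with h' | h'
        · have := hfix i h'
          omega
        · have := hge i h h'
          omega
      · have : i = s := by omega
        subst this
        omega
  rcases Nat.eq_zero_or_pos t with ht0 | ht0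
  · -- no large elements before `s`
    subst ht0
    have hys : y = s := by
      have h1 : (Finset.range s).image f = Finset.range y := by
        ext v
        rw [Finset.mem_image, Finset.mem_range]
        constructor
        · rintro ⟨i, hi, rfl⟩
          exact ht2 i (by omega) (Finset.mem_range.1 hi)
        · intro hv
          obtain ⟨i, -, hi, hi'⟩ := hpos v hv
          exact ⟨i, Finset.mem_range.2 hi, hi'⟩
      have h2 := Finset.card_image_of_injective (Finset.range s) f.injective
      rw [h1, Finset.card_range, Finset.card_range] at h2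
      exact h2
    subst hys
    have hseg := (seg (g := f) (p := y + 1) (q := N + 1) (A := y) (B := N)
      (fun i j hi hij hj => hinc i j (by omega) hij (by omega))
      (fun i hi hiN => ⟨hge i (by omega) (by omega), by
        have h1 := hlt i (by omega)
        have h2 := hne i (by omega)
        omega⟩)
      (fun v hv hvN => by
        obtain ⟨i, hi⟩ := f.surjective v
        refine ⟨i, ?_, ?_, hi⟩
        · by_contra hc
          rcases Nat.lt_or_ge i y with h | h
          · have := ht2 i (by omega) h
            omega
          · have : i = y := by omega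
            subst this
            omega
        · by_contra hc
          have := hfix i (by omega)
          omega)).2
    have hval : ∀ i, y < i → i ≤ N → f i = i - 1 := by
      intro i hi hiN
      have h1 := hseg i (by omega) (by omega)
      have h2 := hge i hi hiN
      omega
    rcases Nat.eq_zero_or_pos y with hy0 | hy0
    · -- a rotation
      subst hy0
      right
      refine ⟨N, by omega, by omega, fun i => ⟨?_, ?_, ?_⟩⟩
      · intro hi
        have : i = 0 := by omega
        subst this
        omega
      · intro hi hiN
        rw [hval i (by omega) (by omega)]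
        omega
      · exact hfix i
    · rcases Nat.lt_or_ge (y + 1) N with h | h
      · exfalso
        have h0 : f 0 < y := ht2 0 (by omega) hy0
        have h00 : f (f 0) < y := ht2 (f 0) (by omega) h0
        have e1 : f (f y) = N - 1 := by rw [hs, hval N hsN le_rfl]
        have e2 : f (f (y + 1)) = N := by
          rw [hval (y + 1) (by omega) (by omega), Nat.add_sub_cancel, hs]
        have e3 : f (f (y + 2)) = y := by
          rw [hval (y + 2) (by omega) (by omega)]
          have : y + 2 - 1 = y + 1 := by omega
          rw [this, hy]
        refine hs2 0 y (y + 1) (y + 2) hy0 (by omega) (by omega) ?_ ?_ ?_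
        · show f (f 0) < f (f (y + 2))
          omega
        · show f (f (y + 2)) < f (f y)
          omega
        · show f (f y) < f (f (y + 1))
          omega
      · left
        have hyN' : N = y + 1 := by omega
        subst hyN'
        refine ⟨by omega, ?_, ?_⟩
        · show f (y + 1) = y + 1 + 1 - 2
          omega
        · have : y + 1 + 1 - 2 = y := by omega
          rw [this, hs]
          omega
  · -- large elements before `s`
    have hmono1 : ∀ i j, i < j → j < t → f i < f j := by
      intro i j hij hj
      by_contra hc
      have h1 : f i ≠ f j := fun h => hij.ne (f.injective h)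
      have h2 := ht1 j hj
      exact ha i j (s + 1) hij (by omega) (by omega) (by omega)
    have hmono2 : ∀ i j, t ≤ i → i < j → j < s → f i < f j := by
      intro i j hi hij hj
      by_contra hc
      have h1 : f i ≠ f j := fun h => hij.ne (f.injective h)
      have h2 := ht1 0 ht0
      have h3 := ht2 i hi (by omega)
      exact ha 0 i j (by omega) hij (by omega) (by omega)
    have hseg2 := seg (g := f) (p := t) (q := s) (A := 0) (B := y) hmono2
      (fun i hi his => ⟨Nat.zero_le _, ht2 i hi his⟩) (fun v _ hv => hpos v hv)
    have hval2 : ∀ i, t ≤ i → i < s → f i = i - t := by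
      intro i hi his
      have := hseg2.2 i hi his
      omega
    have hyst : s = t + y := by
      have := hseg2.1
      omega
    have hAy : y < f 0 := ht1 0 ht0
    have hposs : ∀ v, y ≤ v → v < N → ∃ i, f i = v ∧ (i < t ∨ (s < i ∧ i ≤ N)) := by
      intro v hv hvN
      obtain ⟨i, hi⟩ := f.surjective v
      refine ⟨i, hi, ?_⟩
      rcases Nat.lt_or_ge i t with h | h
      · exact Or.inl h
      · right
        rcases lt_trichotomy i s with h1 | h1 | h1
        · have := ht2 i h h1
          omega
        · subst h1
          omega
        · refine ⟨h1, ?_⟩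
          by_contra hc
          have := hfix i (by omega)
          omega
    have htN : f (t - 1) < N := by
      have h1 := hlt (t - 1) (by omega)
      have h2 := hne (t - 1) (by omega)
      omega
    have hseg1 := (seg (g := f) (p := 0) (q := t) (A := f 0) (B := f (t - 1) + 1)
      (fun i j _ hij hj => hmono1 i j hij hj)
      (fun i _ hi => by
        constructor
        · rcases Nat.eq_zero_or_pos i with h | h
          · subst h; exact le_rfl
          · exact (hmono1 0 i h hi).le
        · rcases Nat.lt_or_ge i (t - 1) with h | h
          · have := hmono1 i (t - 1) h (by omega)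
            omega
          · have : i = t - 1 := by omega
            subst this
            omega)
      (fun v hv hv' => by
        obtain ⟨i, hi, h⟩ := hposs v (by omega) (by omega)
        rcases h with h | ⟨h, h'⟩
        · exact ⟨i, Nat.zero_le _, h, hi⟩
        · exfalso
          have h2 : f i ≠ f 0 := fun e => by
            have := f.injective e
            omega
          have h3 : f i ≠ f (t - 1) := fun e => by
            have := f.injective e
            omega
          have h4 : 0 < t - 1 := by
            rcases Nat.eq_zero_or_pos (t - 1) with h5 | h5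
            · rw [h5] at hv' h3
              omega
            · exact h5
          exact hb 0 (t - 1) s i h4 (by omega) h (by omega) (by omega) (by omega))).2
    have hval1 : ∀ i, i < t → f i = f 0 + i := by
      intro i hi
      have h1 := hseg1 i (Nat.zero_le _) hi
      have h2 : f 0 ≤ f i := by
        rcases Nat.eq_zero_or_pos i with h | h
        · subst h; exact le_rfl
        · exact (hmono1 0 i h hi).le
      omega
    obtain ⟨A, hA⟩ : ∃ A, f 0 = A := ⟨_, rfl⟩
    rw [hA] at hval1 hAy
    have hAt : A + t ≤ N := by
      have := hval1 (t - 1) (by omega)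
      omega
    have hgap : ∀ i, s < i → i ≤ N → f i < A ∨ A + t ≤ f i := by
      intro i hi hiN
      by_contra hc
      push Not at hc
      have h1 := hval1 (f i - A) (by omega)
      have h2 : A + (f i - A) = f i := by omega
      rw [h2] at h1
      have := f.injective h1
      omega
    -- the values after `s`
    have hseg3 := (seg (g := fun i => if f i < A then f i else f i - t) (p := s + 1)
      (q := N + 1) (A := y) (B := N - t)
      (fun i j hi hij hj => by
        have h1 := hinc i j (by omega) hij (by omega)
        have h2 := hgap i (by omega) (by omega)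
        have h3 := hgap j (by omega) (by omega)
        show (if f i < A then f i else f i - t) < (if f j < A then f j else f j - t)
        split_ifs <;> omega)
      (fun i hi hiN => by
        have h1 := hlt i (by omega)
        have h2 := hne i (by omega)
        have h3 := hge i (by omega) (by omega)
        have h4 := hgap i (by omega) (by omega)
        show y ≤ (if f i < A then f i else f i - t) ∧ (if f i < A then f i else f i - t) < N - t
        split_ifs <;> omega)
      (fun v hv hvN => by
        show ∃ i, s + 1 ≤ i ∧ i < N + 1 ∧ (if f i < A then f i else f i - t) = v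
        rcases Nat.lt_or_ge v A with h | h
        · obtain ⟨i, hi, h'⟩ := hposs v hv (by omega)
          rcases h' with h' | ⟨h', h''⟩
          · have := hval1 i h'
            omega
          · refine ⟨i, by omega, by omega, ?_⟩
            rw [if_pos (by omega), hi]
        · obtain ⟨i, hi, h'⟩ := hposs (v + t) (by omega) (by omega)
          rcases h' with h' | ⟨h', h''⟩
          · have := hval1 i h'
            omega
          · refine ⟨i, by omega, by omega, ?_⟩
            rw [if_neg (by omega), hi]
            omega)).2
    have hval3 : ∀ i, s < i → i ≤ N → (i ≤ A + t → f i = i - t - 1) ∧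
        (A + t < i → f i = i - 1) := by
      intro i hi hiN
      have h1 : i - (s + 1) = (if f i < A then f i else f i - t) - y := hseg3 i (by omega) (by omega)
      have h2 := hge i hi hiN
      have h3 := hgap i hi hiN
      split_ifs at h1 <;> constructor <;> intro _ <;> omega
    have hfam := family (f := f) (N := N) (A := A) (t := t) (u := y) ht0 hAy hAt hval1
      (fun i hi hi' => hval2 i hi (by omega)) (by rw [← hyst]; exact hs)
      (fun i hi hi' => (hval3 i (by omega) (by omega)).1 hi')
      (fun i hi hi' => (hval3 i (by omega) hi').2 hi) hs1 hs2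
    right
    refine ⟨A, by omega, by omega, fun i => ⟨?_, ?_, ?_⟩⟩
    · intro hi
      rcases Nat.lt_or_ge i t with h | h
      · rw [hval1 i h]; omega
      · have : i = s := by omega
        rw [this, hs]
        omega
    · intro hi hiN
      rw [(hval3 i (by omega) (by omega)).1 (by omega)]
      omega
    · exact hfix i

/-- the rotations are good -/
theorem rot_avoid {n r : ℕ} (hr : r ≤ n) {f : ℕ → ℕ} (hf : IsRot n r f) : A321 f ∧ A1342 f := by
  constructor
  · intro i j k hij hjk h1 h2
    have a1 := hf i
    have a2 := hf j
    have a3 := hf k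
    omega
  · intro i j k l hij hjk hkl h1 h2 h3
    have a1 := hf i
    have a2 := hf j
    have a3 := hf k
    have a4 := hf l
    omega

theorem rot_sq {n r : ℕ} (hr : r < n) {f : ℕ → ℕ} (hf : IsRot n r f) :
    ∃ r', r' ≤ n ∧ IsRot n r' (fun i => f (f i)) := by
  rcases Nat.lt_or_ge (2 * r) n with h | h
  · refine ⟨2 * r, h.le, fun i => ?_⟩
    have a1 := hf i
    have a2 := hf (f i)
    refine ⟨fun h1 => ?_, fun h1 h2 => ?_, fun h1 => ?_⟩ <;> show f (f i) = _ <;> omega
  · refine ⟨2 * r - n, by omega, fun i => ?_⟩
    have a1 := hf i
    have a2 := hf (f i)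
    refine ⟨fun h1 => ?_, fun h1 h2 => ?_, fun h1 => ?_⟩ <;> show f (f i) = _ <;> omega

theorem rot_good {n r : ℕ} (hr : r < n) {f : ℕ → ℕ} (hf : IsRot n r f) : Good f := by
  obtain ⟨r', hr', hf'⟩ := rot_sq hr hf
  exact ⟨(rot_avoid hr.le hf).1, (rot_avoid hr.le hf).2, (rot_avoid hr' hf').1,
    (rot_avoid hr' hf').2⟩

end Pool.Agent.K6.H23.SAv
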