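import Pool.Agent.K6.H23.SAvCore

/-!
# Permutations that strongly avoid 321 and 1342: counting
-/

set_option autoImplicit false

namespace Pool.Agent.K6.H23.SAv

open Finset

/-- the good permutations of `[0, n)` -/
def SS (n : ℕ) : Set (Equiv.Perm ℕ) := {f | (∀ i, n ≤ i → f i = i) ∧ Good f}

/-- the permutations with support in `[0, n)` -/
noncomputable def E (n : ℕ) : Equiv.Perm (Fin n) ≃ {f : Equiv.Perm ℕ // ∀ a, ¬ a < n → f a = a} :=
  (Equiv.permCongr (Fin.equivSubtype (n := n))).trans
    (Equiv.Perm.subtypeEquivSubtypePerm (fun i => i < n))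

theorem E_apply {n : ℕ} (π : Equiv.Perm (Fin n)) (i : ℕ) (h : i < n) :
    (E n π).1 i = (π ⟨i, h⟩ : ℕ) := by
  unfold E
  rw [Equiv.trans_apply, Equiv.Perm.subtypeEquivSubtypePerm_apply_of_mem (p := fun i => i < n) _ h]
  rfl

theorem E_fix {n : ℕ} (π : Equiv.Perm (Fin n)) (i : ℕ) (h : n ≤ i) : (E n π).1 i = i :=
  (E n π).2 i (not_lt.2 h)

theorem SS_finite (n : ℕ) : (SS n).Finite := by
  have h1 : Finite {f : Equiv.Perm ℕ // ∀ a, ¬ a < n → f a = a} := Finite.of_equiv _ (E n)
  have h2 : ({f : Equiv.Perm ℕ | ∀ a, ¬ a < n → f a = a}).Finite := Set.finite_coe_iff.1 h1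
  refine h2.subset ?_
  rintro f ⟨hf, -⟩ a ha
  exact hf a (not_lt.1 ha)

/-- the rotation -/
def rotF (n r i : ℕ) : ℕ :=
  if i < n - min r n then i + min r n else if i < n then i - (n - min r n) else i

/-- its inverse -/
def rotG (n r j : ℕ) : ℕ :=
  if j < min r n then j + (n - min r n) else if j < n then j - min r n else j

/-- the rotation -/
def rot (n r : ℕ) : Equiv.Perm ℕ where
  toFun := rotF n r
  invFun := rotG n r
  left_inv i := by
    unfold rotF rotG
    split_ifs <;> omega
  right_inv j := by
    unfold rotF rotG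
    split_ifs <;> omega

theorem rot_isRot {n r : ℕ} (hr : r ≤ n) : IsRot n r (rot n r) := by
  intro i
  have h : min r n = r := min_eq_left hr
  refine ⟨fun h1 => ?_, fun h1 h2 => ?_, fun h1 => ?_⟩ <;>
    show rotF n r i = _ <;> unfold rotF <;> rw [h] <;> split_ifs <;> omega

theorem eq_rot {n r : ℕ} (hr : r ≤ n) {f : Equiv.Perm ℕ} (hf : IsRot n r f) : f = rot n r := by
  ext i
  have h1 := hf i
  have h2 := rot_isRot hr i
  omega

theorem rot_zero {n r : ℕ} (hr : r < n) : rot n r 0 = r := by
  have h2 := rot_isRot hr.le 0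
  omega

/-- permutations fixing the large numbers -/
theorem lt_of_fix {n : ℕ} {f : Equiv.Perm ℕ} (hf : ∀ i, n ≤ i → f i = i) {i : ℕ} (hi : i < n) :
    f i < n := by
  by_contra hc
  have h1 : f (f i) = f i := hf _ (by omega)
  have h2 : f i = i := f.injective h1
  omega

/-- adding the block 21 -/
theorem swap_good {m : ℕ} {f : Equiv.Perm ℕ} (hf : ∀ i, m ≤ i → f i = i) :
    Good (f * Equiv.swap m (m + 1) : Equiv.Perm ℕ) ↔ Good f := by
  set g := f * Equiv.swap m (m + 1) with hg
  have g1 : ∀ i, i < m → g i = f i := by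
    intro i hi
    rw [hg, Equiv.Perm.mul_apply, Equiv.swap_apply_of_ne_of_ne (by omega) (by omega)]
  have g2 : g m = m + 1 := by
    rw [hg, Equiv.Perm.mul_apply, Equiv.swap_apply_left, hf _ (by omega)]
  have g3 : g (m + 1) = m := by
    rw [hg, Equiv.Perm.mul_apply, Equiv.swap_apply_right, hf _ (by omega)]
  have g4 : ∀ i, m + 2 ≤ i → g i = i := by
    intro i hi
    rw [hg, Equiv.Perm.mul_apply, Equiv.swap_apply_of_ne_of_ne (by omega) (by omega),
      hf _ (by omega)]
  have hlt : ∀ i, i < m → f i < m := fun i hi => lt_of_fix hf hi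
  have hsq : (fun i => g (g i)) = fun i => f (f i) := by
    funext i
    rcases Nat.lt_or_ge i m with h | h
    · rw [g1 i h, g1 _ (hlt i h)]
    · rw [hf i h, hf i h]
      rcases Nat.lt_or_ge i (m + 1) with h' | h'
      · have : i = m := by omega
        rw [this, g2, g3]
      · rcases Nat.lt_or_ge i (m + 2) with h'' | h''
        · have : i = m + 1 := by omega
          rw [this, g3, g2]
        · rw [g4 i h'', g4 i h'']
  have key : ∀ i, (i < m ∧ g i = f i ∧ f i < m) ∨ (i = m ∧ g i = m + 1 ∧ f i = m) ∨
      (i = m + 1 ∧ g i = m ∧ f i = m + 1) ∨ (m + 2 ≤ i ∧ g i = i ∧ f i = i) := by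
    intro i
    rcases Nat.lt_or_ge i m with h | h
    · exact Or.inl ⟨h, g1 i h, hlt i h⟩
    · rcases Nat.lt_or_ge i (m + 1) with h' | h'
      · have : i = m := by omega
        subst this
        exact Or.inr (Or.inl ⟨rfl, g2, hf _ le_rfl⟩)
      · rcases Nat.lt_or_ge i (m + 2) with h'' | h''
        · have : i = m + 1 := by omega
          subst this
          exact Or.inr (Or.inr (Or.inl ⟨rfl, g3, hf _ (by omega)⟩))
        · exact Or.inr (Or.inr (Or.inr ⟨h'', g4 i h'', hf _ (by omega)⟩))
  have e1 : A321 g ↔ A321 f := by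
    constructor
    · intro h i j k hij hjk h1 h2
      have a1 := key i
      have a2 := key j
      have a3 := key k
      exact h i j k hij hjk (by omega) (by omega)
    · intro h i j k hij hjk h1 h2
      have a1 := key i
      have a2 := key j
      have a3 := key k
      exact h i j k hij hjk (by omega) (by omega)
  have e2 : A1342 g ↔ A1342 f := by
    constructor
    · intro h i j k l hij hjk hkl h1 h2 h3
      have a1 := key i
      have a2 := key j
      have a3 := key k
      have a4 := key l
      exact h i j k l hij hjk hkl (by omega) (by omega) (by omega)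
    · intro h i j k l hij hjk hkl h1 h2 h3
      have a1 := key i
      have a2 := key j
      have a3 := key k
      have a4 := key l
      exact h i j k l hij hjk hkl (by omega) (by omega) (by omega)
  unfold Good
  rw [hsq, e1, e2]

/-- the decomposition -/
theorem SS_decomp (m : ℕ) : SS (m + 3) = SS (m + 2) ∪
    ((fun f => f * Equiv.swap (m + 1) (m + 2)) '' SS (m + 1) ∪ rot (m + 3) '' Set.Ico 1 (m + 3)) := by
  ext f
  constructor
  · rintro ⟨hf, hg⟩
    by_cases hl : f (m + 2) = m + 2
    · left
      refine ⟨fun i hi => ?_, hg⟩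
      rcases Nat.lt_or_ge (m + 2) i with h | h
      · exact hf i h
      · have : i = m + 2 := by omega
        rw [this, hl]
    · right
      rcases structure_thm f hf hg (by omega) (by simpa using hl) with ⟨-, h1, h2⟩ | ⟨r, hr1, hr2, hr⟩
      · left
        have h1' : f (m + 2) = m + 1 := h1
        have h2' : f (m + 1) = m + 2 := h2
        have hfix : ∀ i, m + 1 ≤ i → (f * Equiv.swap (m + 1) (m + 2)) i = i := by
          intro i hi
          rw [Equiv.Perm.mul_apply]
          rcases Nat.lt_or_ge i (m + 2) with h | h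
          · have : i = m + 1 := by omega
            rw [this, Equiv.swap_apply_left, h1']
          · rcases Nat.lt_or_ge i (m + 3) with h' | h'
            · have : i = m + 2 := by omega
              rw [this, Equiv.swap_apply_right, h2']
            · rw [Equiv.swap_apply_of_ne_of_ne (by omega) (by omega), hf i h']
        have hmul : f * Equiv.swap (m + 1) (m + 2) * Equiv.swap (m + 1) (m + 2) = f := by
          rw [mul_assoc, Equiv.swap_mul_self, mul_one]
        refine ⟨f * Equiv.swap (m + 1) (m + 2), ⟨hfix, ?_⟩, hmul⟩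
        rw [← swap_good hfix]
        show Good (f * Equiv.swap (m + 1) (m + 2) * Equiv.swap (m + 1) (m + 2) : Equiv.Perm ℕ)
        rw [hmul]
        exact hg
      · right
        exact ⟨r, ⟨hr1, hr2⟩, (eq_rot hr2.le hr).symm⟩
  · rintro (⟨hf, hg⟩ | ⟨g, ⟨hf, hg⟩, rfl⟩ | ⟨r, ⟨hr1, hr2⟩, rfl⟩)
    · exact ⟨fun i hi => hf i (by omega), hg⟩
    · refine ⟨fun i hi => ?_, (swap_good hf).2 hg⟩
      show (g * Equiv.swap (m + 1) (m + 2)) i = i
      rw [Equiv.Perm.mul_apply, Equiv.swap_apply_of_ne_of_ne (by omega) (by omega),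
        hf i (by omega)]
    · have h1 := rot_isRot hr2.le
      exact ⟨fun i hi => (h1 i).2.2 hi, rot_good hr2 h1⟩

theorem SS_card_rec (m : ℕ) :
    (SS (m + 3)).ncard = (SS (m + 2)).ncard + ((SS (m + 1)).ncard + (m + 2)) := by
  have hR : (rot (m + 3) '' Set.Ico 1 (m + 3)).ncard = m + 2 := by
    rw [Set.InjOn.ncard_image]
    · rw [← Finset.coe_Ico, Set.ncard_coe_finset, Nat.card_Ico]
      omega
    · intro r hr r' hr' h
      have h1 := congrArg (fun f : Equiv.Perm ℕ => f 0) h
      simp only [rot_zero hr.2, rot_zero hr'.2] at h1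
      exact h1
  have hT : ((fun f => f * Equiv.swap (m + 1) (m + 2)) '' SS (m + 1)).ncard =
      (SS (m + 1)).ncard := by
    apply Set.ncard_image_of_injective
    intro f g h
    exact mul_right_cancel h
  have hRf : (rot (m + 3) '' Set.Ico 1 (m + 3)).Finite := (Set.finite_Ico _ _).image _
  have hTf : ((fun f => f * Equiv.swap (m + 1) (m + 2)) '' SS (m + 1)).Finite :=
    (SS_finite _).image _
  have ht : ∀ g, g ∈ SS (m + 1) → (g * Equiv.swap (m + 1) (m + 2)) (m + 2) = m + 1 ∧
      (g * Equiv.swap (m + 1) (m + 2)) (m + 1) = m + 2 := by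
    rintro g ⟨hf, -⟩
    rw [Equiv.Perm.mul_apply, Equiv.Perm.mul_apply, Equiv.swap_apply_right,
      Equiv.swap_apply_left, hf _ le_rfl, hf _ (by omega)]
    exact ⟨rfl, rfl⟩
  have hd1 : Disjoint ((fun f => f * Equiv.swap (m + 1) (m + 2)) '' SS (m + 1))
      (rot (m + 3) '' Set.Ico 1 (m + 3)) := by
    rw [Set.disjoint_left]
    rintro _ ⟨g, hg, rfl⟩ ⟨r, ⟨hr1, hr2⟩, h⟩
    have h1 := ht g hg
    have h2 := (rot_isRot hr2.le) (m + 2)
    have h3 := (rot_isRot hr2.le) (m + 1)
    have h4 := congrArg (fun f : Equiv.Perm ℕ => f (m + 2)) h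
    have h5 := congrArg (fun f : Equiv.Perm ℕ => f (m + 1)) h
    simp only at h4 h5
    rw [h1.1] at h4
    rw [h1.2] at h5
    omega
  have hd2 : Disjoint (SS (m + 2)) ((fun f => f * Equiv.swap (m + 1) (m + 2)) '' SS (m + 1) ∪
      rot (m + 3) '' Set.Ico 1 (m + 3)) := by
    rw [Set.disjoint_left]
    rintro f ⟨hf, -⟩ (⟨g, hg, rfl⟩ | ⟨r, ⟨hr1, hr2⟩, rfl⟩)
    · have h1 := (ht g hg).1
      have h2 : (g * Equiv.swap (m + 1) (m + 2)) (m + 2) = m + 2 := hf _ le_rfl
      omega
    · have h1 := (rot_isRot hr2.le) (m + 2)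
      have h2 := hf (m + 2) le_rfl
      omega
  rw [SS_decomp, Set.ncard_union_eq hd2 (SS_finite _) (hTf.union hRf),
    Set.ncard_union_eq hd1 hTf hRf, hT, hR]

theorem SS_one : (SS 1).ncard = 1 := by
  have : SS 1 = {1} := by
    ext f
    constructor
    · rintro ⟨hf, -⟩
      ext i
      rcases Nat.eq_zero_or_pos i with h | h
      · subst h
        have := lt_of_fix hf (i := 0) (by omega)
        show f 0 = 0
        omega
      · show f i = i
        exact hf i h
    · rintro rfl
      refine ⟨fun i _ => rfl, ?_, ?_, ?_, ?_⟩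
      · intro i j k h1 h2 h3 h4
        change k < j at h3
        omega
      · intro i j k l h1 h2 h3 h4 h5 h6
        change l < j at h5
        omega
      · intro i j k h1 h2 h3 h4
        change k < j at h3
        omega
      · intro i j k l h1 h2 h3 h4 h5 h6
        change l < j at h5
        omega
  rw [this, Set.ncard_singleton]

theorem SS_two : (SS 2).ncard = 2 := by
  have : SS 2 = {rot 2 0, rot 2 1} := by
    ext f
    constructor
    · rintro ⟨hf, -⟩
      have h0 := lt_of_fix hf (i := 0) (by omega)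
      have h1 := lt_of_fix hf (i := 1) (by omega)
      have h01 : f 0 ≠ f 1 := fun h => by
        have := f.injective h
        omega
      rcases Nat.eq_zero_or_pos (f 0) with h | h
      · left
        apply eq_rot (by omega)
        intro i
        have h2 := hf i
        rcases Nat.eq_zero_or_pos i with h3 | h3
        · subst h3; omega
        · rcases Nat.lt_or_ge i 2 with h4 | h4
          · have : i = 1 := by omega
            subst this
            omega
          · omega
      · right
        apply eq_rot (by omega)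
        intro i
        have h2 := hf i
        rcases Nat.eq_zero_or_pos i with h3 | h3
        · subst h3; omega
        · rcases Nat.lt_or_ge i 2 with h4 | h4
          · have : i = 1 := by omega
            subst this
            omega
          · omega
    · rintro (rfl | rfl)
      · exact ⟨fun i hi => (rot_isRot (by omega) i).2.2 hi, rot_good (by omega) (rot_isRot (by omega))⟩
      · exact ⟨fun i hi => (rot_isRot (by omega) i).2.2 hi, rot_good (by omega) (rot_isRot (by omega))⟩
  rw [this, Set.ncard_pair]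
  intro h
  have h1 := congrArg (fun f : Equiv.Perm ℕ => f 0) h
  simp only [rot_zero (show 0 < 2 by omega), rot_zero (show 1 < 2 by omega)] at h1
  omega

theorem SS_card (m : ℕ) : (SS (m + 1)).ncard + (m + 1) + 2 = 2 * Nat.fib (m + 3) ∧
    (SS (m + 2)).ncard + (m + 2) + 2 = 2 * Nat.fib (m + 4) := by
  induction m with
  | zero =>
    rw [zero_add, zero_add, SS_one, SS_two]
    exact ⟨by decide, by decide⟩
  | succ m ih =>
    refine ⟨?_, ?_⟩
    · have := ih.2
      exact this
    · have h1 := SS_card_rec m
      have h2 : Nat.fib (m + 1 + 4) = Nat.fib (m + 3) + Nat.fib (m + 4) := by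
        rw [show m + 1 + 4 = (m + 3) + 2 by ring, Nat.fib_add_two]
      have h3 : m + 1 + 2 = m + 3 := by ring
      rw [h2, h3, h1]
      omega

end Pool.Agent.K6.H23.SAv
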